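import Pool.Agent.LibGZ87.Defs

set_option autoImplicit false

/-!
[GZ87 A1] SHORT/MEDIUM, only Defs. Calculus of faces. `re_re`: `stdSimplex.map_comp_apply`. `dl0 .. dl3`: unfold, `Fin.sum_univ_succ`, and for each face the function
`Fin.succAbove i` is the vector `![..]` (`funext`, `fin_cases`, `rfl` / `decide`). `cup11`, `cup22`: the two functions in the definition of `cup` are the vectors.
`re ![i, j]` means `re (![i, j] : Fin (1 + 1) → Fin (n + 1))`.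
-/

namespace Pool.Agent.LibGZ87

noncomputable section

open Finset

variable {M : Type} [TopologicalSpace M]

theorem re_re {l m n : ℕ} (f : Fin (l + 1) → Fin (m + 1)) (g : Fin (m + 1) → Fin (n + 1)) (s : Sx M n) :
    re f (re g s) = re (g ∘ f) s := by
  ext t
  simp only [re, ContinuousMap.comp_apply, ContinuousMap.coe_mk]
  rw [stdSimplex.map_comp_apply]

theorem dl0 (a : Co M 0) (s : Sx M 1) :
    dl 0 a s = a (re (![1] : Fin (0 + 1) → Fin (1 + 1)) s) - a (re (![0] : Fin (0 + 1) → Fin (1 + 1)) s) := by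
  have h0 : (Fin.succAbove (0 : Fin (0 + 2)) : Fin (0 + 1) → Fin (1 + 1)) = ![1] := by decide
  have h1 : (Fin.succAbove (1 : Fin (0 + 2)) : Fin (0 + 1) → Fin (1 + 1)) = ![0] := by decide
  show ∑ i : Fin (0 + 2), (-1) ^ (i : ℕ) * a (re i.succAbove s) = _
  rw [Fin.sum_univ_two, h0, h1]
  norm_num
  ring

theorem dl1 (a : Co M 1) (s : Sx M 2) :
    dl 1 a s = a (re (![1, 2] : Fin (1 + 1) → Fin (2 + 1)) s) - a (re (![0, 2] : Fin (1 + 1) → Fin (2 + 1)) s) +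
      a (re (![0, 1] : Fin (1 + 1) → Fin (2 + 1)) s) := by
  have h0 : (Fin.succAbove (0 : Fin (1 + 2)) : Fin (1 + 1) → Fin (2 + 1)) = ![1, 2] := by decide
  have h1 : (Fin.succAbove (1 : Fin (1 + 2)) : Fin (1 + 1) → Fin (2 + 1)) = ![0, 2] := by decide
  have h2 : (Fin.succAbove (2 : Fin (1 + 2)) : Fin (1 + 1) → Fin (2 + 1)) = ![0, 1] := by decide
  show ∑ i : Fin (1 + 2), (-1) ^ (i : ℕ) * a (re i.succAbove s) = _
  rw [Fin.sum_univ_three, h0, h1, h2]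
  norm_num
  ring

theorem dl2 (a : Co M 2) (s : Sx M 3) :
    dl 2 a s = a (re (![1, 2, 3] : Fin (2 + 1) → Fin (3 + 1)) s) - a (re (![0, 2, 3] : Fin (2 + 1) → Fin (3 + 1)) s) +
      a (re (![0, 1, 3] : Fin (2 + 1) → Fin (3 + 1)) s) - a (re (![0, 1, 2] : Fin (2 + 1) → Fin (3 + 1)) s) := by
  have h0 : (Fin.succAbove (0 : Fin (2 + 2)) : Fin (2 + 1) → Fin (3 + 1)) = ![1, 2, 3] := by decide
  have h1 : (Fin.succAbove (1 : Fin (2 + 2)) : Fin (2 + 1) → Fin (3 + 1)) = ![0, 2, 3] := by decide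
  have h2 : (Fin.succAbove (2 : Fin (2 + 2)) : Fin (2 + 1) → Fin (3 + 1)) = ![0, 1, 3] := by decide
  have h3 : (Fin.succAbove (3 : Fin (2 + 2)) : Fin (2 + 1) → Fin (3 + 1)) = ![0, 1, 2] := by decide
  show ∑ i : Fin (2 + 2), (-1) ^ (i : ℕ) * a (re i.succAbove s) = _
  rw [Fin.sum_univ_four, h0, h1, h2, h3]
  norm_num
  ring

theorem dl3 (a : Co M 3) (s : Sx M 4) :
    dl 3 a s = a (re (![1, 2, 3, 4] : Fin (3 + 1) → Fin (4 + 1)) s) -
      a (re (![0, 2, 3, 4] : Fin (3 + 1) → Fin (4 + 1)) s) + a (re (![0, 1, 3, 4] : Fin (3 + 1) → Fin (4 + 1)) s) -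
      a (re (![0, 1, 2, 4] : Fin (3 + 1) → Fin (4 + 1)) s) + a (re (![0, 1, 2, 3] : Fin (3 + 1) → Fin (4 + 1)) s) := by
  have h0 : (Fin.succAbove (0 : Fin (3 + 2)) : Fin (3 + 1) → Fin (4 + 1)) = ![1, 2, 3, 4] := by decide
  have h1 : (Fin.succAbove (1 : Fin (3 + 2)) : Fin (3 + 1) → Fin (4 + 1)) = ![0, 2, 3, 4] := by decide
  have h2 : (Fin.succAbove (2 : Fin (3 + 2)) : Fin (3 + 1) → Fin (4 + 1)) = ![0, 1, 3, 4] := by decide
  have h3 : (Fin.succAbove (3 : Fin (3 + 2)) : Fin (3 + 1) → Fin (4 + 1)) = ![0, 1, 2, 4] := by decide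
  have h4 : (Fin.succAbove (4 : Fin (3 + 2)) : Fin (3 + 1) → Fin (4 + 1)) = ![0, 1, 2, 3] := by decide
  show ∑ i : Fin (3 + 2), (-1) ^ (i : ℕ) * a (re i.succAbove s) = _
  rw [Fin.sum_univ_five, h0, h1, h2, h3, h4]
  norm_num
  ring

theorem cup11 (a b : Co M 1) (s : Sx M 2) : cup (rfl : 1 + 1 = 2) a b s =
    a (re (![0, 1] : Fin (1 + 1) → Fin (2 + 1)) s) * b (re (![1, 2] : Fin (1 + 1) → Fin (2 + 1)) s) := by
  have h0 : (fun i : Fin (1 + 1) => (⟨(i : ℕ), by omega⟩ : Fin (2 + 1))) = ![0, 1] := by decide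
  have h1 : (fun i : Fin (1 + 1) => (⟨1 + (i : ℕ), by omega⟩ : Fin (2 + 1))) = ![1, 2] := by decide
  show a (re (fun i : Fin (1 + 1) => (⟨(i : ℕ), by omega⟩ : Fin (2 + 1))) s) *
    b (re (fun i : Fin (1 + 1) => (⟨1 + (i : ℕ), by omega⟩ : Fin (2 + 1))) s) = _
  rw [h0, h1]

theorem cup22 (a b : Co M 2) (s : Sx M 4) : cup (rfl : 2 + 2 = 4) a b s =
    a (re (![0, 1, 2] : Fin (2 + 1) → Fin (4 + 1)) s) * b (re (![2, 3, 4] : Fin (2 + 1) → Fin (4 + 1)) s) := by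
  have h0 : (fun i : Fin (2 + 1) => (⟨(i : ℕ), by omega⟩ : Fin (4 + 1))) = ![0, 1, 2] := by decide
  have h1 : (fun i : Fin (2 + 1) => (⟨2 + (i : ℕ), by omega⟩ : Fin (4 + 1))) = ![2, 3, 4] := by decide
  show a (re (fun i : Fin (2 + 1) => (⟨(i : ℕ), by omega⟩ : Fin (4 + 1))) s) *
    b (re (fun i : Fin (2 + 1) => (⟨2 + (i : ℕ), by omega⟩ : Fin (4 + 1))) s) = _
  rw [h0, h1]

end

end Pool.Agent.LibGZ87
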