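import Pool.Agent.LibGZ87.A1

set_option autoImplicit false

/-!
[GZ87 A2] SHORT. 1-cocycles on the edges of a simplex. `coc_add`: `dl1` at the simplex `re ![i, j, l] s` and `re_re` (the compositions of the vectors are vectors: `funext`, `fin_cases`). `coc_refl`: `i = j = l`.
`cocycle_cup`: the cup product of two 1-cocycles is a 2-cocycle: `dl2`, `cup11`, `re_re`, `coc_add`.
-/

namespace Pool.Agent.LibGZ87

noncomputable section

open Finset

variable {M : Type} [TopologicalSpace M]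

private theorem A2_c01 {n : ℕ} (i j l : Fin (n + 1)) :
    (![i, j, l] : Fin (2 + 1) → Fin (n + 1)) ∘ (![0, 1] : Fin (1 + 1) → Fin (2 + 1)) = ![i, j] := by
  funext x
  fin_cases x <;> rfl

private theorem A2_c02 {n : ℕ} (i j l : Fin (n + 1)) :
    (![i, j, l] : Fin (2 + 1) → Fin (n + 1)) ∘ (![0, 2] : Fin (1 + 1) → Fin (2 + 1)) = ![i, l] := by
  funext x
  fin_cases x <;> rfl

private theorem A2_c12 {n : ℕ} (i j l : Fin (n + 1)) :
    (![i, j, l] : Fin (2 + 1) → Fin (n + 1)) ∘ (![1, 2] : Fin (1 + 1) → Fin (2 + 1)) = ![j, l] := by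
  funext x
  fin_cases x <;> rfl

theorem coc_add {a : Co M 1} (ha : dl 1 a = 0) {n : ℕ} (s : Sx M n) (i j l : Fin (n + 1)) :
    a (re (![i, l] : Fin (1 + 1) → Fin (n + 1)) s) =
      a (re (![i, j] : Fin (1 + 1) → Fin (n + 1)) s) + a (re (![j, l] : Fin (1 + 1) → Fin (n + 1)) s) := by
  have h := congrFun ha (re (![i, j, l] : Fin (2 + 1) → Fin (n + 1)) s)
  rw [dl1, re_re, re_re, re_re, A2_c01, A2_c02, A2_c12] at h
  have h0 : (0 : Co M (1 + 1)) (re (![i, j, l] : Fin (2 + 1) → Fin (n + 1)) s) = 0 := rfl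
  rw [h0] at h
  linear_combination -h

theorem coc_refl {a : Co M 1} (ha : dl 1 a = 0) {n : ℕ} (s : Sx M n) (i : Fin (n + 1)) :
    a (re (![i, i] : Fin (1 + 1) → Fin (n + 1)) s) = 0 := by
  have h := coc_add ha s i i i
  linear_combination -h

theorem cocycle_cup {a b : Co M 1} (ha : dl 1 a = 0) (hb : dl 1 b = 0) :
    dl 2 (cup (rfl : 1 + 1 = 2) a b) = 0 := by
  funext s
  have h1 := coc_add ha s 0 1 2
  have h2 := coc_add hb s 1 2 3
  rw [dl2, cup11, cup11, cup11, cup11, re_re, re_re, re_re, re_re, re_re, re_re, re_re, re_re,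
    A2_c01, A2_c01, A2_c01, A2_c01, A2_c12, A2_c12, A2_c12, A2_c12]
  have h0 : (0 : Co M (2 + 1)) s = 0 := rfl
  rw [h0]
  linear_combination (-b (re (![2, 3] : Fin (1 + 1) → Fin (3 + 1)) s)) * h1 +
    a (re (![0, 1] : Fin (1 + 1) → Fin (3 + 1)) s) * h2

end

end Pool.Agent.LibGZ87
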