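import Pool.Agent.LibGZ87.A2

set_option autoImplicit false

/-!
[GZ87 A3] MEDIUM. The fourfold product of 1-cocycles is alternating. Write `a_ij` for `a (re ![i, j] s)`; everything follows from `a_il = a_ij + a_jl` (`coc_add`).
`swap12`: the 3-cochain `g s = a_01 * (b_12 * c_12) * d_23`; its coboundary at a 4-simplex (`dl3`, `re_re`) is `a_01 * (b_13 c_13 - b_23 c_23 - b_12 c_12) * d_34` up to sign `= ± a_01 (b_12 c_23 + b_23 c_12) d_34`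
(with `a_02 = a_01 + a_12`, `d_24 = d_23 + d_34`, `ring`), so `P4 a b c d + P4 a c b d = ± ev μ (dl 3 g) = 0`.
`swap01`: `g s = (a_01 * b_01) * c_12 * d_23`. `swap23`: `g s = a_01 * b_12 * (c_23 * d_23)`. `lam_cup`: `cup22`, `cup11`, `re_re`.
-/

namespace Pool.Agent.LibGZ87

noncomputable section

open Finset

variable {M : Type} [TopologicalSpace M]

/-- the fourfold product of 1-cochains, evaluated on `μ` -/
def P4 (μ : Sx M 4 →₀ ℤ) (a b c d : Co M 1) : ℤ :=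
  ev μ (fun s => a (re (![0, 1] : Fin (1 + 1) → Fin (4 + 1)) s) * b (re (![1, 2] : Fin (1 + 1) → Fin (4 + 1)) s) *
    c (re (![2, 3] : Fin (1 + 1) → Fin (4 + 1)) s) * d (re (![3, 4] : Fin (1 + 1) → Fin (4 + 1)) s))

private theorem A3_re {m n : ℕ} (v : Fin (m + 1) → Fin (n + 1)) (i j : Fin (m + 1)) (s : Sx M n) :
    re (![i, j] : Fin (1 + 1) → Fin (m + 1)) (re v s) = re (![v i, v j] : Fin (1 + 1) → Fin (n + 1)) s := by
  rw [re_re]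
  congr 1
  funext k
  fin_cases k <;> rfl

private theorem A3_ev {μ : Sx M 4 →₀ ℤ} (hμ : ∀ b : Co M 3, ev μ (dl 3 b) = 0) (F G : Co M 4) (g : Co M 3) (e : ℤ)
    (h : ∀ s, F s + G s = e * dl 3 g s) : ev μ F = - ev μ G := by
  have h1 : F + G = e • dl 3 g := by
    funext s
    exact h s
  have h2 : ev μ F + ev μ G = 0 := by
    rw [← map_add, h1, map_smul, hμ, smul_zero]
  linarith

theorem swap01 {μ : Sx M 4 →₀ ℤ} (hμ : ∀ b : Co M 3, ev μ (dl 3 b) = 0) {a b c d : Co M 1} (ha : dl 1 a = 0)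
    (hb : dl 1 b = 0) (hc : dl 1 c = 0) (hd : dl 1 d = 0) : P4 μ a b c d = - P4 μ b a c d := by
  let g : Co M 3 := fun t => a (re (![0, 1] : Fin (1 + 1) → Fin (3 + 1)) t) * b (re (![0, 1] : Fin (1 + 1) → Fin (3 + 1)) t) * c (re (![1, 2] : Fin (1 + 1) → Fin (3 + 1)) t) * d (re (![2, 3] : Fin (1 + 1) → Fin (3 + 1)) t)
  refine A3_ev hμ _ _ g (-1) ?_
  intro s
  have f1 : g (re (![1, 2, 3, 4] : Fin (3 + 1) → Fin (4 + 1)) s) = a (re (![1, 2] : Fin (1 + 1) → Fin (4 + 1)) s) * b (re (![1, 2] : Fin (1 + 1) → Fin (4 + 1)) s) * c (re (![2, 3] : Fin (1 + 1) → Fin (4 + 1)) s) * d (re (![3, 4] : Fin (1 + 1) → Fin (4 + 1)) s) := by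
    simp only [g, A3_re]
    rfl
  have f2 : g (re (![0, 2, 3, 4] : Fin (3 + 1) → Fin (4 + 1)) s) = a (re (![0, 2] : Fin (1 + 1) → Fin (4 + 1)) s) * b (re (![0, 2] : Fin (1 + 1) → Fin (4 + 1)) s) * c (re (![2, 3] : Fin (1 + 1) → Fin (4 + 1)) s) * d (re (![3, 4] : Fin (1 + 1) → Fin (4 + 1)) s) := by
    simp only [g, A3_re]
    rfl
  have f3 : g (re (![0, 1, 3, 4] : Fin (3 + 1) → Fin (4 + 1)) s) = a (re (![0, 1] : Fin (1 + 1) → Fin (4 + 1)) s) * b (re (![0, 1] : Fin (1 + 1) → Fin (4 + 1)) s) * c (re (![1, 3] : Fin (1 + 1) → Fin (4 + 1)) s) * d (re (![3, 4] : Fin (1 + 1) → Fin (4 + 1)) s) := by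
    simp only [g, A3_re]
    rfl
  have f4 : g (re (![0, 1, 2, 4] : Fin (3 + 1) → Fin (4 + 1)) s) = a (re (![0, 1] : Fin (1 + 1) → Fin (4 + 1)) s) * b (re (![0, 1] : Fin (1 + 1) → Fin (4 + 1)) s) * c (re (![1, 2] : Fin (1 + 1) → Fin (4 + 1)) s) * d (re (![2, 4] : Fin (1 + 1) → Fin (4 + 1)) s) := by
    simp only [g, A3_re]
    rfl
  have f5 : g (re (![0, 1, 2, 3] : Fin (3 + 1) → Fin (4 + 1)) s) = a (re (![0, 1] : Fin (1 + 1) → Fin (4 + 1)) s) * b (re (![0, 1] : Fin (1 + 1) → Fin (4 + 1)) s) * c (re (![1, 2] : Fin (1 + 1) → Fin (4 + 1)) s) * d (re (![2, 3] : Fin (1 + 1) → Fin (4 + 1)) s) := by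
    simp only [g, A3_re]
    rfl
  rw [dl3, f1, f2, f3, f4, f5, coc_add ha s 0 1 2, coc_add hb s 0 1 2, coc_add hc s 1 2 3, coc_add hd s 2 3 4]
  ring

theorem swap12 {μ : Sx M 4 →₀ ℤ} (hμ : ∀ b : Co M 3, ev μ (dl 3 b) = 0) {a b c d : Co M 1} (ha : dl 1 a = 0)
    (hb : dl 1 b = 0) (hc : dl 1 c = 0) (hd : dl 1 d = 0) : P4 μ a b c d = - P4 μ a c b d := by
  let g : Co M 3 := fun t => a (re (![0, 1] : Fin (1 + 1) → Fin (3 + 1)) t) * b (re (![1, 2] : Fin (1 + 1) → Fin (3 + 1)) t) * c (re (![1, 2] : Fin (1 + 1) → Fin (3 + 1)) t) * d (re (![2, 3] : Fin (1 + 1) → Fin (3 + 1)) t)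
  refine A3_ev hμ _ _ g (1) ?_
  intro s
  have f1 : g (re (![1, 2, 3, 4] : Fin (3 + 1) → Fin (4 + 1)) s) = a (re (![1, 2] : Fin (1 + 1) → Fin (4 + 1)) s) * b (re (![2, 3] : Fin (1 + 1) → Fin (4 + 1)) s) * c (re (![2, 3] : Fin (1 + 1) → Fin (4 + 1)) s) * d (re (![3, 4] : Fin (1 + 1) → Fin (4 + 1)) s) := by
    simp only [g, A3_re]
    rfl
  have f2 : g (re (![0, 2, 3, 4] : Fin (3 + 1) → Fin (4 + 1)) s) = a (re (![0, 2] : Fin (1 + 1) → Fin (4 + 1)) s) * b (re (![2, 3] : Fin (1 + 1) → Fin (4 + 1)) s) * c (re (![2, 3] : Fin (1 + 1) → Fin (4 + 1)) s) * d (re (![3, 4] : Fin (1 + 1) → Fin (4 + 1)) s) := by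
    simp only [g, A3_re]
    rfl
  have f3 : g (re (![0, 1, 3, 4] : Fin (3 + 1) → Fin (4 + 1)) s) = a (re (![0, 1] : Fin (1 + 1) → Fin (4 + 1)) s) * b (re (![1, 3] : Fin (1 + 1) → Fin (4 + 1)) s) * c (re (![1, 3] : Fin (1 + 1) → Fin (4 + 1)) s) * d (re (![3, 4] : Fin (1 + 1) → Fin (4 + 1)) s) := by
    simp only [g, A3_re]
    rfl
  have f4 : g (re (![0, 1, 2, 4] : Fin (3 + 1) → Fin (4 + 1)) s) = a (re (![0, 1] : Fin (1 + 1) → Fin (4 + 1)) s) * b (re (![1, 2] : Fin (1 + 1) → Fin (4 + 1)) s) * c (re (![1, 2] : Fin (1 + 1) → Fin (4 + 1)) s) * d (re (![2, 4] : Fin (1 + 1) → Fin (4 + 1)) s) := by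
    simp only [g, A3_re]
    rfl
  have f5 : g (re (![0, 1, 2, 3] : Fin (3 + 1) → Fin (4 + 1)) s) = a (re (![0, 1] : Fin (1 + 1) → Fin (4 + 1)) s) * b (re (![1, 2] : Fin (1 + 1) → Fin (4 + 1)) s) * c (re (![1, 2] : Fin (1 + 1) → Fin (4 + 1)) s) * d (re (![2, 3] : Fin (1 + 1) → Fin (4 + 1)) s) := by
    simp only [g, A3_re]
    rfl
  rw [dl3, f1, f2, f3, f4, f5, coc_add ha s 0 1 2, coc_add hb s 1 2 3, coc_add hc s 1 2 3, coc_add hd s 2 3 4]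
  ring

theorem swap23 {μ : Sx M 4 →₀ ℤ} (hμ : ∀ b : Co M 3, ev μ (dl 3 b) = 0) {a b c d : Co M 1} (ha : dl 1 a = 0)
    (hb : dl 1 b = 0) (hc : dl 1 c = 0) (hd : dl 1 d = 0) : P4 μ a b c d = - P4 μ a b d c := by
  let g : Co M 3 := fun t => a (re (![0, 1] : Fin (1 + 1) → Fin (3 + 1)) t) * b (re (![1, 2] : Fin (1 + 1) → Fin (3 + 1)) t) * c (re (![2, 3] : Fin (1 + 1) → Fin (3 + 1)) t) * d (re (![2, 3] : Fin (1 + 1) → Fin (3 + 1)) t)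
  refine A3_ev hμ _ _ g (-1) ?_
  intro s
  have f1 : g (re (![1, 2, 3, 4] : Fin (3 + 1) → Fin (4 + 1)) s) = a (re (![1, 2] : Fin (1 + 1) → Fin (4 + 1)) s) * b (re (![2, 3] : Fin (1 + 1) → Fin (4 + 1)) s) * c (re (![3, 4] : Fin (1 + 1) → Fin (4 + 1)) s) * d (re (![3, 4] : Fin (1 + 1) → Fin (4 + 1)) s) := by
    simp only [g, A3_re]
    rfl
  have f2 : g (re (![0, 2, 3, 4] : Fin (3 + 1) → Fin (4 + 1)) s) = a (re (![0, 2] : Fin (1 + 1) → Fin (4 + 1)) s) * b (re (![2, 3] : Fin (1 + 1) → Fin (4 + 1)) s) * c (re (![3, 4] : Fin (1 + 1) → Fin (4 + 1)) s) * d (re (![3, 4] : Fin (1 + 1) → Fin (4 + 1)) s) := by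
    simp only [g, A3_re]
    rfl
  have f3 : g (re (![0, 1, 3, 4] : Fin (3 + 1) → Fin (4 + 1)) s) = a (re (![0, 1] : Fin (1 + 1) → Fin (4 + 1)) s) * b (re (![1, 3] : Fin (1 + 1) → Fin (4 + 1)) s) * c (re (![3, 4] : Fin (1 + 1) → Fin (4 + 1)) s) * d (re (![3, 4] : Fin (1 + 1) → Fin (4 + 1)) s) := by
    simp only [g, A3_re]
    rfl
  have f4 : g (re (![0, 1, 2, 4] : Fin (3 + 1) → Fin (4 + 1)) s) = a (re (![0, 1] : Fin (1 + 1) → Fin (4 + 1)) s) * b (re (![1, 2] : Fin (1 + 1) → Fin (4 + 1)) s) * c (re (![2, 4] : Fin (1 + 1) → Fin (4 + 1)) s) * d (re (![2, 4] : Fin (1 + 1) → Fin (4 + 1)) s) := by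
    simp only [g, A3_re]
    rfl
  have f5 : g (re (![0, 1, 2, 3] : Fin (3 + 1) → Fin (4 + 1)) s) = a (re (![0, 1] : Fin (1 + 1) → Fin (4 + 1)) s) * b (re (![1, 2] : Fin (1 + 1) → Fin (4 + 1)) s) * c (re (![2, 3] : Fin (1 + 1) → Fin (4 + 1)) s) * d (re (![2, 3] : Fin (1 + 1) → Fin (4 + 1)) s) := by
    simp only [g, A3_re]
    rfl
  rw [dl3, f1, f2, f3, f4, f5, coc_add ha s 0 1 2, coc_add hb s 1 2 3, coc_add hc s 2 3 4, coc_add hd s 2 3 4]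
  ring

theorem cup_P4 (μ : Sx M 4 →₀ ℤ) (a b c d : Co M 1) :
    ev μ (cup (rfl : 2 + 2 = 4) (cup (rfl : 1 + 1 = 2) a b) (cup (rfl : 1 + 1 = 2) c d)) = P4 μ a b c d := by
  unfold P4
  congr 1
  funext s
  rw [cup22, cup11, cup11, A3_re, A3_re, A3_re, A3_re, ← mul_assoc]
  rfl

end

end Pool.Agent.LibGZ87
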