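import Pool.Agent.LibGZ87.A1

set_option autoImplicit false

/-!
[GZ87 A4] MEDIUM. The intersection form is symmetric (Steenrod's cup-1 product). For 2-cocycles `a`, `b` let `g` be the 3-cochain `g s = a_013 * b_123 - a_023 * b_012`  (write `a_ijl` for `a (re ![i, j, l] s)`).
The coboundary of `g` at a 4-simplex is (`dl3`, `re_re`) `(a_124 b_234 - a_134 b_123) - (a_024 b_234 - a_034 b_023) + (a_014 b_134 - a_034 b_013) - (a_014 b_124 - a_024 b_012) + (a_013 b_123 - a_023 b_012)`.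
Checked by program: this minus `(a_012 b_234 - b_012 a_234)` equals `Ra0124 * b_234 - Ra0134 * b_123 + Ra0234 * b_012 + Rb0123 * (a_014 - a_034) - Rb0124 * a_014 + Rb0134 * a_014 - Rb0234 * a_014`, where
`Raijkl = a_jkl - a_ikl + a_ijl - a_ijk` is zero by the cocycle relation (`dl2` at `re ![i, j, k, l] s`, `re_re`), the same for `b`: use `linear_combination`.
Then `lam μ a b - lam μ b a = ev μ (dl 3 g) = 0`.
-/

namespace Pool.Agent.LibGZ87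

noncomputable section

open Finset

variable {M : Type} [TopologicalSpace M]

private theorem A4_face (s : Sx M 4) (v : Fin (3 + 1) → Fin (4 + 1)) (x y z : Fin (3 + 1)) :
    re (![x, y, z] : Fin (2 + 1) → Fin (3 + 1)) (re v s) =
      re (![v x, v y, v z] : Fin (2 + 1) → Fin (4 + 1)) s := by
  rw [re_re]
  congr 1
  funext i
  fin_cases i <;> rfl

private theorem A4_coc (a : Zc M 2) (s : Sx M 4) (v : Fin (3 + 1) → Fin (4 + 1)) :
    (a : Co M 2) (re (![v 1, v 2, v 3] : Fin (2 + 1) → Fin (4 + 1)) s) -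
      (a : Co M 2) (re (![v 0, v 2, v 3] : Fin (2 + 1) → Fin (4 + 1)) s) +
      (a : Co M 2) (re (![v 0, v 1, v 3] : Fin (2 + 1) → Fin (4 + 1)) s) -
      (a : Co M 2) (re (![v 0, v 1, v 2] : Fin (2 + 1) → Fin (4 + 1)) s) = 0 := by
  have h : dl 2 (a : Co M 2) = 0 := a.2
  have h1 := congrFun h (re v s)
  rw [dl2, A4_face, A4_face, A4_face, A4_face] at h1
  exact h1

theorem lam_symm {μ : Sx M 4 →₀ ℤ} (hμ : ∀ b : Co M 3, ev μ (dl 3 b) = 0) (a b : Zc M 2) :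
    lam μ a b = lam μ b a := by
  have hg : cup (rfl : 2 + 2 = 4) (a : Co M 2) (b : Co M 2) - cup (rfl : 2 + 2 = 4) (b : Co M 2) (a : Co M 2) =
      dl 3 (fun s => (a : Co M 2) (re (![0, 1, 3] : Fin (2 + 1) → Fin (3 + 1)) s) *
        (b : Co M 2) (re (![1, 2, 3] : Fin (2 + 1) → Fin (3 + 1)) s) -
        (a : Co M 2) (re (![0, 2, 3] : Fin (2 + 1) → Fin (3 + 1)) s) *
        (b : Co M 2) (re (![0, 1, 2] : Fin (2 + 1) → Fin (3 + 1)) s)) := by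
    funext s
    rw [Pi.sub_apply, cup22, cup22, dl3]
    simp only [A4_face]
    obtain ⟨A, hA⟩ : ∃ A : Fin 5 → Fin 5 → Fin 5 → ℤ, ∀ i j k,
      (a : Co M 2) (re (![i, j, k] : Fin (2 + 1) → Fin (4 + 1)) s) = A i j k := ⟨_, fun _ _ _ => rfl⟩
    obtain ⟨B, hB⟩ : ∃ B : Fin 5 → Fin 5 → Fin 5 → ℤ, ∀ i j k,
      (b : Co M 2) (re (![i, j, k] : Fin (2 + 1) → Fin (4 + 1)) s) = B i j k := ⟨_, fun _ _ _ => rfl⟩
    have hAc : ∀ v : Fin (3 + 1) → Fin (4 + 1),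
        A (v 1) (v 2) (v 3) - A (v 0) (v 2) (v 3) + A (v 0) (v 1) (v 3) - A (v 0) (v 1) (v 2) = 0 := by
      intro v
      rw [← hA, ← hA, ← hA, ← hA]
      exact A4_coc a s v
    have hBc : ∀ v : Fin (3 + 1) → Fin (4 + 1),
        B (v 1) (v 2) (v 3) - B (v 0) (v 2) (v 3) + B (v 0) (v 1) (v 3) - B (v 0) (v 1) (v 2) = 0 := by
      intro v
      rw [← hB, ← hB, ← hB, ← hB]
      exact A4_coc b s v
    simp only [hA, hB]
    have Ra0124 : A 1 2 4 - A 0 2 4 + A 0 1 4 - A 0 1 2 = 0 := hAc ![0, 1, 2, 4]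
    have Ra0134 : A 1 3 4 - A 0 3 4 + A 0 1 4 - A 0 1 3 = 0 := hAc ![0, 1, 3, 4]
    have Ra0234 : A 2 3 4 - A 0 3 4 + A 0 2 4 - A 0 2 3 = 0 := hAc ![0, 2, 3, 4]
    have Rb0123 : B 1 2 3 - B 0 2 3 + B 0 1 3 - B 0 1 2 = 0 := hBc ![0, 1, 2, 3]
    have Rb0124 : B 1 2 4 - B 0 2 4 + B 0 1 4 - B 0 1 2 = 0 := hBc ![0, 1, 2, 4]
    have Rb0134 : B 1 3 4 - B 0 3 4 + B 0 1 4 - B 0 1 3 = 0 := hBc ![0, 1, 3, 4]
    have Rb0234 : B 2 3 4 - B 0 3 4 + B 0 2 4 - B 0 2 3 = 0 := hBc ![0, 2, 3, 4]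
    show A 0 1 2 * B 2 3 4 - B 0 1 2 * A 2 3 4 =
      (A 1 2 4 * B 2 3 4 - A 1 3 4 * B 1 2 3) - (A 0 2 4 * B 2 3 4 - A 0 3 4 * B 0 2 3) +
        (A 0 1 4 * B 1 3 4 - A 0 3 4 * B 0 1 3) - (A 0 1 4 * B 1 2 4 - A 0 2 4 * B 0 1 2) +
        (A 0 1 3 * B 1 2 3 - A 0 2 3 * B 0 1 2)
    linear_combination -(B 2 3 4) * Ra0124 + (B 1 2 3) * Ra0134 - (B 0 1 2) * Ra0234 -
      (A 0 1 4 - A 0 3 4) * Rb0123 + A 0 1 4 * Rb0124 - A 0 1 4 * Rb0134 + A 0 1 4 * Rb0234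
  have h1 : lam μ a b - lam μ b a = 0 := by
    unfold lam
    rw [← map_sub, hg]
    exact hμ _
  exact sub_eq_zero.1 h1

end

end Pool.Agent.LibGZ87
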