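import Pool.Agent.LibGZ87.A4

set_option autoImplicit false

/-!
[GZ87 A5] MEDIUM. The form on `H^2` modulo torsion. `lam_bd`: for a 2-cocycle `a` and a 1-cochain `c`: `a ∪ dl c = ± dl (a ∪ c)`: the 3-cochain `g s = a_012 * c_23`, `dl3`, cocycle relation of `a`: `ev μ (cup a (dl 1 c)) = 0`
(the other side by `lam_symm`-like computation or by `g s = c_01 * b_123`). So `lam μ a b = 0` if `b ∈ Tr M 2` (`m b = dl c`, `m * lam μ a b = 0`, `m ≠ 0`), and by `lam_symm` also on the left.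
`form`: define `B` by `Submodule.liftQ` twice (`lam` is bilinear: `cup` is bilinear, `ev` is linear). Last two items: `hM.dual 2 2`, `FH` is torsion free: `m • mk a = 0`, `m ≠ 0` gives `a ∈ Tr`.
-/

namespace Pool.Agent.LibGZ87

noncomputable section

open Finset

variable {M : Type} [TopologicalSpace M]

private theorem A5_cup_dl (a : Zc M 2) (c : Co M 1) : cup (rfl : 2 + 2 = 4) (a : Co M 2) (dl 1 c) =
    dl 3 (fun t : Sx M 3 => (a : Co M 2) (re (![0, 1, 2] : Fin (2 + 1) → Fin (3 + 1)) t) *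
      c (re (![2, 3] : Fin (1 + 1) → Fin (3 + 1)) t)) := by
  funext s
  have ha : dl 2 (a : Co M 2) = 0 := a.2
  have h1 := congrFun ha (re (![0, 1, 2, 3] : Fin (3 + 1) → Fin (4 + 1)) s)
  rw [dl2] at h1
  simp only [re_re, Pi.zero_apply] at h1
  rw [cup22, dl3, dl1]
  simp only [re_re]
  have e1 : (![0, 1, 2, 3] : Fin (3 + 1) → Fin (4 + 1)) ∘ (![1, 2, 3] : Fin (2 + 1) → Fin (3 + 1)) = ![1, 2, 3] := by decide
  have e2 : (![0, 1, 2, 3] : Fin (3 + 1) → Fin (4 + 1)) ∘ (![0, 2, 3] : Fin (2 + 1) → Fin (3 + 1)) = ![0, 2, 3] := by decide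
  have e3 : (![0, 1, 2, 3] : Fin (3 + 1) → Fin (4 + 1)) ∘ (![0, 1, 3] : Fin (2 + 1) → Fin (3 + 1)) = ![0, 1, 3] := by decide
  have e4 : (![0, 1, 2, 3] : Fin (3 + 1) → Fin (4 + 1)) ∘ (![0, 1, 2] : Fin (2 + 1) → Fin (3 + 1)) = ![0, 1, 2] := by decide
  have f1 : (![1, 2, 3, 4] : Fin (3 + 1) → Fin (4 + 1)) ∘ (![0, 1, 2] : Fin (2 + 1) → Fin (3 + 1)) = ![1, 2, 3] := by decide
  have f2 : (![0, 2, 3, 4] : Fin (3 + 1) → Fin (4 + 1)) ∘ (![0, 1, 2] : Fin (2 + 1) → Fin (3 + 1)) = ![0, 2, 3] := by decide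
  have f3 : (![0, 1, 3, 4] : Fin (3 + 1) → Fin (4 + 1)) ∘ (![0, 1, 2] : Fin (2 + 1) → Fin (3 + 1)) = ![0, 1, 3] := by decide
  have f4 : (![0, 1, 2, 4] : Fin (3 + 1) → Fin (4 + 1)) ∘ (![0, 1, 2] : Fin (2 + 1) → Fin (3 + 1)) = ![0, 1, 2] := by decide
  have g1 : (![1, 2, 3, 4] : Fin (3 + 1) → Fin (4 + 1)) ∘ (![2, 3] : Fin (1 + 1) → Fin (3 + 1)) = ![3, 4] := by decide
  have g2 : (![0, 2, 3, 4] : Fin (3 + 1) → Fin (4 + 1)) ∘ (![2, 3] : Fin (1 + 1) → Fin (3 + 1)) = ![3, 4] := by decide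
  have g3 : (![0, 1, 3, 4] : Fin (3 + 1) → Fin (4 + 1)) ∘ (![2, 3] : Fin (1 + 1) → Fin (3 + 1)) = ![3, 4] := by decide
  have g4 : (![0, 1, 2, 4] : Fin (3 + 1) → Fin (4 + 1)) ∘ (![2, 3] : Fin (1 + 1) → Fin (3 + 1)) = ![2, 4] := by decide
  have g5 : (![0, 1, 2, 3] : Fin (3 + 1) → Fin (4 + 1)) ∘ (![2, 3] : Fin (1 + 1) → Fin (3 + 1)) = ![2, 3] := by decide
  have k1 : (![2, 3, 4] : Fin (2 + 1) → Fin (4 + 1)) ∘ (![1, 2] : Fin (1 + 1) → Fin (2 + 1)) = ![3, 4] := by decide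
  have k2 : (![2, 3, 4] : Fin (2 + 1) → Fin (4 + 1)) ∘ (![0, 2] : Fin (1 + 1) → Fin (2 + 1)) = ![2, 4] := by decide
  have k3 : (![2, 3, 4] : Fin (2 + 1) → Fin (4 + 1)) ∘ (![0, 1] : Fin (1 + 1) → Fin (2 + 1)) = ![2, 3] := by decide
  rw [e1, e2, e3, e4] at h1
  rw [f1, f2, f3, f4, e4, g1, g2, g3, g4, g5, k1, k2, k3]
  linear_combination (-(c (re (![3, 4] : Fin (1 + 1) → Fin (4 + 1)) s))) * h1

private theorem A5_cup_add_right (a b c : Co M 2) : cup (rfl : 2 + 2 = 4) a (b + c) =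
    cup (rfl : 2 + 2 = 4) a b + cup (rfl : 2 + 2 = 4) a c := by
  funext s
  simp only [cup, Pi.add_apply]
  ring

private theorem A5_cup_smul_right (m : ℤ) (a b : Co M 2) : cup (rfl : 2 + 2 = 4) a (m • b) =
    m • cup (rfl : 2 + 2 = 4) a b := by
  funext s
  simp only [cup, Pi.smul_apply, smul_eq_mul]
  ring

private theorem A5_cup_add_left (a b c : Co M 2) : cup (rfl : 2 + 2 = 4) (a + b) c =
    cup (rfl : 2 + 2 = 4) a c + cup (rfl : 2 + 2 = 4) b c := by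
  funext s
  simp only [cup, Pi.add_apply]
  ring

private theorem A5_cup_smul_left (m : ℤ) (a b : Co M 2) : cup (rfl : 2 + 2 = 4) (m • a) b =
    m • cup (rfl : 2 + 2 = 4) a b := by
  funext s
  simp only [cup, Pi.smul_apply, smul_eq_mul]
  ring

theorem lam_tor {μ : Sx M 4 →₀ ℤ} (hμ : ∀ b : Co M 3, ev μ (dl 3 b) = 0) (a b : Zc M 2) (hb : b ∈ Tr M 2) :
    lam μ a b = 0 := by
  obtain ⟨m, hm, c, hc⟩ := hb
  have h1 : m * lam μ a b = 0 := by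
    have h2 : m * lam μ a b = ev μ (cup (rfl : 2 + 2 = 4) (a : Co M 2) (m • (b : Co M 2))) := by
      rw [A5_cup_smul_right, map_smul, smul_eq_mul]
      rfl
    rw [h2, ← hc, A5_cup_dl, hμ]
  exact (mul_eq_zero.mp h1).resolve_left hm

theorem form {μ : Sx M 4 →₀ ℤ} (hM : PD4 μ) : ∃ B : FH M 2 →ₗ[ℤ] FH M 2 →ₗ[ℤ] ℤ,
    (∀ a b : Zc M 2, B (Submodule.Quotient.mk a) (Submodule.Quotient.mk b) = lam μ a b) ∧
      (∀ a b, B a b = B b a) ∧ ∀ φ : FH M 2 →ₗ[ℤ] ℤ, ∃ b, ∀ a, φ a = B a b := by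
  let L : Zc M 2 →ₗ[ℤ] Zc M 2 →ₗ[ℤ] ℤ := LinearMap.mk₂ ℤ (lam μ)
    (fun a b c => by
      change ev μ (cup _ ((a + b : Zc M 2) : Co M 2) (c : Co M 2)) = _
      rw [Submodule.coe_add, A5_cup_add_left, map_add]
      rfl)
    (fun m a b => by
      change ev μ (cup _ ((m • a : Zc M 2) : Co M 2) (b : Co M 2)) = _
      rw [Submodule.coe_smul, A5_cup_smul_left, map_smul]
      rfl)
    (fun a b c => by
      change ev μ (cup _ (a : Co M 2) ((b + c : Zc M 2) : Co M 2)) = _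
      rw [Submodule.coe_add, A5_cup_add_right, map_add]
      rfl)
    (fun m a b => by
      change ev μ (cup _ (a : Co M 2) ((m • b : Zc M 2) : Co M 2)) = _
      rw [Submodule.coe_smul, A5_cup_smul_right, map_smul]
      rfl)
  have hL : ∀ a b, L a b = lam μ a b := fun a b => rfl
  have hk : Tr M 2 ≤ LinearMap.ker L := by
    intro t ht
    rw [LinearMap.mem_ker]
    ext b
    rw [hL, lam_symm hM.cyc, lam_tor hM.cyc b t ht]
    rfl
  let L1 : FH M 2 →ₗ[ℤ] Zc M 2 →ₗ[ℤ] ℤ := Submodule.liftQ (Tr M 2) L hk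
  have hk1 : Tr M 2 ≤ LinearMap.ker L1.flip := by
    intro t ht
    rw [LinearMap.mem_ker]
    ext a
    change lam μ a t = 0
    exact lam_tor hM.cyc a t ht
  let L2 : FH M 2 →ₗ[ℤ] FH M 2 →ₗ[ℤ] ℤ := Submodule.liftQ (Tr M 2) L1.flip hk1
  have hB : ∀ a b : Zc M 2, L2.flip (Submodule.Quotient.mk a) (Submodule.Quotient.mk b) = lam μ a b :=
    fun a b => rfl
  refine ⟨L2.flip, hB, ?_, ?_⟩
  · intro a b
    obtain ⟨a, rfl⟩ := Submodule.Quotient.mk_surjective _ a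
    obtain ⟨b, rfl⟩ := Submodule.Quotient.mk_surjective _ b
    rw [hB, hB]
    exact lam_symm hM.cyc a b
  · intro φ
    obtain ⟨b, hb⟩ := hM.dual 2 2 rfl φ
    refine ⟨Submodule.Quotient.mk b, fun a => ?_⟩
    obtain ⟨a, rfl⟩ := Submodule.Quotient.mk_surjective _ a
    rw [hB]
    exact hb a

/-- `H^n` modulo torsion is torsion free -/
theorem FH_tf (n : ℕ) (m : ℤ) (hm : m ≠ 0) (x : FH M n) (h : m • x = 0) : x = 0 := by
  obtain ⟨a, rfl⟩ := Submodule.Quotient.mk_surjective _ x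
  rw [← Submodule.Quotient.mk_smul, Submodule.Quotient.mk_eq_zero] at h
  obtain ⟨l, hl, h2⟩ := h
  rw [Submodule.Quotient.mk_eq_zero]
  refine ⟨l * m, mul_ne_zero hl hm, ?_⟩
  rw [mul_smul]
  exact h2

end

end Pool.Agent.LibGZ87
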