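import Pool.Agent.LibGZ87.A5

set_option autoImplicit false

/-!
[GZ87 A6] MEDIUM. Betti numbers. `rank_eq`: `FH M q → Hom(FH M p, Z)`, `b ↦ (a ↦ ev μ (cup h a b))`: by `hM.dual p q` every `φ : FH M p →ₗ ℤ` is represented by some `b : Zc M q`, whose class in `FH M q` is unique by `hM.nondeg p q`
(linearity of `cup` and `ev`), so one gets a linear map `Hom(FH M p, Z) → FH M q` which is injective (`b` determines `φ`); hence `finrank FH p = finrank Hom(FH p, Z) ≤ finrank FH q` (`FH` finitely generated, torsion free (`FH_tf`), so free;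
`Module.finrank_linearMap`/`Subspace.dual_finrank_eq`-type lemma, `LinearMap.finrank_le_finrank_of_injective` needs finite generation of the target: `hM.fin`). By symmetry (`q + p = 4`) equality.
`rank0`: `M` path connected: `dl 0 g = 0` iff `g` is constant (`dl0` and the 1-simplex of a path; every 0-simplex is determined by its value: `re ![0] (sx γ)`, `re ![1] (sx γ)` are the 0-simplices at the end points), so `Zc M 0 ≅ ℤ`, `Bc M 0 = ⊥`, `Tr M 0 = ⊥`
(`ℤ` is torsion free). A 0-simplex is a map from the one point space `stdSimplex ℝ (Fin 1)`.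
(The injectivity needs that torsion classes pair to zero, `A6_tor` below: `a ∪ dl c = ± dl (a ∪ c)` for a cocycle `a`.)
-/

namespace Pool.Agent.LibGZ87

noncomputable section

open Finset

variable {M : Type} [TopologicalSpace M]

private theorem A6_cup {p q n : ℕ} (h : p + q = n) (a : Co M p) (b : Co M q) (s : Sx M n)
    (F : Fin (p + 1) → Fin (n + 1)) (G : Fin (q + 1) → Fin (n + 1)) (hF : ∀ i, (F i : ℕ) = i)
    (hG : ∀ i, (G i : ℕ) = p + i) : cup h a b s = a (re F s) * b (re G s) := by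
  have h1 : F = fun i : Fin (p + 1) => (⟨(i : ℕ), by omega⟩ : Fin (n + 1)) := by
    funext i
    exact Fin.ext (hF i)
  have h2 : G = fun i : Fin (q + 1) => (⟨p + (i : ℕ), by omega⟩ : Fin (n + 1)) := by
    funext i
    exact Fin.ext (hG i)
  rw [h1, h2]
  rfl

private theorem A6_re {l m n : ℕ} (f : Fin (l + 1) → Fin (m + 1)) (g : Fin (m + 1) → Fin (n + 1))
    (k : Fin (l + 1) → Fin (n + 1)) (s : Sx M n) (h : ∀ i, g (f i) = k i) : re f (re g s) = re k s := by
  rw [re_re]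
  congr 1
  funext i
  exact h i

private theorem A6_l0 {μ : Sx M 4 →₀ ℤ} (hμ : ∀ b : Co M 3, ev μ (dl 3 b) = 0) (h : 0 + 4 = 4)
    {a : Co M 0} (ha : dl 0 a = 0) (c : Co M 3) : ev μ (cup h a (dl 3 c)) = 0 := by
  have h1 : cup h a (dl 3 c) = dl 3 (fun t => a (re (![0] : Fin (0 + 1) → Fin (3 + 1)) t) * c t) := by
    funext s
    rw [A6_cup h a (dl 3 c) s ![0] ![0, 1, 2, 3, 4] (by decide) (by decide), dl3, dl3]
    have h2 := congrFun ha (re (![0, 1] : Fin (1 + 1) → Fin (4 + 1)) s)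
    rw [dl0, A6_re _ _ (![1] : Fin (0 + 1) → Fin (4 + 1)) s (by decide),
      A6_re _ _ (![0] : Fin (0 + 1) → Fin (4 + 1)) s (by decide)] at h2
    rw [A6_re _ _ (![1, 2, 3, 4] : Fin (3 + 1) → Fin (4 + 1)) s (by decide),
      A6_re _ _ (![0, 2, 3, 4] : Fin (3 + 1) → Fin (4 + 1)) s (by decide),
      A6_re _ _ (![0, 1, 3, 4] : Fin (3 + 1) → Fin (4 + 1)) s (by decide),
      A6_re _ _ (![0, 1, 2, 4] : Fin (3 + 1) → Fin (4 + 1)) s (by decide),
      A6_re _ _ (![0, 1, 2, 3] : Fin (3 + 1) → Fin (4 + 1)) s (by decide),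
      A6_re _ _ (![1] : Fin (0 + 1) → Fin (4 + 1)) s (by decide),
      A6_re _ _ (![0] : Fin (0 + 1) → Fin (4 + 1)) s (by decide),
      A6_re _ _ (![0] : Fin (0 + 1) → Fin (4 + 1)) s (by decide),
      A6_re _ _ (![0] : Fin (0 + 1) → Fin (4 + 1)) s (by decide),
      A6_re _ _ (![0] : Fin (0 + 1) → Fin (4 + 1)) s (by decide)]
    have h3 : (0 : Co M (0 + 1)) (re (![0, 1] : Fin (1 + 1) → Fin (4 + 1)) s) = 0 := rfl
    rw [h3] at h2
    linear_combination (-c (re (![1, 2, 3, 4] : Fin (3 + 1) → Fin (4 + 1)) s)) * h2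
  rw [h1]
  exact hμ _

private theorem A6_l1 {μ : Sx M 4 →₀ ℤ} (hμ : ∀ b : Co M 3, ev μ (dl 3 b) = 0) (h : 1 + 3 = 4)
    {a : Co M 1} (ha : dl 1 a = 0) (c : Co M 2) : ev μ (cup h a (dl 2 c)) = 0 := by
  have h1 : cup h a (dl 2 c) = dl 3 (fun t => - (a (re (![0, 1] : Fin (1 + 1) → Fin (3 + 1)) t) *
      c (re (![1, 2, 3] : Fin (2 + 1) → Fin (3 + 1)) t))) := by
    funext s
    rw [A6_cup h a (dl 2 c) s ![0, 1] ![1, 2, 3, 4] (by decide) (by decide), dl2, dl3]
    have h2 := congrFun ha (re (![0, 1, 2] : Fin (2 + 1) → Fin (4 + 1)) s)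
    rw [dl1, A6_re _ _ (![1, 2] : Fin (1 + 1) → Fin (4 + 1)) s (by decide),
      A6_re _ _ (![0, 2] : Fin (1 + 1) → Fin (4 + 1)) s (by decide),
      A6_re _ _ (![0, 1] : Fin (1 + 1) → Fin (4 + 1)) s (by decide)] at h2
    have h3 : (0 : Co M (1 + 1)) (re (![0, 1, 2] : Fin (2 + 1) → Fin (4 + 1)) s) = 0 := rfl
    rw [h3] at h2
    rw [A6_re _ _ (![2, 3, 4] : Fin (2 + 1) → Fin (4 + 1)) s (by decide),
      A6_re _ _ (![1, 3, 4] : Fin (2 + 1) → Fin (4 + 1)) s (by decide),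
      A6_re _ _ (![1, 2, 4] : Fin (2 + 1) → Fin (4 + 1)) s (by decide),
      A6_re _ _ (![1, 2, 3] : Fin (2 + 1) → Fin (4 + 1)) s (by decide),
      A6_re _ _ (![1, 2] : Fin (1 + 1) → Fin (4 + 1)) s (by decide),
      A6_re _ _ (![0, 2] : Fin (1 + 1) → Fin (4 + 1)) s (by decide),
      A6_re _ _ (![2, 3, 4] : Fin (2 + 1) → Fin (4 + 1)) s (by decide),
      A6_re _ _ (![0, 1] : Fin (1 + 1) → Fin (4 + 1)) s (by decide),
      A6_re _ _ (![1, 3, 4] : Fin (2 + 1) → Fin (4 + 1)) s (by decide),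
      A6_re _ _ (![0, 1] : Fin (1 + 1) → Fin (4 + 1)) s (by decide),
      A6_re _ _ (![1, 2, 4] : Fin (2 + 1) → Fin (4 + 1)) s (by decide),
      A6_re _ _ (![0, 1] : Fin (1 + 1) → Fin (4 + 1)) s (by decide),
      A6_re _ _ (![1, 2, 3] : Fin (2 + 1) → Fin (4 + 1)) s (by decide)]
    linear_combination (c (re (![2, 3, 4] : Fin (2 + 1) → Fin (4 + 1)) s)) * h2
  rw [h1]
  exact hμ _

private theorem A6_l2 {μ : Sx M 4 →₀ ℤ} (hμ : ∀ b : Co M 3, ev μ (dl 3 b) = 0) (h : 2 + 2 = 4)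
    {a : Co M 2} (ha : dl 2 a = 0) (c : Co M 1) : ev μ (cup h a (dl 1 c)) = 0 := by
  have h1 : cup h a (dl 1 c) = dl 3 (fun t => a (re (![0, 1, 2] : Fin (2 + 1) → Fin (3 + 1)) t) *
      c (re (![2, 3] : Fin (1 + 1) → Fin (3 + 1)) t)) := by
    funext s
    rw [A6_cup h a (dl 1 c) s ![0, 1, 2] ![2, 3, 4] (by decide) (by decide), dl1, dl3]
    have h2 := congrFun ha (re (![0, 1, 2, 3] : Fin (3 + 1) → Fin (4 + 1)) s)
    rw [dl2, A6_re _ _ (![1, 2, 3] : Fin (2 + 1) → Fin (4 + 1)) s (by decide),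
      A6_re _ _ (![0, 2, 3] : Fin (2 + 1) → Fin (4 + 1)) s (by decide),
      A6_re _ _ (![0, 1, 3] : Fin (2 + 1) → Fin (4 + 1)) s (by decide),
      A6_re _ _ (![0, 1, 2] : Fin (2 + 1) → Fin (4 + 1)) s (by decide)] at h2
    have h3 : (0 : Co M (2 + 1)) (re (![0, 1, 2, 3] : Fin (3 + 1) → Fin (4 + 1)) s) = 0 := rfl
    rw [h3] at h2
    rw [A6_re _ _ (![3, 4] : Fin (1 + 1) → Fin (4 + 1)) s (by decide),
      A6_re _ _ (![2, 4] : Fin (1 + 1) → Fin (4 + 1)) s (by decide),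
      A6_re _ _ (![2, 3] : Fin (1 + 1) → Fin (4 + 1)) s (by decide),
      A6_re _ _ (![1, 2, 3] : Fin (2 + 1) → Fin (4 + 1)) s (by decide),
      A6_re _ _ (![3, 4] : Fin (1 + 1) → Fin (4 + 1)) s (by decide),
      A6_re _ _ (![0, 2, 3] : Fin (2 + 1) → Fin (4 + 1)) s (by decide),
      A6_re _ _ (![3, 4] : Fin (1 + 1) → Fin (4 + 1)) s (by decide),
      A6_re _ _ (![0, 1, 3] : Fin (2 + 1) → Fin (4 + 1)) s (by decide),
      A6_re _ _ (![3, 4] : Fin (1 + 1) → Fin (4 + 1)) s (by decide),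
      A6_re _ _ (![0, 1, 2] : Fin (2 + 1) → Fin (4 + 1)) s (by decide),
      A6_re _ _ (![2, 4] : Fin (1 + 1) → Fin (4 + 1)) s (by decide),
      A6_re _ _ (![0, 1, 2] : Fin (2 + 1) → Fin (4 + 1)) s (by decide),
      A6_re _ _ (![2, 3] : Fin (1 + 1) → Fin (4 + 1)) s (by decide)]
    linear_combination (-c (re (![3, 4] : Fin (1 + 1) → Fin (4 + 1)) s)) * h2
  rw [h1]
  exact hμ _

private theorem A6_l3 {μ : Sx M 4 →₀ ℤ} (hμ : ∀ b : Co M 3, ev μ (dl 3 b) = 0) (h : 3 + 1 = 4)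
    {a : Co M 3} (ha : dl 3 a = 0) (c : Co M 0) : ev μ (cup h a (dl 0 c)) = 0 := by
  have h1 : cup h a (dl 0 c) = dl 3 (fun t => - (a t * c (re (![3] : Fin (0 + 1) → Fin (3 + 1)) t))) := by
    funext s
    rw [A6_cup h a (dl 0 c) s ![0, 1, 2, 3] ![3, 4] (by decide) (by decide), dl0, dl3]
    have h2 := congrFun ha s
    rw [dl3] at h2
    have h3 : (0 : Co M (3 + 1)) s = 0 := rfl
    rw [h3] at h2
    rw [A6_re _ _ (![4] : Fin (0 + 1) → Fin (4 + 1)) s (by decide),
      A6_re _ _ (![3] : Fin (0 + 1) → Fin (4 + 1)) s (by decide),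
      A6_re _ _ (![4] : Fin (0 + 1) → Fin (4 + 1)) s (by decide),
      A6_re _ _ (![4] : Fin (0 + 1) → Fin (4 + 1)) s (by decide),
      A6_re _ _ (![4] : Fin (0 + 1) → Fin (4 + 1)) s (by decide),
      A6_re _ _ (![4] : Fin (0 + 1) → Fin (4 + 1)) s (by decide),
      A6_re _ _ (![3] : Fin (0 + 1) → Fin (4 + 1)) s (by decide)]
    linear_combination (c (re (![4] : Fin (0 + 1) → Fin (4 + 1)) s)) * h2
  rw [h1]
  exact hμ _

private theorem A6_smul {p q n : ℕ} (h : p + q = n) (a : Co M p) (b : Co M q) (m : ℤ) :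
    cup h a (m • b) = m • cup h a b := by
  funext s
  simp only [cup, Pi.smul_apply, smul_eq_mul]
  ring

private theorem A6_add {p q n : ℕ} (h : p + q = n) (a : Co M p) (b b' : Co M q) :
    cup h a (b + b') = cup h a b + cup h a b' := by
  funext s
  simp only [cup, Pi.add_apply]
  ring

private theorem A6_bd {μ : Sx M 4 →₀ ℤ} (hμ : ∀ b : Co M 3, ev μ (dl 3 b) = 0) (p q : ℕ) (h : p + q = 4)
    (a : Zc M p) (b : Co M q) (hb : b ∈ Bc M q) : ev μ (cup h (a : Co M p) b) = 0 := by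
  have hp : p ≤ 4 := by omega
  have ha : dl p (a : Co M p) = 0 := a.2
  interval_cases p
  · obtain rfl : q = 4 := by omega
    obtain ⟨c, rfl⟩ := hb
    exact A6_l0 hμ h ha c
  · obtain rfl : q = 3 := by omega
    obtain ⟨c, rfl⟩ := hb
    exact A6_l1 hμ h ha c
  · obtain rfl : q = 2 := by omega
    obtain ⟨c, rfl⟩ := hb
    exact A6_l2 hμ h ha c
  · obtain rfl : q = 1 := by omega
    obtain ⟨c, rfl⟩ := hb
    exact A6_l3 hμ h ha c
  · obtain rfl : q = 0 := by omega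
    have h1 : b = 0 := (Submodule.mem_bot ℤ).1 hb
    have h2 := A6_smul h (a : Co M 4) b 0
    rw [h1, smul_zero, zero_smul] at h2
    rw [h1, h2, map_zero]

private theorem A6_tor {μ : Sx M 4 →₀ ℤ} (hμ : ∀ b : Co M 3, ev μ (dl 3 b) = 0) (p q : ℕ) (h : p + q = 4)
    (a : Zc M p) (b : Zc M q) (hb : b ∈ Tr M q) : ev μ (cup h (a : Co M p) (b : Co M q)) = 0 := by
  obtain ⟨m, hm, h1⟩ := hb
  have h2 := A6_bd hμ p q h a _ h1
  rw [A6_smul, map_smul, smul_eq_mul] at h2
  rcases mul_eq_zero.1 h2 with h3 | h3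
  · exact absurd h3 hm
  · exact h3

private theorem A6_le {μ : Sx M 4 →₀ ℤ} (hM : PD4 μ) (p q : ℕ) (h : p + q = 4) :
    Module.finrank ℤ (FH M p) ≤ Module.finrank ℤ (FH M q) := by
  have hfp := hM.fin p
  have hfq := hM.fin q
  have htf : ∀ n, Module.IsTorsionFree ℤ (FH M n) := fun n => ⟨fun r hr x y hxy => by
    have h1 : r • (x - y) = 0 := by
      rw [smul_sub, sub_eq_zero]
      exact hxy
    exact sub_eq_zero.1 (FH_tf n r hr.ne_zero _ h1)⟩
  have hfree : Module.Free ℤ (FH M p) := by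
    have := htf p
    infer_instance
  choose β hβ using hM.dual p q h
  have huniq : ∀ (b b' : Zc M q), (∀ a : Zc M p, ev μ (cup h (a : Co M p) (b : Co M q)) =
      ev μ (cup h (a : Co M p) (b' : Co M q))) →
      (Submodule.Quotient.mk b : FH M q) = Submodule.Quotient.mk b' := by
    intro b b' hbb
    rw [Submodule.Quotient.eq]
    apply hM.nondeg p q h
    intro a
    have h1 : (((b - b' : Zc M q) : Co M q)) = (b : Co M q) + (-1 : ℤ) • (b' : Co M q) := by
      rw [Submodule.coe_sub, neg_smul, one_smul, sub_eq_add_neg]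
    rw [h1, A6_add, A6_smul, map_add, map_smul, hbb a, smul_eq_mul]
    ring
  let Φ : (FH M p →ₗ[ℤ] ℤ) →ₗ[ℤ] FH M q :=
    { toFun := fun φ => Submodule.Quotient.mk (β φ)
      map_add' := fun φ ψ => by
        rw [← Submodule.Quotient.mk_add]
        apply huniq
        intro a
        rw [← hβ, Submodule.coe_add, A6_add, map_add, ← hβ, ← hβ]
        rfl
      map_smul' := fun m φ => by
        rw [RingHom.id_apply, ← Submodule.Quotient.mk_smul]
        apply huniq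
        intro a
        rw [← hβ, Submodule.coe_smul, A6_smul, map_smul, ← hβ]
        rfl }
  have hinj : Function.Injective Φ := by
    rw [← LinearMap.ker_eq_bot, LinearMap.ker_eq_bot']
    intro φ hφ
    have h1 : (Submodule.Quotient.mk (β φ) : FH M q) = 0 := hφ
    rw [Submodule.Quotient.mk_eq_zero] at h1
    apply LinearMap.ext
    intro x
    obtain ⟨a, rfl⟩ := Submodule.Quotient.mk_surjective _ x
    rw [hβ, A6_tor hM.cyc p q h a _ h1]
    rfl
  have h1 := LinearMap.finrank_le_finrank_of_injective hinj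
  have h2 : Module.finrank ℤ (FH M p →ₗ[ℤ] ℤ) = Module.finrank ℤ (FH M p) := by
    rw [Module.finrank_linearMap, Module.finrank_self, mul_one]
  rw [h2] at h1
  exact h1

theorem rank_eq {μ : Sx M 4 →₀ ℤ} (hM : PD4 μ) (p q : ℕ) (h : p + q = 4) :
    Module.finrank ℤ (FH M p) = Module.finrank ℤ (FH M q) :=
  le_antisymm (A6_le hM p q h) (A6_le hM q p (by omega))

private theorem A6_pt (σ : Sx M 0) (t : stdSimplex ℝ (Fin (0 + 1))) : σ t = σ (stdSimplex.vertex 0) := by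
  congr 1
  exact Subsingleton.elim _ _

private theorem A6_ext (σ τ : Sx M 0) (h : σ (stdSimplex.vertex 0) = τ (stdSimplex.vertex 0)) : σ = τ := by
  ext t
  rw [A6_pt σ, A6_pt τ, h]

private theorem A6_face {x y : M} (γ : Path x y) (i : Fin (1 + 1)) :
    (re (![i] : Fin (0 + 1) → Fin (1 + 1)) (sx γ)) (stdSimplex.vertex 0) =
      γ.extend ((Pi.single i (1 : ℝ) : Fin (1 + 1) → ℝ) 1) := by
  show sx γ (stdSimplex.map _ (stdSimplex.vertex 0)) = _
  rw [stdSimplex.map_vertex]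
  rfl

private theorem A6_const [PathConnectedSpace M] {a : Co M 0} (ha : dl 0 a = 0) (σ τ : Sx M 0) :
    a σ = a τ := by
  let γ := PathConnectedSpace.somePath (σ (stdSimplex.vertex 0)) (τ (stdSimplex.vertex 0))
  have h1 := congrFun ha (sx γ)
  rw [dl0] at h1
  have h2 : re (![0] : Fin (0 + 1) → Fin (1 + 1)) (sx γ) = σ := by
    apply A6_ext
    rw [A6_face]
    have h3 : (Pi.single (0 : Fin (1 + 1)) (1 : ℝ) : Fin (1 + 1) → ℝ) 1 = 0 := by
      rw [Pi.single_eq_of_ne]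
      decide
    rw [h3, Path.extend_zero]
  have h4 : re (![1] : Fin (0 + 1) → Fin (1 + 1)) (sx γ) = τ := by
    apply A6_ext
    rw [A6_face, Pi.single_eq_same, Path.extend_one]
  rw [h2, h4] at h1
  have h5 : (0 : Co M (0 + 1)) (sx γ) = 0 := rfl
  rw [h5] at h1
  linarith

theorem rank0 [PathConnectedSpace M] : Module.finrank ℤ (FH M 0) = 1 := by
  obtain ⟨x⟩ : Nonempty M := PathConnectedSpace.nonempty
  let σ : Sx M 0 := ContinuousMap.const _ x
  have htr : Tr M 0 = ⊥ := by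
    rw [eq_bot_iff]
    rintro a ⟨m, hm, h⟩
    rw [Submodule.mem_bot]
    have h1 : m • (a : Co M 0) = 0 := (Submodule.mem_bot ℤ).1 h
    apply Subtype.ext
    funext s
    have h2 := congrFun h1 s
    rw [Pi.smul_apply, smul_eq_mul] at h2
    rcases mul_eq_zero.1 h2 with h3 | h3
    · exact absurd h3 hm
    · exact h3
  let e : Zc M 0 ≃ₗ[ℤ] ℤ :=
    { toFun := fun a => (a : Co M 0) σ
      map_add' := fun _ _ => rfl
      map_smul' := fun _ _ => rfl
      invFun := fun c => ⟨fun _ => c, by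
        show dl 0 (fun _ => c) = 0
        funext s
        rw [dl0]
        exact sub_self c⟩
      left_inv := fun a => by
        apply Subtype.ext
        funext s
        exact A6_const a.2 σ s
      right_inv := fun _ => rfl }
  rw [(Submodule.quotEquivOfEqBot (Tr M 0) htr).finrank_eq, e.finrank_eq, Module.finrank_self]

end

end Pool.Agent.LibGZ87
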