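import Pool.Agent.LibGZ87.A1

set_option autoImplicit false

/-!
[GZ87 B1] MEDIUM. Paths and simplices. A point `t` of `stdSimplex ℝ (Fin 3)` has coordinates `t 0, t 1, t 2 ≥ 0` with sum 1. `stdSimplex.map ![i, j]` sends `(t 0, t 1)` to the point with `i`-th coordinate `t 0` and `j`-th coordinate `t 1` (if `i ≠ j`).
`tri`: `s t = (γ.trans γ').extend (t 2 + t 1 / 2)`: on the edge `01` (`t 2 = 0`) it is `(γ.trans γ') (t 1 / 2) = γ (t 1)`; on the edge `12` (`t 0 = 0`, `t 1 + t 2 = 1`): `t 2 + t 1 / 2 = (1 + t 2) / 2`: `γ' (t 2)`; on `02`: `(γ.trans γ') (t 2)`.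
`homotopy`: `H : γ ~ γ'` (`Path.Homotopy`, `H (u, v)`, `u` the homotopy parameter, `v` the path parameter). The square `[0,1]²` in the coordinates `(u, v)` is the union of two triangles with the common diagonal `(0,0)-(1,1)`:
`s₁` with the vertices `(0,0), (0,1), (1,1)`: `s₁ t = H (t 2, t 1 + t 2)`: edge `01`: `H (0, t 1) = γ`, edge `12`: `H (t 2, 1) = y` constant, edge `02`: the diagonal; `s₂` with the vertices `(0,0), (1,0), (1,1)`: `s₂ t = H (t 1 + t 2, t 2)`: edge `01`: `H (t 1, 0) = x` constant,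
edge `12`: `H (1, t 2) = γ'`, edge `02`: the diagonal. (Clamp the parameters to `[0, 1]` with `Set.projIcc` or subtype proofs.)
`of_simplex`: every 1-simplex is `sx γ` with `γ v = s (1 - v, v)`.
-/

namespace Pool.Agent.LibGZ87

noncomputable section

open Finset

variable {M : Type} [TopologicalSpace M]

private theorem B1_c01 (t : stdSimplex ℝ (Fin (1 + 1))) :
    (stdSimplex.map (![0, 1] : Fin (1 + 1) → Fin (2 + 1)) t).1 = ![t.1 0, t.1 1, 0] := by
  funext k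
  show FunOnFinite.linearMap ℝ ℝ (![0, 1] : Fin (1 + 1) → Fin (2 + 1)) t.1 k = _
  rw [FunOnFinite.linearMap_apply_apply, Finset.sum_filter, Fin.sum_univ_two]
  fin_cases k <;> simp

private theorem B1_c12 (t : stdSimplex ℝ (Fin (1 + 1))) :
    (stdSimplex.map (![1, 2] : Fin (1 + 1) → Fin (2 + 1)) t).1 = ![0, t.1 0, t.1 1] := by
  funext k
  show FunOnFinite.linearMap ℝ ℝ (![1, 2] : Fin (1 + 1) → Fin (2 + 1)) t.1 k = _
  rw [FunOnFinite.linearMap_apply_apply, Finset.sum_filter, Fin.sum_univ_two]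
  fin_cases k <;> simp

private theorem B1_c02 (t : stdSimplex ℝ (Fin (1 + 1))) :
    (stdSimplex.map (![0, 2] : Fin (1 + 1) → Fin (2 + 1)) t).1 = ![t.1 0, 0, t.1 1] := by
  funext k
  show FunOnFinite.linearMap ℝ ℝ (![0, 2] : Fin (1 + 1) → Fin (2 + 1)) t.1 k = _
  rw [FunOnFinite.linearMap_apply_apply, Finset.sum_filter, Fin.sum_univ_two]
  fin_cases k <;> simp

private theorem B1_mem (t : stdSimplex ℝ (Fin (1 + 1))) :
    t.1 0 + t.1 1 = 1 ∧ 0 ≤ t.1 1 ∧ t.1 1 ≤ 1 := by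
  have h1 := t.2.2
  rw [Fin.sum_univ_two] at h1
  have h2 := t.2.1 0
  have h3 := t.2.1 1
  exact ⟨h1, h3, by linarith⟩

private theorem B1_mkc (F : ℝ → ℝ → M) (hF : Continuous fun p : ℝ × ℝ => F p.1 p.2) :
    Continuous fun t : stdSimplex ℝ (Fin (2 + 1)) => F (t.1 1) (t.1 2) := by
  have h : Continuous fun t : stdSimplex ℝ (Fin (2 + 1)) => ((t.1 1, t.1 2) : ℝ × ℝ) :=
    ((continuous_apply 1).comp continuous_subtype_val).prodMk
      ((continuous_apply 2).comp continuous_subtype_val)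
  exact hF.comp h

/-- a 2-simplex from a function of the coordinates 1 and 2 -/
private def B1_mk (F : ℝ → ℝ → M) (hF : Continuous fun p : ℝ × ℝ => F p.1 p.2) : Sx M 2 :=
  ⟨fun t => F (t.1 1) (t.1 2), B1_mkc F hF⟩

private theorem B1_r01 (F : ℝ → ℝ → M) (hF : Continuous fun p : ℝ × ℝ => F p.1 p.2)
    (t : stdSimplex ℝ (Fin (1 + 1))) :
    re (![0, 1] : Fin (1 + 1) → Fin (2 + 1)) (B1_mk F hF) t = F (t.1 1) 0 := by
  show F ((stdSimplex.map (![0, 1] : Fin (1 + 1) → Fin (2 + 1)) t).1 1)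
    ((stdSimplex.map (![0, 1] : Fin (1 + 1) → Fin (2 + 1)) t).1 2) = _
  rw [B1_c01]
  rfl

private theorem B1_r12 (F : ℝ → ℝ → M) (hF : Continuous fun p : ℝ × ℝ => F p.1 p.2)
    (t : stdSimplex ℝ (Fin (1 + 1))) :
    re (![1, 2] : Fin (1 + 1) → Fin (2 + 1)) (B1_mk F hF) t = F (t.1 0) (t.1 1) := by
  show F ((stdSimplex.map (![1, 2] : Fin (1 + 1) → Fin (2 + 1)) t).1 1)
    ((stdSimplex.map (![1, 2] : Fin (1 + 1) → Fin (2 + 1)) t).1 2) = _
  rw [B1_c12]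
  rfl

private theorem B1_r02 (F : ℝ → ℝ → M) (hF : Continuous fun p : ℝ × ℝ => F p.1 p.2)
    (t : stdSimplex ℝ (Fin (1 + 1))) :
    re (![0, 2] : Fin (1 + 1) → Fin (2 + 1)) (B1_mk F hF) t = F 0 (t.1 1) := by
  show F ((stdSimplex.map (![0, 2] : Fin (1 + 1) → Fin (2 + 1)) t).1 1)
    ((stdSimplex.map (![0, 2] : Fin (1 + 1) → Fin (2 + 1)) t).1 2) = _
  rw [B1_c02]
  rfl

private theorem B1_e1 {x y z : M} (γ : Path x y) (γ' : Path y z) (r : ℝ) (h0 : 0 ≤ r)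
    (h1 : r ≤ 1) : (γ.trans γ').extend (r / 2) = γ.extend r := by
  rw [Path.extend_apply _ (⟨by linarith, by linarith⟩ : r / 2 ∈ Set.Icc (0 : ℝ) 1),
    Path.trans_apply, dif_pos (show r / 2 ≤ 1 / 2 by linarith),
    Path.extend_apply γ (⟨h0, h1⟩ : r ∈ Set.Icc (0 : ℝ) 1)]
  congr 1
  apply Subtype.ext
  show 2 * (r / 2) = r
  ring

private theorem B1_e2 {x y z : M} (γ : Path x y) (γ' : Path y z) (r : ℝ) (h0 : 0 ≤ r)
    (h1 : r ≤ 1) : (γ.trans γ').extend ((1 + r) / 2) = γ'.extend r := by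
  rw [Path.extend_apply _ (⟨by linarith, by linarith⟩ : (1 + r) / 2 ∈ Set.Icc (0 : ℝ) 1),
    Path.trans_apply, Path.extend_apply γ' (⟨h0, h1⟩ : r ∈ Set.Icc (0 : ℝ) 1)]
  by_cases hr : (1 + r) / 2 ≤ 1 / 2
  · rw [dif_pos hr]
    have hr0 : r = 0 := by linarith
    subst hr0
    have e1 : (⟨2 * ((1 + 0) / 2), by norm_num⟩ : unitInterval) = 1 := by
      apply Subtype.ext
      show (2 : ℝ) * ((1 + 0) / 2) = 1
      norm_num
    have e2 : (⟨(0 : ℝ), ⟨h0, h1⟩⟩ : unitInterval) = 0 := rfl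
    rw [e2, γ'.source]
    exact (congrArg γ e1).trans γ.target
  · rw [dif_neg hr]
    congr 1
    apply Subtype.ext
    show 2 * ((1 + r) / 2) - 1 = r
    ring

theorem tri {x y z : M} (γ : Path x y) (γ' : Path y z) : ∃ s : Sx M 2,
    re (![0, 1] : Fin (1 + 1) → Fin (2 + 1)) s = sx γ ∧ re (![1, 2] : Fin (1 + 1) → Fin (2 + 1)) s = sx γ' ∧
      re (![0, 2] : Fin (1 + 1) → Fin (2 + 1)) s = sx (γ.trans γ') := by
  refine ⟨B1_mk (fun u v => (γ.trans γ').extend (v + u / 2))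
    ((γ.trans γ').continuous_extend.comp (by fun_prop)), ?_, ?_, ?_⟩
  · refine ContinuousMap.ext (fun t => ?_)
    obtain ⟨h1, h2, h3⟩ := B1_mem t
    rw [B1_r01]
    show (γ.trans γ').extend (0 + t.1 1 / 2) = γ.extend (t.1 1)
    rw [zero_add, B1_e1 γ γ' _ h2 h3]
  · refine ContinuousMap.ext (fun t => ?_)
    obtain ⟨h1, h2, h3⟩ := B1_mem t
    rw [B1_r12]
    show (γ.trans γ').extend (t.1 1 + t.1 0 / 2) = γ'.extend (t.1 1)
    have e : t.1 1 + t.1 0 / 2 = (1 + t.1 1) / 2 := by linarith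
    rw [e, B1_e2 γ γ' _ h2 h3]
  · refine ContinuousMap.ext (fun t => ?_)
    rw [B1_r02]
    show (γ.trans γ').extend (t.1 1 + 0 / 2) = (γ.trans γ').extend (t.1 1)
    rw [zero_div, add_zero]

theorem homotopy {x y : M} {γ γ' : Path x y} (h : γ.Homotopic γ') : ∃ s₁ s₂ : Sx M 2,
    re (![0, 1] : Fin (1 + 1) → Fin (2 + 1)) s₁ = sx γ ∧
      re (![1, 2] : Fin (1 + 1) → Fin (2 + 1)) s₁ = sx (Path.refl y) ∧
      re (![0, 1] : Fin (1 + 1) → Fin (2 + 1)) s₂ = sx (Path.refl x) ∧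
      re (![1, 2] : Fin (1 + 1) → Fin (2 + 1)) s₂ = sx γ' ∧
      re (![0, 2] : Fin (1 + 1) → Fin (2 + 1)) s₁ = re (![0, 2] : Fin (1 + 1) → Fin (2 + 1)) s₂ := by
  obtain ⟨H⟩ := h
  obtain ⟨π, hπ⟩ : ∃ π : ℝ → unitInterval, π = Set.projIcc 0 1 zero_le_one := ⟨_, rfl⟩
  have hπc : Continuous π := by
    rw [hπ]
    exact continuous_projIcc
  have hπ0 : π 0 = 0 := by
    rw [hπ]
    exact Set.projIcc_left zero_le_one
  have hπ1 : π 1 = 1 := by
    rw [hπ]
    exact Set.projIcc_right zero_le_one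
  have hex : ∀ {a b : M} (δ : Path a b) (r : ℝ), δ.extend r = δ (π r) := by
    intro a b δ r
    rw [hπ]
    rfl
  refine ⟨B1_mk (fun u v => H (π v, π (u + v))) (H.continuous.comp
      ((hπc.comp continuous_snd).prodMk (hπc.comp (continuous_fst.add continuous_snd)))),
    B1_mk (fun u v => H (π (u + v), π v)) (H.continuous.comp
      ((hπc.comp (continuous_fst.add continuous_snd)).prodMk (hπc.comp continuous_snd))),
    ?_, ?_, ?_, ?_, ?_⟩
  · refine ContinuousMap.ext (fun t => ?_)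
    rw [B1_r01]
    show H (π 0, π (t.1 1 + 0)) = γ.extend (t.1 1)
    rw [hπ0, add_zero, H.apply_zero, hex]
    rfl
  · refine ContinuousMap.ext (fun t => ?_)
    obtain ⟨h1, h2, h3⟩ := B1_mem t
    rw [B1_r12]
    show H (π (t.1 1), π (t.1 0 + t.1 1)) = (Path.refl y).extend (t.1 1)
    rw [h1, hπ1, H.target, hex]
    rfl
  · refine ContinuousMap.ext (fun t => ?_)
    rw [B1_r01]
    show H (π (t.1 1 + 0), π 0) = (Path.refl x).extend (t.1 1)
    rw [hπ0, H.source, hex]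
    rfl
  · refine ContinuousMap.ext (fun t => ?_)
    obtain ⟨h1, h2, h3⟩ := B1_mem t
    rw [B1_r12]
    show H (π (t.1 0 + t.1 1), π (t.1 1)) = γ'.extend (t.1 1)
    rw [h1, hπ1, H.apply_one, hex]
    rfl
  · refine ContinuousMap.ext (fun t => ?_)
    rw [B1_r02, B1_r02]
    show H (π (t.1 1), π (0 + t.1 1)) = H (π (0 + t.1 1), π (t.1 1))
    rw [zero_add]

theorem of_simplex (s : Sx M 1) : ∃ (x y : M) (γ : Path x y), s = sx γ := by
  have hmem : ∀ v : unitInterval, (![1 - (v : ℝ), (v : ℝ)] : Fin (1 + 1) → ℝ) ∈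
      stdSimplex ℝ (Fin (1 + 1)) := by
    intro v
    refine ⟨fun k => ?_, ?_⟩
    · fin_cases k
      · show 0 ≤ 1 - (v : ℝ)
        linarith [v.2.2]
      · exact v.2.1
    · rw [Fin.sum_univ_two]
      show 1 - (v : ℝ) + v = 1
      ring
  have hc : Continuous fun v : unitInterval => s ⟨![1 - (v : ℝ), (v : ℝ)], hmem v⟩ := by
    refine s.continuous.comp (Continuous.subtype_mk ?_ _)
    refine continuous_pi (fun k => ?_)
    fin_cases k
    · exact continuous_const.sub continuous_subtype_val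
    · exact continuous_subtype_val
  obtain ⟨x, y, γ, hγ⟩ : ∃ (x y : M) (γ : Path x y), ∀ v : unitInterval,
      γ v = s ⟨![1 - (v : ℝ), (v : ℝ)], hmem v⟩ :=
    ⟨_, _, ⟨⟨fun v : unitInterval => s ⟨![1 - (v : ℝ), (v : ℝ)], hmem v⟩, hc⟩, rfl, rfl⟩,
      fun v => rfl⟩
  refine ⟨x, y, γ, ContinuousMap.ext (fun t => ?_)⟩
  obtain ⟨h1, h2, h3⟩ := B1_mem t
  show s t = γ.extend (t.1 1)
  rw [Path.extend_apply γ (⟨h2, h3⟩ : t.1 1 ∈ Set.Icc (0 : ℝ) 1), hγ]
  congr 1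
  apply Subtype.ext
  funext k
  fin_cases k
  · show t.1 0 = 1 - t.1 1
    linarith
  · rfl

/-- the constant 2-simplex at `x` -/
theorem const_simplex (x : M) : ∃ s : Sx M 2,
    re (![0, 1] : Fin (1 + 1) → Fin (2 + 1)) s = sx (Path.refl x) ∧
      re (![1, 2] : Fin (1 + 1) → Fin (2 + 1)) s = sx (Path.refl x) ∧
      re (![0, 2] : Fin (1 + 1) → Fin (2 + 1)) s = sx (Path.refl x) :=
  ⟨ContinuousMap.const _ x, rfl, rfl, rfl⟩

end

end Pool.Agent.LibGZ87
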