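import Pool.Agent.LibGZ87.B1

set_option autoImplicit false

/-!
[GZ87 B2] SHORT. Periods of 1-cocycles: `dl1` at the simplices of B1 (`tri`, `homotopy`, `const_simplex`; `γ.trans γ.symm` is homotopic to the constant path: `Path.Homotopic` lemmas `Path.Homotopic.symm_trans` .. or `Path.Homotopy.reflTransSymm`).
-/

namespace Pool.Agent.LibGZ87

noncomputable section

open Finset

variable {M : Type} [TopologicalSpace M]

private theorem B2_zero {a : Co M 1} (ha : dl 1 a = 0) (s : Sx M 2) :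
    a (re (![1, 2] : Fin (1 + 1) → Fin (2 + 1)) s) - a (re (![0, 2] : Fin (1 + 1) → Fin (2 + 1)) s) +
      a (re (![0, 1] : Fin (1 + 1) → Fin (2 + 1)) s) = 0 := by
  rw [← dl1, ha]
  rfl

theorem per_refl {a : Co M 1} (ha : dl 1 a = 0) (x : M) : a (sx (Path.refl x)) = 0 := by
  obtain ⟨s, h1, h2, h3⟩ := const_simplex x
  have h := B2_zero ha s
  rw [h1, h2, h3] at h
  linarith

theorem per_trans {a : Co M 1} (ha : dl 1 a = 0) {x y z : M} (γ : Path x y) (γ' : Path y z) :
    a (sx (γ.trans γ')) = a (sx γ) + a (sx γ') := by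
  obtain ⟨s, h1, h2, h3⟩ := tri γ γ'
  have h := B2_zero ha s
  rw [h1, h2, h3] at h
  linarith

theorem per_hom {a : Co M 1} (ha : dl 1 a = 0) {x y : M} {γ γ' : Path x y} (h : γ.Homotopic γ') :
    a (sx γ) = a (sx γ') := by
  obtain ⟨s₁, s₂, h1, h2, h3, h4, h5⟩ := homotopy h
  have e1 := B2_zero ha s₁
  have e2 := B2_zero ha s₂
  rw [h1, h2, h5, per_refl ha] at e1
  rw [h3, h4, per_refl ha] at e2
  linarith

theorem per_symm {a : Co M 1} (ha : dl 1 a = 0) {x y : M} (γ : Path x y) : a (sx γ.symm) = - a (sx γ) := by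
  have h1 := per_trans ha γ γ.symm
  have h2 : (γ.trans γ.symm).Homotopic (Path.refl x) := ⟨(Path.Homotopy.reflTransSymm γ).symm⟩
  rw [per_hom ha h2, per_refl ha] at h1
  linarith

end

end Pool.Agent.LibGZ87
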