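import Pool.Agent.LibGZ87.B2

set_option autoImplicit false

/-!
[GZ87 B3] MEDIUM. The torus cycle of two commuting loops. `tri γ γ' = t₁` (edges `γ`, `γ'`, `γ.trans γ'`), `tri γ' γ = t₂`, `homotopy` from `γ.trans γ'` to `γ'.trans γ`: `s₁` (edges `01` = `γ.trans γ'`, `12` = const, `02` = diagonal), `s₂` (edges `01` = const,
`12` = `γ'.trans γ`, `02` = diagonal). `τ = t₁ + s₁ - s₂ - t₂` (`Finsupp.single t₁ 1 + ..`): for every 1-cochain `c` (`dl1`):
`c(γ') - c(γγ') + c(γ) + c(const) - c(diag) + c(γγ') - c(γ'γ) + c(diag) - c(const) - c(γ) + c(γ'γ) - c(γ') = 0`.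
`cup11`: `a ∪ b` is `a(γ) b(γ')` on `t₁`, `a(γ') b(γ)` on `t₂`, `a(γγ') b(const) = 0` on `s₁`, `a(const) b(γ'γ) = 0` on `s₂` (`per_refl`). `ev` of a sum of `single`s: prove `ev (single s m) a = m * a s` and additivity of `ev` in the chain
(`Finsupp.sum_add_index'`, `ev μ a = μ.sum fun s m => m * a s`) as private lemmas.
-/

namespace Pool.Agent.LibGZ87

noncomputable section

open Finset

variable {M : Type} [TopologicalSpace M]

private lemma B3_ev_sum {n : ℕ} (μ : Sx M n →₀ ℤ) (a : Co M n) :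
    ev μ a = μ.sum fun s m => m * a s := rfl

private lemma B3_ev_add {n : ℕ} (μ ν : Sx M n →₀ ℤ) (a : Co M n) :
    ev (μ + ν) a = ev μ a + ev ν a := by
  classical
  rw [B3_ev_sum, B3_ev_sum, B3_ev_sum]
  exact Finsupp.sum_add_index' (fun s => zero_mul _) (fun s m m' => add_mul _ _ _)

private lemma B3_ev_single {n : ℕ} (s : Sx M n) (m : ℤ) (a : Co M n) :
    ev (Finsupp.single s m) a = m * a s := by
  rw [B3_ev_sum]
  exact Finsupp.sum_single_index (zero_mul _)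

theorem torus {x : M} (γ γ' : Path x x) (h : (γ.trans γ').Homotopic (γ'.trans γ)) : ∃ τ : Sx M 2 →₀ ℤ,
    (∀ c : Co M 1, ev τ (dl 1 c) = 0) ∧ ∀ a b : Co M 1, dl 1 a = 0 → dl 1 b = 0 →
      ev τ (cup (rfl : 1 + 1 = 2) a b) = a (sx γ) * b (sx γ') - a (sx γ') * b (sx γ) := by
  obtain ⟨t₁, a1, a2, a3⟩ := tri γ γ'
  obtain ⟨t₂, b1, b2, b3⟩ := tri γ' γ
  obtain ⟨s₁, s₂, c1, c2, d1, d2, e⟩ := homotopy h
  refine ⟨Finsupp.single t₁ 1 + Finsupp.single s₁ 1 + Finsupp.single s₂ (-1) +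
    Finsupp.single t₂ (-1), ?_, ?_⟩
  · intro c
    rw [B3_ev_add, B3_ev_add, B3_ev_add, B3_ev_single, B3_ev_single, B3_ev_single, B3_ev_single,
      dl1, dl1, dl1, dl1, a1, a2, a3, b1, b2, b3, c1, c2, d1, d2, e]
    ring
  · intro a b ha hb
    rw [B3_ev_add, B3_ev_add, B3_ev_add, B3_ev_single, B3_ev_single, B3_ev_single, B3_ev_single,
      cup11, cup11, cup11, cup11, a1, a2, b1, b2, c1, c2, d1, d2, per_refl ha, per_refl hb]
    ring

end

end Pool.Agent.LibGZ87
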