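import Pool.Agent.LibGZ87.B2
import Pool.Agent.LibGZ87.A5

set_option autoImplicit false

/-!
[GZ87 B4] MEDIUM. `H^1(M; Z)` has rank 4. `exact_of_per`: `M` path connected, `a` a 1-cocycle with `a (sx γ) = 0` for all loops `γ` at `x`: `a = dl 0 g` with `g (0-simplex at y) = a (sx γ_y)`, `γ_y` a path from `x` to `y` (`PathConnectedSpace.somePath`): a 1-simplex is
`sx γ`, `γ : y → z` (`of_simplex`), `a (sx (γ_y γ γ_z^{-1})) = 0` gives `a (sx γ) = a (sx γ_z) - a (sx γ_y)` (`per_trans`, `per_symm`), `dl0`.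
`loops`: `f` is onto, every element of `FundamentalGroup` is the class of a loop.
`rank1`: choose loops `γ_i` with `f [γ_i] = ofAdd (Pi.single i 1)`. The map `Zc M 1 → (Fin 4 → ℤ)`, `a ↦ (a (sx γ_i))_i` is linear, onto (the cocycles `a_i` of `Mark` go to the basis), and its kernel is `Tr M 1`: if all `a (sx γ_i) = 0` then `a (sx γ) = 0` for all loops: the map
`γ ↦ a (sx γ)` is a homomorphism on `π_1 ≅ Z^4` (`per_trans`, `per_hom`) which vanishes on the generators; so `a = dl 0 g ∈ Bc`; conversely if `m a = dl 0 g` then `m a (sx γ) = g(x) - g(x) = 0`. So `FH M 1 ≃ₗ (Fin 4 → ℤ)` (`LinearMap.quotKerEquivOfSurjective`), finrank 4.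
-/

namespace Pool.Agent.LibGZ87

noncomputable section

open Finset

variable {M : Type} [TopologicalSpace M]

private theorem B4_ev {x y : M} (γ : Path x y) :
    (sx γ) (stdSimplex.vertex (0 : Fin 2)) = x ∧ (sx γ) (stdSimplex.vertex (1 : Fin 2)) = y := by
  constructor
  · show γ.extend ((stdSimplex.vertex (S := ℝ) (0 : Fin 2)).1 1) = x
    have h : (stdSimplex.vertex (S := ℝ) (0 : Fin 2)).1 1 = 0 := by simp
    rw [h, Path.extend_zero]
  · show γ.extend ((stdSimplex.vertex (S := ℝ) (1 : Fin 2)).1 1) = y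
    have h : (stdSimplex.vertex (S := ℝ) (1 : Fin 2)).1 1 = 1 := by simp
    rw [h, Path.extend_one]

private theorem B4_re (i : Fin 2) (s : Sx M 1) :
    (re (![i] : Fin (0 + 1) → Fin (1 + 1)) s) (stdSimplex.vertex (0 : Fin 1)) = s (stdSimplex.vertex i) := by
  show s (stdSimplex.map (![i] : Fin (0 + 1) → Fin (1 + 1)) (stdSimplex.vertex (0 : Fin 1))) =
    s (stdSimplex.vertex i)
  rw [stdSimplex.map_vertex]
  rfl

private theorem B4_pt (t : stdSimplex ℝ (Fin (0 + 1))) : t = stdSimplex.vertex (0 : Fin 1) := by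
  ext i
  fin_cases i
  simp

private theorem B4_loop {x : M} (γ : Path x x) : re (![1] : Fin (0 + 1) → Fin (1 + 1)) (sx γ) =
    re (![0] : Fin (0 + 1) → Fin (1 + 1)) (sx γ) := by
  refine ContinuousMap.ext fun t => ?_
  rw [B4_pt t, B4_re, B4_re, (B4_ev γ).1, (B4_ev γ).2]

theorem exact_of_per [PathConnectedSpace M] {a : Co M 1} (ha : dl 1 a = 0) (x : M)
    (h : ∀ γ : Path x x, a (sx γ) = 0) : a ∈ Bc M 1 := by
  let G : M → ℤ := fun p => a (sx (PathConnectedSpace.somePath x p))
  let g : Co M 0 := fun s => G (s (stdSimplex.vertex (0 : Fin 1)))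
  refine ⟨g, funext fun s => ?_⟩
  obtain ⟨y, z, γ, rfl⟩ := of_simplex s
  rw [dl0]
  have h1 : g (re (![1] : Fin (0 + 1) → Fin (1 + 1)) (sx γ)) = G z := by
    show G _ = G z
    rw [B4_re, (B4_ev γ).2]
  have h0 : g (re (![0] : Fin (0 + 1) → Fin (1 + 1)) (sx γ)) = G y := by
    show G _ = G y
    rw [B4_re, (B4_ev γ).1]
  rw [h1, h0]
  have h2 := h (((PathConnectedSpace.somePath x y).trans γ).trans (PathConnectedSpace.somePath x z).symm)
  rw [per_trans ha, per_trans ha, per_symm ha] at h2
  show a (sx (PathConnectedSpace.somePath x z)) - a (sx (PathConnectedSpace.somePath x y)) = a (sx γ)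
  linarith

theorem loops {x : M} (f : FundamentalGroup M x ≃* Multiplicative (Fin 4 → ℤ)) (e : Fin 4 → ℤ) :
    ∃ γ : Path x x, f (FundamentalGroup.fromPath (Path.Homotopic.Quotient.mk γ)) = Multiplicative.ofAdd e := by
  obtain ⟨p, hp⟩ := f.surjective (Multiplicative.ofAdd e)
  obtain ⟨γ, hγ⟩ := Path.Homotopic.Quotient.mk_surjective (X := M) (x₀ := x) (x₁ := x) p
  exact ⟨γ, by rw [← hp, ← hγ]⟩

private theorem B4_van {x : M} {f : FundamentalGroup M x ≃* Multiplicative (Fin 4 → ℤ)}
    {a : Co M 1} (ha : dl 1 a = 0) (γ : Fin 4 → Path x x)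
    (hγ : ∀ i, f (FundamentalGroup.fromPath (Path.Homotopic.Quotient.mk (γ i))) =
      Multiplicative.ofAdd (Pi.single i 1))
    (h : ∀ i, a (sx (γ i)) = 0) (δ : Path x x) : a (sx δ) = 0 := by
  let A : (Fin 4 → ℤ) → ℤ := fun e => a (sx (loops f e).choose)
  have hA : ∀ (e : Fin 4 → ℤ) (δ : Path x x),
      f (FundamentalGroup.fromPath (Path.Homotopic.Quotient.mk δ)) = Multiplicative.ofAdd e →
      a (sx δ) = A e := by
    intro e δ hδ
    have h1 := (loops f e).choose_spec
    have h2 := f.injective (hδ.trans h1.symm)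
    exact per_hom ha (Path.Homotopic.Quotient.exact h2)
  have hadd : ∀ e e', A (e + e') = A e + A e' := by
    intro e e'
    have h1 := (loops f e).choose_spec
    have h2 := (loops f e').choose_spec
    have h3 : f (FundamentalGroup.fromPath (Path.Homotopic.Quotient.mk
        ((loops f e').choose.trans (loops f e).choose))) = Multiplicative.ofAdd (e + e') := by
      have h4 : (FundamentalGroup.fromPath (Path.Homotopic.Quotient.mk
        ((loops f e').choose.trans (loops f e).choose))) =
        FundamentalGroup.fromPath (Path.Homotopic.Quotient.mk (loops f e).choose) *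
        FundamentalGroup.fromPath (Path.Homotopic.Quotient.mk (loops f e').choose) := by
        rw [FundamentalGroup.mul_def]
        exact Path.Homotopic.Quotient.mk_trans _ _
      rw [h4, map_mul, h1, h2, ofAdd_add]
    have h5 := hA _ _ h3
    rw [← h5, per_trans ha]
    show A e' + A e = A e + A e'
    ring
  let φ : (Fin 4 → ℤ) →+ ℤ := AddMonoidHom.mk' A hadd
  have hφ : φ = 0 := by
    refine AddMonoidHom.functions_ext _ _ _ fun i n => ?_
    have h1 : φ (Pi.single i 1) = 0 := by
      have := hA _ _ (hγ i)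
      rw [h i] at this
      exact this.symm
    have h2 : (Pi.single i n : Fin 4 → ℤ) = n • Pi.single i 1 := by
      rw [← Pi.single_smul]
      simp
    rw [h2, map_zsmul, h1]
    simp
  have h1 := hA (Multiplicative.toAdd (f (FundamentalGroup.fromPath (Path.Homotopic.Quotient.mk δ)))) δ rfl
  rw [h1]
  exact DFunLike.congr_fun hφ _

theorem rank1 [PathConnectedSpace M] {x : M} {f : FundamentalGroup M x ≃* Multiplicative (Fin 4 → ℤ)}
    {a : Fin 4 → Co M 1} (hf : Mark x f a) : Module.finrank ℤ (FH M 1) = 4 := by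
  choose γ hγ using fun i : Fin 4 => loops f (Pi.single i 1)
  let L : Zc M 1 →ₗ[ℤ] (Fin 4 → ℤ) :=
    { toFun := fun b i => (b : Co M 1) (sx (γ i))
      map_add' := fun b c => rfl
      map_smul' := fun m b => rfl }
  have hsurj : Function.Surjective L := by
    intro e
    refine ⟨∑ j, e j • (⟨a j, hf.coc j⟩ : Zc M 1), ?_⟩
    rw [map_sum]
    funext i
    rw [Finset.sum_apply]
    have h1 : ∀ j, L (e j • (⟨a j, hf.coc j⟩ : Zc M 1)) i = if j = i then e i else 0 := by
      intro j
      rw [map_smul]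
      show e j * a j (sx (γ i)) = _
      rw [hf.per j (γ i), hγ i, toAdd_ofAdd, Pi.single_apply]
      split_ifs with hji
      · rw [hji, mul_one]
      · rw [mul_zero]
    rw [Finset.sum_congr rfl fun j _ => h1 j]
    simp
  have hker : LinearMap.ker L = Tr M 1 := by
    ext b
    rw [LinearMap.mem_ker]
    constructor
    · intro hb
      refine ⟨1, one_ne_zero, ?_⟩
      rw [one_smul]
      exact exact_of_per b.2 x (B4_van b.2 γ hγ fun i => congrFun hb i)
    · rintro ⟨m, hm, g, hg⟩
      funext i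
      have h1 := congrFun hg (sx (γ i))
      rw [dl0, B4_loop, sub_self] at h1
      have h2 : m * (b : Co M 1) (sx (γ i)) = 0 := h1.symm
      exact (mul_eq_zero.mp h2).resolve_left hm
  have e1 : (Zc M 1 ⧸ LinearMap.ker L) ≃ₗ[ℤ] (Fin 4 → ℤ) := L.quotKerEquivOfSurjective hsurj
  rw [hker] at e1
  rw [LinearEquiv.finrank_eq e1, Module.finrank_fin_fun]

end

end Pool.Agent.LibGZ87
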