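import Pool.Agent.LibGZ87.B3
import Pool.Agent.LibGZ87.B4

set_option autoImplicit false

/-!
[GZ87 B5] SHORT/MEDIUM. Dual classes of the products. For `e, e' : Fin 4` distinct let `γ`, `γ'` be loops with `f [γ] = e`-th unit vector, `f [γ'] = e'`-th unit vector (`loops`). The two compositions have the same class (`π_1 ≅ Z^4` is commutative, `f` is injective;
`FundamentalGroup.mul_def`, `Path.Homotopic.Quotient` `Quotient.exact`), so `torus` gives `τ` with `ev τ (a_i ∪ a_j) = δ_ie δ_je' - δ_ie' δ_je` (`Mark.per`). `ev τ` vanishes on coboundaries, so on torsion classes (`m * ev τ a = 0`), so it descends to a linear map `θ : FH M 2 → ℤ`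
(`Submodule.liftQ`).
-/

namespace Pool.Agent.LibGZ87

noncomputable section

open Finset

variable {M : Type} [TopologicalSpace M]

private theorem comm_loops {x : M} (f : FundamentalGroup M x ≃* Multiplicative (Fin 4 → ℤ))
    (γ γ' : Path x x) : (γ.trans γ').Homotopic (γ'.trans γ) := by
  have h : (FundamentalGroup.fromPath (Path.Homotopic.Quotient.mk γ) : FundamentalGroup M x) *
      FundamentalGroup.fromPath (Path.Homotopic.Quotient.mk γ') =
      FundamentalGroup.fromPath (Path.Homotopic.Quotient.mk γ') *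
        FundamentalGroup.fromPath (Path.Homotopic.Quotient.mk γ) := by
    apply f.injective
    rw [map_mul, map_mul, mul_comm]
  rw [FundamentalGroup.mul_def, FundamentalGroup.mul_def] at h
  have h2 : (Path.Homotopic.Quotient.mk (γ'.trans γ) : Path.Homotopic.Quotient x x) =
      Path.Homotopic.Quotient.mk (γ.trans γ') := h
  exact (Quotient.exact h2).symm

private theorem ev_bc {n : ℕ} (τ : Sx M (n + 1) →₀ ℤ) (h : ∀ c : Co M n, ev τ (dl n c) = 0)
    {w : Co M (n + 1)} (hw : w ∈ Bc M (n + 1)) : ev τ w = 0 := by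
  obtain ⟨c, rfl⟩ := hw
  exact h c

theorem dual_torus {x : M} {f : FundamentalGroup M x ≃* Multiplicative (Fin 4 → ℤ)}
    {a : Fin 4 → Co M 1} (hf : Mark x f a) (e e' : Fin 4) : ∃ θ : FH M 2 →ₗ[ℤ] ℤ,
    ∀ (i j : Fin 4) (w : Zc M 2), (w : Co M 2) = cup (rfl : 1 + 1 = 2) (a i) (a j) →
      θ (Submodule.Quotient.mk w) =
        (if i = e then 1 else 0) * (if j = e' then 1 else 0) - (if i = e' then 1 else 0) * (if j = e then 1 else 0) := by
  obtain ⟨γ, hγ⟩ := loops f (Pi.single e 1)
  obtain ⟨γ', hγ'⟩ := loops f (Pi.single e' 1)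
  obtain ⟨τ, h1, h2⟩ := torus γ γ' (comm_loops f γ γ')
  have hp : ∀ i, a i (sx γ) = if i = e then 1 else 0 := by
    intro i
    rw [hf.per i γ, hγ, toAdd_ofAdd, Pi.single_apply]
  have hp' : ∀ i, a i (sx γ') = if i = e' then 1 else 0 := by
    intro i
    rw [hf.per i γ', hγ', toAdd_ofAdd, Pi.single_apply]
  have hker : Tr M 2 ≤ LinearMap.ker ((ev τ).comp (Zc M 2).subtype) := by
    rintro w ⟨m, hm, hw⟩
    rw [LinearMap.mem_ker, LinearMap.comp_apply, Submodule.subtype_apply]
    have h3 := ev_bc τ h1 hw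
    rw [map_smul, smul_eq_mul] at h3
    rcases mul_eq_zero.mp h3 with h4 | h4
    · exact absurd h4 hm
    · exact h4
  refine ⟨(Tr M 2).liftQ ((ev τ).comp (Zc M 2).subtype) hker, ?_⟩
  intro i j w hw
  rw [Submodule.liftQ_apply, LinearMap.comp_apply, Submodule.subtype_apply, hw,
    h2 (a i) (a j) (hf.coc i) (hf.coc j), hp, hp', hp, hp']

end

end Pool.Agent.LibGZ87
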