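import Pool.Agent.LibGZ87.A3
import Pool.Agent.LibGZ87.A5
import Pool.Agent.LibGZ87.B5

set_option autoImplicit false

/-!
[GZ87 C1] MEDIUM. The hyperbolic sublattice. `w 0 .. w 5` = the classes of `a_0 a_1`, `a_0 a_2`, `a_0 a_3`, `a_2 a_3`, `a_3 a_1`, `a_1 a_2` (`cocycle_cup`). `lam` of two of them is `P4` (`cup_P4`); `P4 μ a_i a_j a_l a_m` is `0` if two indices are equal (move them next to each other by
`swap01 .. swap23`, `P4 .. a a .. = - P4 .. a a ..`) and the sign of the permutation times `k` otherwise (`P4 μ a_0 a_1 a_2 a_3 = k` from `hk`, `cup_P4`): so `lam (w i) (w j) = k * Jm i j` (36 cases, or 21 by `lam_symm`; a tactic block with the three swap lemmas).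
`θ i` from `dual_torus` with `(e, e') = (0,1), (0,2), (0,3), (2,3), (3,1), (1,2)`: `θ i (w j) = 1` if `i = j`, `0` otherwise (`fin_cases`, `simp`/`decide`).
-/

namespace Pool.Agent.LibGZ87

noncomputable section

open Finset

variable {M : Type} [TopologicalSpace M]

private def C1_pr : Fin 6 → Fin 4 × Fin 4 := ![(0, 1), (0, 2), (0, 3), (2, 3), (3, 1), (1, 2)]

private theorem C1_delta : ∀ i j : Fin 6,
    ((if (C1_pr j).1 = (C1_pr i).1 then (1 : ℤ) else 0) * (if (C1_pr j).2 = (C1_pr i).2 then 1 else 0) -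
      (if (C1_pr j).1 = (C1_pr i).2 then 1 else 0) * (if (C1_pr j).2 = (C1_pr i).1 then 1 else 0)) =
      if i = j then 1 else 0 := by
  decide

private theorem C1_alt {Q : Fin 4 → Fin 4 → Fin 4 → Fin 4 → ℤ} {k : ℤ}
    (h01 : ∀ i j l m, Q i j l m = - Q j i l m) (h12 : ∀ i j l m, Q i j l m = - Q i l j m)
    (h23 : ∀ i j l m, Q i j l m = - Q i j m l) (hk : Q 0 1 2 3 = k) (i j : Fin 6) :
    Q (C1_pr i).1 (C1_pr i).2 (C1_pr j).1 (C1_pr j).2 = k * Jm i j := by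
  have z01 : ∀ i l m, Q i i l m = 0 := fun i l m => by have := h01 i i l m; omega
  have z12 : ∀ i j m, Q i j j m = 0 := fun i j m => by have := h12 i j j m; omega
  have z23 : ∀ i j l, Q i j l l = 0 := fun i j l => by have := h23 i j l l; omega
  have z02 : ∀ i j m, Q i j i m = 0 := fun i j m => by rw [h12, z01, neg_zero]
  have z13 : ∀ i j l, Q i j l j = 0 := fun i j l => by rw [h23, z12, neg_zero]
  have z03 : ∀ i j l, Q i j l i = 0 := fun i j l => by rw [h23, z02, neg_zero]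
  have f1 : Q 0 2 3 1 = k := by rw [h23, h12, neg_neg, hk]
  have f2 : Q 0 3 1 2 = k := by rw [h12, h23, neg_neg, hk]
  have f3 : Q 2 3 0 1 = k := by rw [h12, h01, neg_neg, f1]
  have f4 : Q 3 1 0 2 = k := by rw [h12, h01, neg_neg, f2]
  have f5 : Q 1 2 0 3 = k := by rw [h12, h01, neg_neg, hk]
  fin_cases i <;> fin_cases j <;>
    simp [C1_pr, Jm, z12, z02, z13, z03, f1, f2, f3, f4, f5, hk]

theorem hyper {μ : Sx M 4 →₀ ℤ} (hμ : ∀ b : Co M 3, ev μ (dl 3 b) = 0) {x : M}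
    {f : FundamentalGroup M x ≃* Multiplicative (Fin 4 → ℤ)} {a : Fin 4 → Co M 1} (hf : Mark x f a) {k : ℤ}
    (hk : ev μ (cup (rfl : 2 + 2 = 4) (cup (rfl : 1 + 1 = 2) (a 0) (a 1)) (cup (rfl : 1 + 1 = 2) (a 2) (a 3))) = k) :
    ∃ (w : Fin 6 → Zc M 2) (θ : Fin 6 → FH M 2 →ₗ[ℤ] ℤ),
      (∀ i j, θ i (Submodule.Quotient.mk (w j)) = if i = j then 1 else 0) ∧
        ∀ i j, lam μ (w i) (w j) = k * Jm i j := by
  let w : Fin 6 → Zc M 2 := fun i =>
    ⟨cup (rfl : 1 + 1 = 2) (a (C1_pr i).1) (a (C1_pr i).2), cocycle_cup (hf.coc _) (hf.coc _)⟩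
  have hd := fun i : Fin 6 => dual_torus hf (C1_pr i).1 (C1_pr i).2
  choose θ hθ using hd
  refine ⟨w, θ, fun i j => ?_, fun i j => ?_⟩
  · rw [hθ i (C1_pr j).1 (C1_pr j).2 (w j) rfl]
    exact C1_delta i j
  · have h1 : lam μ (w i) (w j) = P4 μ (a (C1_pr i).1) (a (C1_pr i).2) (a (C1_pr j).1) (a (C1_pr j).2) :=
      cup_P4 μ _ _ _ _
    rw [h1]
    exact C1_alt (Q := fun i j l m => P4 μ (a i) (a j) (a l) (a m))
      (fun i j l m => swap01 hμ (hf.coc _) (hf.coc _) (hf.coc _) (hf.coc _))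
      (fun i j l m => swap12 hμ (hf.coc _) (hf.coc _) (hf.coc _) (hf.coc _))
      (fun i j l m => swap23 hμ (hf.coc _) (hf.coc _) (hf.coc _) (hf.coc _))
      (by rw [← cup_P4]; exact hk) i j

end

end Pool.Agent.LibGZ87
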