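import Mathlib

set_option autoImplicit false

/-!
Definitions for MP_405732_gt: spaces which satisfy Poincare duality in dimension 4, with fundamental group
`Z^4` and degree `k` over the torus. Everything is in terms of integral singular cochains.
-/

namespace Pool.Agent.LibGZ87

noncomputable section

open Finset

/-- singular `n`-simplices of `M` -/
abbrev Sx (M : Type) [TopologicalSpace M] (n : ℕ) : Type := C(stdSimplex ℝ (Fin (n + 1)), M)

/-- integral singular cochains -/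
abbrev Co (M : Type) [TopologicalSpace M] (n : ℕ) : Type := Sx M n → ℤ

variable {M : Type} [TopologicalSpace M]

/-- restriction of a singular simplex along a map of vertices -/
def re {m n : ℕ} (f : Fin (m + 1) → Fin (n + 1)) (s : Sx M n) : Sx M m :=
  s.comp ⟨stdSimplex.map f, stdSimplex.continuous_map f⟩

theorem dl_add {n : ℕ} (a b : Co M n) (s : Sx M (n + 1)) :
    ∑ i : Fin (n + 2), (-1) ^ (i : ℕ) * (a + b) (re i.succAbove s) =
      ∑ i : Fin (n + 2), (-1) ^ (i : ℕ) * a (re i.succAbove s) +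
        ∑ i : Fin (n + 2), (-1) ^ (i : ℕ) * b (re i.succAbove s) := by
  simp only [Pi.add_apply, mul_add, sum_add_distrib]

theorem dl_smul {n : ℕ} (c : ℤ) (a : Co M n) (s : Sx M (n + 1)) :
    ∑ i : Fin (n + 2), (-1) ^ (i : ℕ) * (c • a) (re i.succAbove s) =
      c • ∑ i : Fin (n + 2), (-1) ^ (i : ℕ) * a (re i.succAbove s) := by
  simp only [Pi.smul_apply, smul_eq_mul, mul_sum]
  refine sum_congr rfl fun i _ => ?_
  ring

/-- the coboundary `C^n → C^(n+1)` -/
def dl (n : ℕ) : Co M n →ₗ[ℤ] Co M (n + 1) where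
  toFun a s := ∑ i : Fin (n + 2), (-1) ^ (i : ℕ) * a (re i.succAbove s)
  map_add' a b := funext fun s => dl_add a b s
  map_smul' c a := funext fun s => dl_smul c a s

/-- cocycles -/
def Zc (M : Type) [TopologicalSpace M] (n : ℕ) : Submodule ℤ (Co M n) := LinearMap.ker (dl n)

/-- coboundaries -/
def Bc (M : Type) [TopologicalSpace M] : (n : ℕ) → Submodule ℤ (Co M n)
  | 0 => ⊥
  | n + 1 => LinearMap.range (dl n)

theorem Tr_add {n : ℕ} {a b : Zc M n} (ha : ∃ m : ℤ, m ≠ 0 ∧ m • (a : Co M n) ∈ Bc M n)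
    (hb : ∃ m : ℤ, m ≠ 0 ∧ m • (b : Co M n) ∈ Bc M n) :
    ∃ m : ℤ, m ≠ 0 ∧ m • ((a + b : Zc M n) : Co M n) ∈ Bc M n := by
  obtain ⟨m, hm, ha⟩ := ha
  obtain ⟨l, hl, hb⟩ := hb
  refine ⟨m * l, mul_ne_zero hm hl, ?_⟩
  rw [Submodule.coe_add, smul_add]
  refine Submodule.add_mem _ ?_ ?_
  · rw [mul_comm, mul_smul]
    exact Submodule.smul_mem _ _ ha
  · rw [mul_smul]
    exact Submodule.smul_mem _ _ hb

theorem Tr_zero {n : ℕ} : ∃ m : ℤ, m ≠ 0 ∧ m • ((0 : Zc M n) : Co M n) ∈ Bc M n := by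
  refine ⟨1, one_ne_zero, ?_⟩
  rw [Submodule.coe_zero, smul_zero]
  exact Submodule.zero_mem _

theorem Tr_smul {n : ℕ} (c : ℤ) {a : Zc M n} (ha : ∃ m : ℤ, m ≠ 0 ∧ m • (a : Co M n) ∈ Bc M n) :
    ∃ m : ℤ, m ≠ 0 ∧ m • ((c • a : Zc M n) : Co M n) ∈ Bc M n := by
  obtain ⟨m, hm, ha⟩ := ha
  refine ⟨m, hm, ?_⟩
  rw [Submodule.coe_smul, smul_comm]
  exact Submodule.smul_mem _ _ ha

/-- cocycles with torsion class: a nonzero multiple is a coboundary -/
def Tr (M : Type) [TopologicalSpace M] (n : ℕ) : Submodule ℤ (Zc M n) where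
  carrier := {a | ∃ m : ℤ, m ≠ 0 ∧ m • (a : Co M n) ∈ Bc M n}
  add_mem' ha hb := Tr_add ha hb
  zero_mem' := Tr_zero
  smul_mem' c _ ha := Tr_smul c ha

/-- `H^n(M; Z)` modulo torsion -/
abbrev FH (M : Type) [TopologicalSpace M] (n : ℕ) : Type := Zc M n ⧸ Tr M n

/-- the Euler characteristic (of a space without cohomology above degree 4) -/
def chi (M : Type) [TopologicalSpace M] : ℤ :=
  ∑ n ∈ range 5, (-1) ^ n * (Module.finrank ℤ (FH M n) : ℤ)

theorem cup_front {p q n : ℕ} (h : p + q = n) (i : Fin (p + 1)) : (i : ℕ) < n + 1 := by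
  omega

theorem cup_back {p q n : ℕ} (h : p + q = n) (i : Fin (q + 1)) : p + (i : ℕ) < n + 1 := by
  omega

/-- the cup product `C^p × C^q → C^n`, `n = p + q` -/
def cup {p q n : ℕ} (h : p + q = n) (a : Co M p) (b : Co M q) : Co M n := fun s =>
  a (re (fun i : Fin (p + 1) => (⟨(i : ℕ), cup_front h i⟩ : Fin (n + 1))) s) *
    b (re (fun i : Fin (q + 1) => (⟨p + (i : ℕ), cup_back h i⟩ : Fin (n + 1))) s)

theorem ev_add {n : ℕ} (μ : Sx M n →₀ ℤ) (a b : Co M n) :
    ∑ s ∈ μ.support, μ s * (a + b) s = ∑ s ∈ μ.support, μ s * a s + ∑ s ∈ μ.support, μ s * b s := by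
  simp only [Pi.add_apply, mul_add, sum_add_distrib]

theorem ev_smul {n : ℕ} (μ : Sx M n →₀ ℤ) (c : ℤ) (a : Co M n) :
    ∑ s ∈ μ.support, μ s * (c • a) s = c • ∑ s ∈ μ.support, μ s * a s := by
  simp only [Pi.smul_apply, smul_eq_mul, mul_sum]
  refine sum_congr rfl fun i _ => ?_
  ring

/-- evaluation of a cochain on a chain -/
def ev {n : ℕ} (μ : Sx M n →₀ ℤ) : Co M n →ₗ[ℤ] ℤ where
  toFun a := ∑ s ∈ μ.support, μ s * a s
  map_add' a b := ev_add μ a b
  map_smul' c a := ev_smul μ c a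

/-- `μ` is a 4-dimensional fundamental class: `μ` is a cycle, the cohomology modulo torsion is finitely
generated and zero above degree 4, and for `p + q = 4` the cup product pairing
`H^p/tors × H^q/tors → Z` is perfect. -/
structure PD4 (μ : Sx M 4 →₀ ℤ) : Prop where
  cyc : ∀ b : Co M 3, ev μ (dl 3 b) = 0
  fin : ∀ n, Module.Finite ℤ (FH M n)
  top : ∀ n, 5 ≤ n → Tr M n = ⊤
  dual : ∀ (p q : ℕ) (h : p + q = 4) (φ : FH M p →ₗ[ℤ] ℤ), ∃ b : Zc M q, ∀ a : Zc M p,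
    φ (Submodule.Quotient.mk a) = ev μ (cup h (a : Co M p) (b : Co M q))
  nondeg : ∀ (p q : ℕ) (h : p + q = 4) (b : Zc M q),
    (∀ a : Zc M p, ev μ (cup h (a : Co M p) (b : Co M q)) = 0) → b ∈ Tr M q

/-- the intersection form -/
def lam (μ : Sx M 4 →₀ ℤ) (a b : Zc M 2) : ℤ := ev μ (cup (rfl : 2 + 2 = 4) (a : Co M 2) (b : Co M 2))

/-- `u`, `v` are pairwise orthogonal, the `u i` have positive square, the `v j` have negative square -/
structure Orth {L : Type} (B : L → L → ℤ) {p q : ℕ} (u : Fin p → L) (v : Fin q → L) : Prop where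
  uu : ∀ i j, i ≠ j → B (u i) (u j) = 0
  vv : ∀ i j, i ≠ j → B (v i) (v j) = 0
  uv : ∀ i j, B (u i) (v j) = 0
  vu : ∀ i j, B (v i) (u j) = 0
  pos : ∀ i, 0 < B (u i) (u i)
  neg : ∀ j, B (v j) (v j) < 0

/-- `s` is the signature of the intersection form: there are `b_2` pairwise orthogonal classes, `p` of them with
positive and `q` with negative square, `s = p - q` -/
def IsSig (μ : Sx M 4 →₀ ℤ) (s : ℤ) : Prop :=
  ∃ (p q : ℕ) (u : Fin p → Zc M 2) (v : Fin q → Zc M 2), p + q = Module.finrank ℤ (FH M 2) ∧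
    s = (p : ℤ) - q ∧ Orth (lam μ) u v

theorem sx_cont {x y : M} (γ : Path x y) : Continuous fun t : stdSimplex ℝ (Fin (1 + 1)) => γ.extend (t.1 1) :=
  γ.continuous_extend.comp ((continuous_apply 1).comp continuous_subtype_val)

/-- the singular 1-simplex of a path -/
def sx {x y : M} (γ : Path x y) : Sx M 1 := ⟨fun t => γ.extend (t.1 1), sx_cont γ⟩

/-- the 1-cocycles `a i` represent the coordinate classes in `H^1(M) = Hom(π_1(M), Z)` of the isomorphism
`f : π_1(M, x) → Z^4` -/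
structure Mark (x : M) (f : FundamentalGroup M x ≃* Multiplicative (Fin 4 → ℤ)) (a : Fin 4 → Co M 1) :
    Prop where
  coc : ∀ i, dl 1 (a i) = 0
  per : ∀ (i : Fin 4) (γ : Path x x),
    a i (sx γ) = Multiplicative.toAdd (f (FundamentalGroup.fromPath (Path.Homotopic.Quotient.mk γ))) i

/-- the degree over the torus: `f_*(μ) = k [T]`, in the form `⟨α_0 α_1 α_2 α_3, μ⟩ = k` -/
def Deg (μ : Sx M 4 →₀ ℤ) (x : M) (f : FundamentalGroup M x ≃* Multiplicative (Fin 4 → ℤ)) (k : ℤ) : Prop :=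
  ∃ a : Fin 4 → Co M 1, Mark x f a ∧
    ev μ (cup (rfl : 2 + 2 = 4) (cup (rfl : 1 + 1 = 2) (a 0) (a 1)) (cup (rfl : 1 + 1 = 2) (a 2) (a 3))) = k

/-- the hyperbolic matrix of rank 6 -/
def Jm : Matrix (Fin 6) (Fin 6) ℤ := Matrix.of fun i j => if (i : ℕ) + 3 = j ∨ (j : ℕ) + 3 = i then 1 else 0

/-- the bilinear form of a matrix -/
def mf {m : ℕ} (E : Matrix (Fin m) (Fin m) ℤ) (x y : Fin m → ℤ) : ℤ := x ⬝ᵥ E.mulVec y

/-- `k` times the Schur complement of `k J` in the Gram matrix `[[k J, X], [X^T, Y]]` -/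
def sch {m : ℕ} (k : ℤ) (X : Matrix (Fin 6) (Fin m) ℤ) (Y : Matrix (Fin m) (Fin m) ℤ) :
    Matrix (Fin m) (Fin m) ℤ := k • Y - X.transpose * Jm * X

end

end Pool.Agent.LibGZ87
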