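import Mathlib

set_option autoImplicit false

/-!
Definitions for MP_405732_gt in elementary terms: integral singular cochains, cocycles, classes modulo torsion, the
cup product, Poincare duality in dimension 4, signature, Euler characteristic, degree over the torus `T^4`.
-/

namespace Pool.Agent.LibGZ87.El

noncomputable section

open Finset

/-- singular `n`-simplices of `M` -/
abbrev Sx (M : Type) [TopologicalSpace M] (n : ℕ) : Type := C(stdSimplex ℝ (Fin (n + 1)), M)

/-- integral singular cochains -/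
abbrev Co (M : Type) [TopologicalSpace M] (n : ℕ) : Type := Sx M n → ℤ

variable {M : Type} [TopologicalSpace M]

/-- the affine map of standard simplices given by a map of the vertices -/
def vmap {m n : ℕ} (f : Fin (m + 1) → Fin (n + 1)) : C(stdSimplex ℝ (Fin (m + 1)), stdSimplex ℝ (Fin (n + 1))) :=
  ⟨stdSimplex.map f, stdSimplex.continuous_map f⟩

/-- restriction of a singular simplex along a map of vertices -/
def re {m n : ℕ} (f : Fin (m + 1) → Fin (n + 1)) (s : Sx M n) : Sx M m := s.comp (vmap f)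

/-- the coboundary `C^n → C^(n+1)` -/
def dl (n : ℕ) (a : Co M n) : Co M (n + 1) := fun s =>
  ∑ i : Fin (n + 2), (-1) ^ (i : ℕ) * a (re i.succAbove s)

/-- cocycles -/
def Cocyc (n : ℕ) (a : Co M n) : Prop := dl n a = 0

/-- coboundaries -/
def Cob : (n : ℕ) → Co M n → Prop
  | 0, a => a = 0
  | n + 1, a => ∃ b : Co M n, dl n b = a

/-- the class of `a` is torsion: a nonzero multiple of `a` is a coboundary -/
def Tors (n : ℕ) (a : Co M n) : Prop := ∃ m : ℤ, m ≠ 0 ∧ Cob n (m • a)

/-- `H^n(M; Z)` modulo torsion is free of rank `r`: there are `r` cocycles whose classes are a basis -/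
def IsBetti (M : Type) [TopologicalSpace M] (n r : ℕ) : Prop :=
  ∃ w : Fin r → Co M n, (∀ i, Cocyc n (w i)) ∧ (∀ c : Fin r → ℤ, Tors n (∑ i, c i • w i) → c = 0) ∧
    ∀ a : Co M n, Cocyc n a → ∃ c : Fin r → ℤ, Tors n (a - ∑ i, c i • w i)

/-- `c` is the Euler characteristic (of a space without rational cohomology above degree 4) -/
def IsChi (M : Type) [TopologicalSpace M] (c : ℤ) : Prop :=
  ∃ r : Fin 5 → ℕ, (∀ n : Fin 5, IsBetti M n (r n)) ∧ c = ∑ n : Fin 5, (-1) ^ (n : ℕ) * (r n : ℤ)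

theorem cup_front {p q n : ℕ} (h : p + q = n) (i : Fin (p + 1)) : (i : ℕ) < n + 1 := by
  omega

theorem cup_back {p q n : ℕ} (h : p + q = n) (i : Fin (q + 1)) : p + (i : ℕ) < n + 1 := by
  omega

/-- the cup product `C^p × C^q → C^n`, `n = p + q` -/
def cup {p q n : ℕ} (h : p + q = n) (a : Co M p) (b : Co M q) : Co M n := fun s =>
  a (re (fun i : Fin (p + 1) => (⟨(i : ℕ), cup_front h i⟩ : Fin (n + 1))) s) *
    b (re (fun i : Fin (q + 1) => (⟨p + (i : ℕ), cup_back h i⟩ : Fin (n + 1))) s)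

/-- evaluation of a cochain on a chain -/
def ev {n : ℕ} (μ : Sx M n →₀ ℤ) (a : Co M n) : ℤ := ∑ s ∈ μ.support, μ s * a s

/-- additive functions on the cocycles which are zero on torsion classes -/
def Functional (n : ℕ) (φ : Co M n → ℤ) : Prop :=
  (∀ a b : Co M n, Cocyc n a → Cocyc n b → φ (a + b) = φ a + φ b) ∧
    ∀ a : Co M n, Cocyc n a → Tors n a → φ a = 0

/-- `μ` is a 4-dimensional fundamental class: `μ` is a cycle, the cohomology modulo torsion is finitely
generated and zero above degree 4, and for `p + q = 4` the cup product pairing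
`H^p/tors × H^q/tors → Z` is perfect. -/
structure PD4 (μ : Sx M 4 →₀ ℤ) : Prop where
  cyc : ∀ b : Co M 3, ev μ (dl 3 b) = 0
  fin : ∀ n : ℕ, ∃ r : ℕ, IsBetti M n r
  top : ∀ n : ℕ, 5 ≤ n → ∀ a : Co M n, Cocyc n a → Tors n a
  dual : ∀ (p q : ℕ) (h : p + q = 4) (φ : Co M p → ℤ), Functional p φ →
    ∃ b : Co M q, Cocyc q b ∧ ∀ a : Co M p, Cocyc p a → φ a = ev μ (cup h a b)
  nondeg : ∀ (p q : ℕ) (h : p + q = 4) (b : Co M q), Cocyc q b →
    (∀ a : Co M p, Cocyc p a → ev μ (cup h a b) = 0) → Tors q b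

/-- the intersection form -/
def lam (μ : Sx M 4 →₀ ℤ) (a b : Co M 2) : ℤ := ev μ (cup (rfl : 2 + 2 = 4) a b)

/-- `u`, `v` are pairwise orthogonal, the `u i` have positive square, the `v j` have negative square -/
structure Orth {L : Type} (B : L → L → ℤ) {p q : ℕ} (u : Fin p → L) (v : Fin q → L) : Prop where
  uu : ∀ i j, i ≠ j → B (u i) (u j) = 0
  vv : ∀ i j, i ≠ j → B (v i) (v j) = 0
  uv : ∀ i j, B (u i) (v j) = 0
  vu : ∀ i j, B (v i) (u j) = 0
  pos : ∀ i, 0 < B (u i) (u i)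
  neg : ∀ j, B (v j) (v j) < 0

/-- `s` is the signature of the intersection form: there are `b_2` pairwise orthogonal classes, `p` of them with
positive and `q` with negative square, `s = p - q` -/
def IsSig (μ : Sx M 4 →₀ ℤ) (s : ℤ) : Prop :=
  ∃ (p q : ℕ) (u : Fin p → Co M 2) (v : Fin q → Co M 2), (∀ i, Cocyc 2 (u i)) ∧ (∀ j, Cocyc 2 (v j)) ∧
    IsBetti M 2 (p + q) ∧ s = (p : ℤ) - q ∧ Orth (lam μ) u v

theorem sx_cont {x y : M} (γ : Path x y) : Continuous fun t : stdSimplex ℝ (Fin (1 + 1)) => γ.extend (t.1 1) :=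
  γ.continuous_extend.comp ((continuous_apply 1).comp continuous_subtype_val)

/-- the singular 1-simplex of a path -/
def sx {x y : M} (γ : Path x y) : Sx M 1 := ⟨fun t => γ.extend (t.1 1), sx_cont γ⟩

/-- the `i`-th coordinate of the class of a loop -/
def coord {x : M} (f : FundamentalGroup M x ≃* Multiplicative (Fin 4 → ℤ)) (γ : Path x x) (i : Fin 4) : ℤ :=
  Multiplicative.toAdd (f (FundamentalGroup.fromPath (Path.Homotopic.Quotient.mk γ))) i

/-- the 1-cocycles `a i` represent the coordinate classes in `H^1(M) = Hom(π_1(M), Z)` of the isomorphism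
`f : π_1(M, x) → Z^4` -/
structure Mark (x : M) (f : FundamentalGroup M x ≃* Multiplicative (Fin 4 → ℤ)) (a : Fin 4 → Co M 1) :
    Prop where
  coc : ∀ i, Cocyc 1 (a i)
  per : ∀ (i : Fin 4) (γ : Path x x), a i (sx γ) = coord f γ i

/-- the degree over the torus: `f_*(μ) = k [T]`, in the form `⟨α_0 α_1 α_2 α_3, μ⟩ = k` -/
def Deg (μ : Sx M 4 →₀ ℤ) (x : M) (f : FundamentalGroup M x ≃* Multiplicative (Fin 4 → ℤ)) (k : ℤ) : Prop :=
  ∃ a : Fin 4 → Co M 1, Mark x f a ∧
    lam μ (cup (rfl : 1 + 1 = 2) (a 0) (a 1)) (cup (rfl : 1 + 1 = 2) (a 2) (a 3)) = k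

end

end Pool.Agent.LibGZ87.El
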