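import Mathlib

set_option autoImplicit false

/-!
[GZ87 G1] MEDIUM/STRONG, ONLY MATHLIB. `∑_n c(n) exp(-π n² ε)` for a periodic `c` as `ε → 0+`. Split `n = r + N l`, `r ∈ range N` (`Int.emod`/`ediv` equivalence, summability by domination with `∑ exp(-π n² ε)`; or write `c = ∑_r c(r) 1_{n ≡ r}`). For fixed `r`:
`∑_l exp(-π ε (r + N l)²) = exp(-π ε r²) ∑_l exp(-π (ε N²) l² + 2 π (- ε r N) l)`, by `Complex.tsum_exp_neg_quadratic` (`Mathlib.Analysis.SpecialFunctions.Gaussian.PoissonSummation`) with `a = ε N²`, `b = - ε r N` this is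
`(1/(N √ε)) exp(-π ε r²) ∑_l exp(-(π/(ε N²)) (l - i ε r N)²) = (1/(N √ε)) (1 + o(1))`: the term `l = 0` is `exp(π ε r²) exp(-π ε r²) = 1`, the others are at most `exp(-π (l² / (ε N²) - ε r²))` in absolute value and their sum tends to 0
(`l² ≥ |l|`, geometric series; or dominated convergence `tendsto_tsum_of_dominated_convergence`).
(Another possibility: `Real.tendsto..` Riemann sums of the Gaussian.)
-/

namespace Pool.Agent.LibGZ87

open Filter Topology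

private theorem G1_summable {ε : ℝ} (hε : 0 < ε) :
    Summable fun n : ℤ => Complex.exp (-(Real.pi : ℂ) * (n : ℂ) ^ 2 * ε) := by
  have h := (summable_jacobiTheta₂_term_iff 0 (Complex.I * ε)).2 (by simpa using hε)
  refine h.congr fun n => ?_
  unfold jacobiTheta₂_term
  congr 1
  rw [mul_zero, zero_add]
  linear_combination ((Real.pi : ℂ) * (n : ℂ) ^ 2 * ε) * Complex.I_mul_I

private theorem G1_sqrt {N : ℕ} (hN : 0 < N) {ε : ℝ} (hε : 0 < ε) :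
    ((ε : ℂ) * (N : ℂ) ^ 2) ^ (1 / 2 : ℂ) = ((Real.sqrt ε : ℝ) : ℂ) * (N : ℂ) := by
  have h1 : ((ε : ℂ) * (N : ℂ) ^ 2) = ((ε * (N : ℝ) ^ 2 : ℝ) : ℂ) := by push_cast; ring
  have h2 : (1 / 2 : ℂ) = ((1 / 2 : ℝ) : ℂ) := by push_cast; ring
  have h3 : (0 : ℝ) < N := by exact_mod_cast hN
  rw [h1, h2, ← Complex.ofReal_cpow (by positivity), ← Real.sqrt_eq_rpow, Real.sqrt_mul hε.le,
    Real.sqrt_sq h3.le]
  push_cast
  ring

/-- Poisson summation for one residue class -/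
private theorem G1_poisson {N : ℕ} (hN : 0 < N) (r : ℕ) {ε : ℝ} (hε : 0 < ε) :
    ((Real.sqrt ε : ℝ) : ℂ) * ∑' l : ℤ,
        Complex.exp (-(Real.pi : ℂ) * ((l * (N : ℤ) + (r : ℤ) : ℤ) : ℂ) ^ 2 * ε) =
      (1 / (N : ℂ)) * ∑' l : ℤ, Complex.exp (2 * Real.pi * Complex.I * l * r / N) *
        Complex.exp (-(Real.pi : ℂ) * (l : ℂ) ^ 2 / (ε * (N : ℂ) ^ 2)) := by
  have hNc : (N : ℂ) ≠ 0 := by exact_mod_cast hN.ne'
  have hεc : (ε : ℂ) ≠ 0 := by exact_mod_cast hε.ne'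
  have hN0 : (0 : ℝ) < N := by exact_mod_cast hN
  have ha : 0 < ((ε : ℂ) * (N : ℂ) ^ 2).re := by
    have h1 : ((ε : ℂ) * (N : ℂ) ^ 2) = ((ε * (N : ℝ) ^ 2 : ℝ) : ℂ) := by push_cast; ring
    rw [h1, Complex.ofReal_re]
    positivity
  have h := Complex.tsum_exp_neg_quadratic ha (-(ε : ℂ) * r * N)
  have hs : ((Real.sqrt ε : ℝ) : ℂ) ≠ 0 := by
    exact_mod_cast (Real.sqrt_pos.2 hε).ne'
  rw [G1_sqrt hN hε] at h
  have e1 : ∀ l : ℤ, Complex.exp (-(Real.pi : ℂ) * ((l * (N : ℤ) + (r : ℤ) : ℤ) : ℂ) ^ 2 * ε) =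
      Complex.exp (-(Real.pi : ℂ) * ε * (r : ℂ) ^ 2) *
        Complex.exp (-(Real.pi : ℂ) * ((ε : ℂ) * (N : ℂ) ^ 2) * (l : ℂ) ^ 2 +
          2 * Real.pi * (-(ε : ℂ) * r * N) * l) := by
    intro l
    rw [← Complex.exp_add]
    congr 1
    push_cast
    ring
  have e2 : ∀ l : ℤ, Complex.exp (-(Real.pi : ℂ) / ((ε : ℂ) * (N : ℂ) ^ 2) *
        ((l : ℂ) + Complex.I * (-(ε : ℂ) * r * N)) ^ 2) =
      Complex.exp ((Real.pi : ℂ) * ε * (r : ℂ) ^ 2) *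
        (Complex.exp (2 * Real.pi * Complex.I * l * r / N) *
        Complex.exp (-(Real.pi : ℂ) * (l : ℂ) ^ 2 / (ε * (N : ℂ) ^ 2))) := by
    intro l
    rw [← Complex.exp_add, ← Complex.exp_add]
    congr 1
    field_simp
    ring_nf
    rw [Complex.I_sq]
    ring
  simp_rw [e1, tsum_mul_left]
  rw [h]
  simp_rw [e2, tsum_mul_left]
  have e3 : Complex.exp (-(Real.pi : ℂ) * ε * (r : ℂ) ^ 2) *
      Complex.exp ((Real.pi : ℂ) * ε * (r : ℂ) ^ 2) = 1 := by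
    rw [← Complex.exp_add]
    have : -(Real.pi : ℂ) * ε * (r : ℂ) ^ 2 + (Real.pi : ℂ) * ε * (r : ℂ) ^ 2 = 0 := by ring
    rw [this, Complex.exp_zero]
  set S := ∑' l : ℤ, Complex.exp (2 * Real.pi * Complex.I * l * r / N) *
        Complex.exp (-(Real.pi : ℂ) * (l : ℂ) ^ 2 / (ε * (N : ℂ) ^ 2)) with hS
  have e4 : ((Real.sqrt ε : ℝ) : ℂ) * (Complex.exp (-(Real.pi : ℂ) * ε * (r : ℂ) ^ 2) *
      (1 / (((Real.sqrt ε : ℝ) : ℂ) * (N : ℂ)) * (Complex.exp ((Real.pi : ℂ) * ε * (r : ℂ) ^ 2) * S))) =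
      (((Real.sqrt ε : ℝ) : ℂ) * (1 / (((Real.sqrt ε : ℝ) : ℂ) * (N : ℂ)))) *
      (Complex.exp (-(Real.pi : ℂ) * ε * (r : ℂ) ^ 2) *
      Complex.exp ((Real.pi : ℂ) * ε * (r : ℂ) ^ 2)) * S := by ring
  rw [e4, e3]
  field_simp

private theorem G1_norm {N : ℕ} (r : ℕ) (ε : ℝ) (l : ℤ) :
    ‖Complex.exp (2 * Real.pi * Complex.I * l * r / N) *
        Complex.exp (-(Real.pi : ℂ) * (l : ℂ) ^ 2 / (ε * (N : ℂ) ^ 2))‖ =
      Real.exp (-Real.pi * (l : ℝ) ^ 2 / (ε * (N : ℝ) ^ 2)) := by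
  rw [norm_mul]
  have h1 : (2 * Real.pi * Complex.I * l * r / N : ℂ) = ((2 * Real.pi * l * r / N : ℝ) : ℂ) * Complex.I := by
    push_cast
    ring
  have h2 : (-(Real.pi : ℂ) * (l : ℂ) ^ 2 / (ε * (N : ℂ) ^ 2)) =
      ((-Real.pi * (l : ℝ) ^ 2 / (ε * (N : ℝ) ^ 2) : ℝ) : ℂ) := by
    push_cast
    ring
  rw [h1, Complex.norm_exp_ofReal_mul_I, one_mul, h2, Complex.norm_exp_ofReal]

private theorem G1_class {N : ℕ} (hN : 0 < N) (r : ℕ) :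
    Tendsto (fun ε : ℝ => ((Real.sqrt ε : ℝ) : ℂ) * ∑' l : ℤ,
        Complex.exp (-(Real.pi : ℂ) * ((l * (N : ℤ) + (r : ℤ) : ℤ) : ℂ) ^ 2 * ε))
      (𝓝[>] 0) (𝓝 (1 / (N : ℂ))) := by
  have hN0 : (0 : ℝ) < N := by exact_mod_cast hN
  have key : Tendsto (fun ε : ℝ => ∑' l : ℤ, Complex.exp (2 * Real.pi * Complex.I * l * r / N) *
        Complex.exp (-(Real.pi : ℂ) * (l : ℂ) ^ 2 / (ε * (N : ℂ) ^ 2)))
      (𝓝[>] 0) (𝓝 (∑' l : ℤ, if l = 0 then (1 : ℂ) else 0)) := by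
    refine tendsto_tsum_of_dominated_convergence
      (bound := fun l : ℤ => Real.exp (-Real.pi * (l : ℝ) ^ 2 / (N : ℝ) ^ 2)) ?_ ?_ ?_
    · have h := (G1_summable (ε := 1 / (N : ℝ) ^ 2) (by positivity)).norm
      refine h.congr fun l => ?_
      have h2 : (-(Real.pi : ℂ) * (l : ℂ) ^ 2 * ((1 / (N : ℝ) ^ 2 : ℝ) : ℂ)) =
          ((-Real.pi * (l : ℝ) ^ 2 / (N : ℝ) ^ 2 : ℝ) : ℂ) := by
        push_cast
        ring
      rw [h2, Complex.norm_exp_ofReal]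
    · intro l
      by_cases hl : l = 0
      · subst hl
        simp
      · rw [if_neg hl, tendsto_zero_iff_norm_tendsto_zero]
        simp_rw [G1_norm]
        have hl2 : (0 : ℝ) < (l : ℝ) ^ 2 := by
          have : (l : ℝ) ≠ 0 := by exact_mod_cast hl
          positivity
        refine Real.tendsto_exp_atBot.comp ?_
        have h3 : ∀ ε : ℝ, -Real.pi * (l : ℝ) ^ 2 / (ε * (N : ℝ) ^ 2) =
            -(Real.pi * (l : ℝ) ^ 2 / (N : ℝ) ^ 2 * ε⁻¹) := by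
          intro ε
          rw [div_eq_mul_inv, mul_inv]
          ring
        simp_rw [h3]
        refine tendsto_neg_atTop_atBot.comp ?_
        refine Tendsto.const_mul_atTop (by positivity) tendsto_inv_nhdsGT_zero
    · have hm : Set.Ioc (0 : ℝ) 1 ∈ 𝓝[>] (0 : ℝ) := Ioc_mem_nhdsGT one_pos
      filter_upwards [hm] with ε hε l
      rw [G1_norm]
      refine Real.exp_le_exp.2 ?_
      rw [neg_mul, neg_div, neg_div]
      refine neg_le_neg ?_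
      refine div_le_div_of_nonneg_left (by positivity) (mul_pos hε.1 (by positivity)) ?_
      have : (0 : ℝ) < (N : ℝ) ^ 2 := by positivity
      nlinarith [hε.2]
  rw [tsum_ite_eq] at key
  have h2 := key.const_mul (1 / (N : ℂ))
  rw [mul_one] at h2
  refine h2.congr' ?_
  filter_upwards [self_mem_nhdsWithin] with ε hε
  exact (G1_poisson hN r hε).symm

private theorem G1_split {N : ℕ} [NeZero N] (g : ℤ → ℂ) (c : ℤ → ℂ)
    (hcl : ∀ (l : ℤ) (r : Fin N), c (l * (N : ℤ) + ((r : ℕ) : ℤ)) = c ((r : ℕ) : ℤ))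
    (hgr : ∀ r : Fin N, Summable fun l : ℤ => g (l * (N : ℤ) + ((r : ℕ) : ℤ))) :
    ∑' n : ℤ, c n * g n =
      ∑ r : Fin N, c ((r : ℕ) : ℤ) * ∑' l : ℤ, g (l * (N : ℤ) + ((r : ℕ) : ℤ)) := by
  let F : Fin N × ℤ → ℂ := fun q => c ((q.1 : ℕ) : ℤ) * g (q.2 * (N : ℤ) + ((q.1 : ℕ) : ℤ))
  have hs2 : Summable F := by
    refine Summable.of_norm ?_
    rw [summable_prod_of_nonneg fun _ => norm_nonneg _]
    exact ⟨fun r => ((hgr r).mul_left (c ((r : ℕ) : ℤ))).norm, Summable.of_finite⟩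
  have e3 : ∀ r : Fin N, ∑' l : ℤ, F (r, l) =
      c ((r : ℕ) : ℤ) * ∑' l : ℤ, g (l * (N : ℤ) + ((r : ℕ) : ℤ)) := by
    intro r
    change ∑' l : ℤ, c ((r : ℕ) : ℤ) * g (l * (N : ℤ) + ((r : ℕ) : ℤ)) = _
    exact tsum_mul_left
  have e2 : ∑' q, F q =
      ∑ r : Fin N, c ((r : ℕ) : ℤ) * ∑' l : ℤ, g (l * (N : ℤ) + ((r : ℕ) : ℤ)) := by
    rw [hs2.tsum_prod, tsum_fintype]
    exact Finset.sum_congr rfl fun r _ => e3 r
  rw [← e2, ← ((Equiv.prodComm (Fin N) ℤ).trans (Int.divModEquiv N).symm).tsum_eq]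
  refine tsum_congr fun q => ?_
  change c (q.2 * (N : ℤ) + ((q.1 : ℕ) : ℤ)) * g (q.2 * (N : ℤ) + ((q.1 : ℕ) : ℤ)) =
    c ((q.1 : ℕ) : ℤ) * g (q.2 * (N : ℤ) + ((q.1 : ℕ) : ℤ))
  rw [hcl]

theorem periodic_limit (N : ℕ) (hN : 0 < N) (c : ℤ → ℂ) (hc : ∀ n, c (n + N) = c n) :
    Tendsto (fun ε : ℝ => ((Real.sqrt ε : ℝ) : ℂ) * ∑' n : ℤ, c n * Complex.exp (-(Real.pi : ℂ) * (n : ℂ) ^ 2 * ε))
      (𝓝[>] 0) (𝓝 ((1 / (N : ℂ)) * ∑ r ∈ Finset.range N, c r)) := by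
  have hNz : NeZero N := ⟨hN.ne'⟩
  have hper : Function.Periodic c (N : ℤ) := hc
  have hcl : ∀ (l : ℤ) (r : Fin N), c (l * (N : ℤ) + ((r : ℕ) : ℤ)) = c ((r : ℕ) : ℤ) := by
    intro l r
    rw [add_comm]
    exact hper.int_mul l _
  have hlim := tendsto_finsetSum (Finset.univ : Finset (Fin N)) fun r _ =>
    (G1_class hN (r : ℕ)).const_mul (c ((r : ℕ) : ℤ))
  have e0 : (1 / (N : ℂ)) * ∑ r ∈ Finset.range N, c r =
      ∑ r : Fin N, c ((r : ℕ) : ℤ) * (1 / (N : ℂ)) := by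
    rw [Finset.sum_range fun r => c (r : ℤ), Finset.mul_sum]
    exact Finset.sum_congr rfl fun r _ => mul_comm _ _
  rw [e0]
  refine hlim.congr' ?_
  filter_upwards [self_mem_nhdsWithin] with ε hε
  have hε' : (0 : ℝ) < ε := hε
  have hg := G1_summable hε'
  have hgr : ∀ r : Fin N, Summable fun l : ℤ =>
      (fun n : ℤ => Complex.exp (-(Real.pi : ℂ) * (n : ℂ) ^ 2 * ε)) (l * (N : ℤ) + ((r : ℕ) : ℤ)) := by
    intro r
    refine hg.comp_injective (i := fun l : ℤ => l * (N : ℤ) + ((r : ℕ) : ℤ)) ?_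
    intro a b hab
    have h1 : a * (N : ℤ) = b * (N : ℤ) := add_right_cancel hab
    exact mul_right_cancel₀ (by exact_mod_cast hN.ne') h1
  have e1 := G1_split (fun n : ℤ => Complex.exp (-(Real.pi : ℂ) * (n : ℂ) ^ 2 * ε)) c hcl hgr
  rw [e1, Finset.mul_sum]
  refine Finset.sum_congr rfl fun r _ => ?_
  exact mul_left_comm _ _ _

end Pool.Agent.LibGZ87
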