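import Pool.Agent.LibGZ87.G1

set_option autoImplicit false

/-!
[GZ87 G2] STRONG, Mathlib + G1. Landsberg-Schaar: the quadratic Gauss sum. `c n = exp(π i n² / (2a))` has period `2a` (`(n + 2a)² = n² + 4 a n + 4 a²`). `G1`: `√ε ∑_n exp(-π n² A) → S/(2a)`, `A = ε - i/(2a)`, `S` = the sum. `Complex.tsum_exp_neg_quadratic` with `b = 0`
(or `Complex.tsum_exp_neg_mul_int_sq`): `∑_n exp(-π A n²) = A^(-1/2) ∑_n exp(-(π/A) n²)`, `1/A = ε' (1 - 2 a ε i) + 2 a i`, `ε' = 4a²ε/(1 + 4a²ε²)`, and `exp(-π n² 2 a i) = 1` (`2a` even), so the sum is `∑_n exp(-π n² ε' (1 - 2 a ε i))`, again by the functional equation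
`= (ε' (1 - 2aεi))^(-1/2) (1 + o(1))` (all terms `n ≠ 0` of `∑ exp(-π n² / (ε' (1 - 2aεi)))` are exponentially small). So `S/(2a) = lim √ε A^(-1/2) (ε')^(-1/2) = (-i/(2a))^(-1/2) / (2a)`, `S = (-i/(2a))^(-1/2) = √(2a) exp(π i/4)` (principal branch, `Complex.cpow` continuous at `-i/(2a)`).
`a = 1`: `1 + i = √2 exp(π i/4)`.  Any other proof (e.g. Schur's determinant or Dirichlet's Fourier series) is welcome.
-/

namespace Pool.Agent.LibGZ87

open Filter Topology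

private theorem theta_one (N : ℝ) (hN : 0 < N) :
    Tendsto (fun ε : ℝ => ∑' n : ℤ, Complex.exp (-(Real.pi : ℂ) * (1 / ((N : ℂ) ^ 2 * ε) + Complex.I / N) * (n : ℂ) ^ 2))
      (𝓝[>] 0) (𝓝 1) := by
  have hpi := Real.pi_pos
  have hre : ∀ (ε : ℝ) (n : ℤ), (-(Real.pi : ℂ) * (1 / ((N : ℂ) ^ 2 * ε) + Complex.I / N) * (n : ℂ) ^ 2).re =
      (-(Real.pi * (n : ℝ) ^ 2 / N ^ 2)) * ε⁻¹ := by
    intro ε n
    have : (-(Real.pi : ℂ) * (1 / ((N : ℂ) ^ 2 * ε) + Complex.I / N) * (n : ℂ) ^ 2) =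
        (((-(Real.pi * (n : ℝ) ^ 2 / N ^ 2)) * ε⁻¹ : ℝ) : ℂ) + ((-(Real.pi * (n : ℝ) ^ 2 / N) : ℝ) : ℂ) * Complex.I := by
      push_cast
      have hN' : (N : ℂ) ≠ 0 := by exact_mod_cast hN.ne'
      rw [one_div, mul_inv]
      field_simp
      try ring
    rw [this, Complex.add_re, Complex.ofReal_re, Complex.re_ofReal_mul, Complex.I_re, mul_zero, add_zero]
  have h1 : ∑' n : ℤ, (if n = 0 then (1 : ℂ) else 0) = 1 := tsum_ite_eq 0 _
  rw [show (𝓝 (1 : ℂ)) = 𝓝 (∑' n : ℤ, (if n = 0 then (1 : ℂ) else 0)) by rw [h1]]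
  have hT : 0 < 1 / N ^ 2 := by positivity
  refine tendsto_tsum_of_dominated_convergence (summable_pow_mul_jacobiTheta₂_term_bound 0 hT 0) ?_ ?_
  · intro n
    by_cases hn : n = 0
    · subst hn
      simp
    · rw [if_neg hn, Complex.tendsto_exp_nhds_zero_iff]
      simp only [hre]
      apply Filter.Tendsto.const_mul_atTop_of_neg _ tendsto_inv_nhdsGT_zero
      have : (0 : ℝ) < (n : ℝ) ^ 2 := by positivity
      have : (0 : ℝ) < Real.pi * (n : ℝ) ^ 2 / N ^ 2 := by positivity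
      linarith
  · have h2 : ∀ᶠ ε : ℝ in 𝓝[>] 0, 0 < ε ∧ ε < 1 := by
      filter_upwards [Ioo_mem_nhdsGT (show (0 : ℝ) < 1 by norm_num)] with ε hε
      exact hε
    filter_upwards [h2] with ε hε n
    rw [Complex.norm_exp, hre, pow_zero, one_mul]
    apply Real.exp_le_exp.2
    have h3 : 1 ≤ ε⁻¹ := (one_le_inv₀ hε.1).2 hε.2.le
    have h4 : 0 ≤ Real.pi * (n : ℝ) ^ 2 / N ^ 2 := by positivity
    have h5 : Real.pi * (n : ℝ) ^ 2 / N ^ 2 ≤ Real.pi * (n : ℝ) ^ 2 / N ^ 2 * ε⁻¹ := le_mul_of_one_le_right h4 h3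
    have h6 : -Real.pi * (1 / N ^ 2 * (n : ℝ) ^ 2 - 2 * 0 * |(n : ℝ)|) = -(Real.pi * (n : ℝ) ^ 2 / N ^ 2) := by ring
    have h7 : -(Real.pi * (n : ℝ) ^ 2 / N ^ 2) * ε⁻¹ = -(Real.pi * (n : ℝ) ^ 2 / N ^ 2 * ε⁻¹) := by ring
    have h8 : -Real.pi * (1 / N ^ 2 * (n : ℝ) ^ 2 - 2 * 0 * ((|n| : ℤ) : ℝ)) = -(Real.pi * (n : ℝ) ^ 2 / N ^ 2) := by ring
    rw [h7]
    first
      | (rw [h6]; linarith)
      | (rw [h8]; linarith)

private theorem sqrt_cpow (ε : ℝ) (hε : 0 < ε) (z : ℂ) (hz : z ≠ 0) :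
    ((ε : ℂ) * z) ^ (1 / 2 : ℂ) = ((Real.sqrt ε : ℝ) : ℂ) * z ^ (1 / 2 : ℂ) := by
  have hε' : (ε : ℂ) ≠ 0 := by exact_mod_cast hε.ne'
  rw [Complex.cpow_def_of_ne_zero (mul_ne_zero hε' hz), Complex.cpow_def_of_ne_zero hz, Complex.log_ofReal_mul hε hz,
    add_mul, Complex.exp_add]
  congr 1
  have h1 : Real.sqrt ε = Real.exp (Real.log ε * (1 / 2)) := by
    rw [Real.sqrt_eq_rpow, Real.rpow_def_of_pos hε]
  rw [h1]
  push_cast
  rfl

theorem gauss (a : ℕ) (ha : 0 < a) :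
    ∑ r ∈ Finset.range (2 * a), Complex.exp ((Real.pi : ℂ) * Complex.I * (r : ℂ) ^ 2 / (2 * (a : ℂ))) =
      ((Real.sqrt (2 * (a : ℝ)) : ℝ) : ℂ) * Complex.exp ((Real.pi : ℂ) * Complex.I / 4) := by
  have hpi := Real.pi_pos
  have ha' : (a : ℂ) ≠ 0 := by exact_mod_cast ha.ne'
  set N : ℝ := 2 * (a : ℝ) with hN
  have haR : (0 : ℝ) < a := by exact_mod_cast ha
  have hN0 : 0 < N := by positivity
  have hNc : (N : ℂ) = 2 * (a : ℂ) := by rw [hN]; push_cast; rfl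
  have hN' : (N : ℂ) ≠ 0 := by exact_mod_cast hN0.ne'
  have hper : ∀ n : ℤ, Complex.exp ((Real.pi : ℂ) * Complex.I * ((n + ((2 * a : ℕ) : ℤ) : ℤ) : ℂ) ^ 2 / (2 * (a : ℂ))) =
      Complex.exp ((Real.pi : ℂ) * Complex.I * (n : ℂ) ^ 2 / (2 * (a : ℂ))) := by
    intro n
    rw [Complex.exp_eq_exp_iff_exists_int]
    refine ⟨n + a, ?_⟩
    push_cast
    field_simp
    ring
  have h1 := periodic_limit (2 * a) (by omega) (fun n : ℤ => Complex.exp ((Real.pi : ℂ) * Complex.I * (n : ℂ) ^ 2 / (2 * (a : ℂ)))) hper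
  -- the functional equation twice
  have h2 : ∀ ε : ℝ, 0 < ε → ((Real.sqrt ε : ℝ) : ℂ) * ∑' n : ℤ, Complex.exp ((Real.pi : ℂ) * Complex.I * (n : ℂ) ^ 2 / (2 * (a : ℂ))) *
      Complex.exp (-(Real.pi : ℂ) * (n : ℂ) ^ 2 * ε) =
      1 / ((ε : ℂ) - Complex.I / N) ^ (1 / 2 : ℂ) * (1 / ((N : ℂ) ^ 2 / (1 + N * ε * Complex.I)) ^ (1 / 2 : ℂ)) *
        ∑' n : ℤ, Complex.exp (-(Real.pi : ℂ) * (1 / ((N : ℂ) ^ 2 * ε) + Complex.I / N) * (n : ℂ) ^ 2) := by
    intro ε hε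
    have hε' : (ε : ℂ) ≠ 0 := by exact_mod_cast hε.ne'
    set A : ℂ := (ε : ℂ) - Complex.I / N with hA
    have hAre : A.re = ε := by
      have : A = ((ε : ℝ) : ℂ) + (((-(1 / N)) : ℝ) : ℂ) * Complex.I := by
        rw [hA]; push_cast; ring
      rw [this]; simp
    have hden : (1 + N * ε * Complex.I : ℂ) ≠ 0 := by
      intro h
      have := congrArg Complex.re h
      simp at this
    set z : ℂ := (N : ℂ) ^ 2 / (1 + N * ε * Complex.I) with hz
    have hz0 : z ≠ 0 := div_ne_zero (pow_ne_zero _ hN') hden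
    set B : ℂ := (ε : ℂ) * z with hB
    have hB0 : B ≠ 0 := mul_ne_zero hε' hz0
    have hBinv : 1 / B = 1 / ((N : ℂ) ^ 2 * ε) + Complex.I / N := by
      rw [hB, hz]
      field_simp
      try ring
    have hA0 : A ≠ 0 := by
      intro h
      rw [h] at hAre
      simp at hAre
      exact hε.ne hAre
    have hAB : 1 / A = B + 2 * (a : ℂ) * Complex.I := by
      have e0 : B * (1 + N * ε * Complex.I) = ε * (N : ℂ) ^ 2 := by
        rw [hB, hz, mul_assoc, div_mul_cancel₀ _ hden]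
      have e2 : (B + N * Complex.I) * (1 + N * ε * Complex.I) = N * Complex.I := by
        rw [add_mul, e0]
        linear_combination ((N : ℂ) ^ 2 * ε) * Complex.I_sq
      have e4 : (N : ℂ) * (Complex.I / N) = Complex.I := by field_simp
      have e3 : (N : ℂ) * Complex.I * A = 1 + N * ε * Complex.I := by
        rw [hA]
        linear_combination (-Complex.I) * e4 - Complex.I_sq
      rw [← hNc, one_div]
      apply inv_eq_of_mul_eq_one_right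
      apply mul_right_cancel₀ hden
      rw [mul_assoc, e2, one_mul, mul_comm, e3]
    have hBre : 0 < B.re := by
      have h3 : B.re = ((1 / B)⁻¹).re := by rw [one_div, inv_inv]
      have h4 : 0 < (1 / B).re := by
        have : 1 / B = ((1 / (N ^ 2 * ε) : ℝ) : ℂ) + (((1 / N : ℝ)) : ℂ) * Complex.I := by
          rw [hBinv]; push_cast; ring
        rw [this]
        simp only [Complex.add_re, Complex.ofReal_re, Complex.mul_re, Complex.I_re, mul_zero, Complex.ofReal_im,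
          Complex.I_im, mul_one, sub_self, add_zero]
        positivity
      have h5 : 1 / B ≠ 0 := by
        intro h
        rw [h] at h4
        simp at h4
      rw [h3, Complex.inv_re]
      exact div_pos h4 (Complex.normSq_pos.2 h5)
    have h6 : ∀ n : ℤ, Complex.exp ((Real.pi : ℂ) * Complex.I * (n : ℂ) ^ 2 / (2 * (a : ℂ))) *
        Complex.exp (-(Real.pi : ℂ) * (n : ℂ) ^ 2 * ε) = Complex.exp (-(Real.pi : ℂ) * A * (n : ℂ) ^ 2) := by
      intro n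
      rw [← Complex.exp_add]
      congr 1
      rw [hA, ← hNc]
      field_simp
      try ring
    have h7 : ∀ n : ℤ, Complex.exp (-(Real.pi : ℂ) / A * (n : ℂ) ^ 2) = Complex.exp (-(Real.pi : ℂ) * B * (n : ℂ) ^ 2) := by
      intro n
      rw [Complex.exp_eq_exp_iff_exists_int]
      refine ⟨-(a * n ^ 2), ?_⟩
      have : -(Real.pi : ℂ) / A = -(Real.pi : ℂ) * (1 / A) := by ring
      rw [this, hAB]
      push_cast
      ring
    have h8 : ∀ n : ℤ, Complex.exp (-(Real.pi : ℂ) / B * (n : ℂ) ^ 2) =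
        Complex.exp (-(Real.pi : ℂ) * (1 / ((N : ℂ) ^ 2 * ε) + Complex.I / N) * (n : ℂ) ^ 2) := by
      intro n
      congr 1
      rw [← hBinv]
      ring
    simp only [h6]
    rw [Complex.tsum_exp_neg_mul_int_sq (by rw [hAre]; exact hε)]
    simp only [h7]
    rw [Complex.tsum_exp_neg_mul_int_sq hBre]
    simp only [h8]
    have h9 : B ^ (1 / 2 : ℂ) = ((Real.sqrt ε : ℝ) : ℂ) * z ^ (1 / 2 : ℂ) := sqrt_cpow ε hε z hz0
    rw [h9]
    have h10 : ((Real.sqrt ε : ℝ) : ℂ) ≠ 0 := by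
      exact_mod_cast (Real.sqrt_pos.2 hε).ne'
    have h11 : ∀ (x s : ℂ), ((Real.sqrt ε : ℝ) : ℂ) * (x * (1 / (((Real.sqrt ε : ℝ) : ℂ) * z ^ (1 / 2 : ℂ)) * s)) =
        x * (1 / z ^ (1 / 2 : ℂ)) * s := by
      intro x s
      rw [one_div, mul_inv]
      have : ((Real.sqrt ε : ℝ) : ℂ) * (x * ((((Real.sqrt ε : ℝ) : ℂ))⁻¹ * (z ^ (1 / 2 : ℂ))⁻¹ * s)) =
          (((Real.sqrt ε : ℝ) : ℂ) * (((Real.sqrt ε : ℝ) : ℂ))⁻¹) * (x * ((z ^ (1 / 2 : ℂ))⁻¹ * s)) := by ring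
      rw [this, mul_inv_cancel₀ h10, one_mul, one_div]
      ring
    rw [h11]
  have h3 : Tendsto (fun ε : ℝ => 1 / ((ε : ℂ) - Complex.I / N) ^ (1 / 2 : ℂ) * (1 / ((N : ℂ) ^ 2 / (1 + N * ε * Complex.I)) ^ (1 / 2 : ℂ)) *
        ∑' n : ℤ, Complex.exp (-(Real.pi : ℂ) * (1 / ((N : ℂ) ^ 2 * ε) + Complex.I / N) * (n : ℂ) ^ 2)) (𝓝[>] 0)
        (𝓝 (1 / (-Complex.I / N) ^ (1 / 2 : ℂ) * (1 / ((N : ℂ) ^ 2) ^ (1 / 2 : ℂ)) * 1)) := by
    have hs1 : (-Complex.I / N : ℂ) ∈ Complex.slitPlane := by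
      have : (-Complex.I / N : ℂ) = (((-(1 / N)) : ℝ) : ℂ) * Complex.I := by push_cast; ring
      rw [this, Complex.mem_slitPlane_iff]
      right
      simp only [Complex.mul_im, Complex.ofReal_re, Complex.I_im, mul_one, Complex.ofReal_im, Complex.I_re, mul_zero, add_zero]
      have : 0 < 1 / N := by positivity
      linarith
    have hs2 : ((N : ℂ) ^ 2) ∈ Complex.slitPlane := by
      have : ((N : ℂ) ^ 2) = ((N ^ 2 : ℝ) : ℂ) := by push_cast; rfl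
      rw [this, Complex.mem_slitPlane_iff]
      left
      rw [Complex.ofReal_re]
      positivity
    have hne : ∀ z : ℂ, z ∈ Complex.slitPlane → z ^ (1 / 2 : ℂ) ≠ 0 := by
      intro z hz
      rw [Complex.cpow_def_of_ne_zero (Complex.slitPlane_ne_zero hz)]
      exact Complex.exp_ne_zero _
    have c1 : Tendsto (fun ε : ℝ => (ε : ℂ) - Complex.I / N) (𝓝[>] 0) (𝓝 (-Complex.I / N)) := by
      have : ContinuousAt (fun ε : ℝ => (ε : ℂ) - Complex.I / N) 0 := by fun_prop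
      have h := this.tendsto.mono_left (nhdsWithin_le_nhds (s := Set.Ioi 0))
      have e : ((0 : ℝ) : ℂ) - Complex.I / N = -Complex.I / N := by push_cast; ring
      rw [e] at h
      exact h
    have c2 : Tendsto (fun ε : ℝ => (N : ℂ) ^ 2 / (1 + N * ε * Complex.I)) (𝓝[>] 0) (𝓝 ((N : ℂ) ^ 2)) := by
      have : ContinuousAt (fun ε : ℝ => (N : ℂ) ^ 2 / (1 + N * ε * Complex.I)) 0 := by
        apply ContinuousAt.div
        · fun_prop
        · fun_prop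
        · simp
      have h := this.tendsto.mono_left (nhdsWithin_le_nhds (s := Set.Ioi 0))
      have e : (N : ℂ) ^ 2 / (1 + N * ((0 : ℝ) : ℂ) * Complex.I) = (N : ℂ) ^ 2 := by simp
      rw [e] at h
      exact h
    have d1 := ((continuousAt_cpow_const (b := (1 / 2 : ℂ)) hs1).tendsto.comp c1)
    have d2 := ((continuousAt_cpow_const (b := (1 / 2 : ℂ)) hs2).tendsto.comp c2)
    exact ((tendsto_const_nhds.div d1 (hne _ hs1)).mul (tendsto_const_nhds.div d2 (hne _ hs2))).mul (theta_one N hN0)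
  have h4 : Tendsto (fun ε : ℝ => ((Real.sqrt ε : ℝ) : ℂ) * ∑' n : ℤ, Complex.exp ((Real.pi : ℂ) * Complex.I * (n : ℂ) ^ 2 / (2 * (a : ℂ))) *
      Complex.exp (-(Real.pi : ℂ) * (n : ℂ) ^ 2 * ε)) (𝓝[>] 0)
        (𝓝 (1 / (-Complex.I / N) ^ (1 / 2 : ℂ) * (1 / ((N : ℂ) ^ 2) ^ (1 / 2 : ℂ)) * 1)) := by
    refine h3.congr' ?_
    filter_upwards [self_mem_nhdsWithin] with ε hε
    exact (h2 ε hε).symm
  have h5 := tendsto_nhds_unique h1 h4
  have h6 : ((N : ℂ) ^ 2) ^ (1 / 2 : ℂ) = N := by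
    rw [one_div]
    exact Complex.sq_cpow_two_inv (by rw [Complex.ofReal_re]; exact hN0)
  have hNI : (-Complex.I) ≠ 0 := neg_ne_zero.2 Complex.I_ne_zero
  have h7 : (-Complex.I / N : ℂ) ^ (1 / 2 : ℂ) = ((Real.sqrt N : ℝ) : ℂ)⁻¹ * Complex.exp (-((Real.pi : ℂ) * Complex.I / 4)) := by
    have e1 : (-Complex.I / N : ℂ) = ((N⁻¹ : ℝ) : ℂ) * (-Complex.I) := by push_cast; ring
    rw [e1, sqrt_cpow _ (inv_pos.2 hN0) _ hNI, Real.sqrt_inv, Complex.cpow_def_of_ne_zero hNI, Complex.log_neg_I]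
    push_cast
    congr 2
    ring
  have h8 : ((Real.sqrt N : ℝ) : ℂ) ≠ 0 := by
    exact_mod_cast (Real.sqrt_pos.2 hN0).ne'
  rw [h6, h7, mul_one] at h5
  have h9 : (1 : ℂ) / (((Real.sqrt N : ℝ) : ℂ)⁻¹ * Complex.exp (-((Real.pi : ℂ) * Complex.I / 4))) =
      ((Real.sqrt N : ℝ) : ℂ) * Complex.exp ((Real.pi : ℂ) * Complex.I / 4) := by
    rw [one_div, mul_inv, inv_inv, ← Complex.exp_neg, neg_neg]
  rw [h9] at h5
  have h10 : ((2 * a : ℕ) : ℂ) = N := by rw [hNc]; push_cast; rfl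
  rw [h10] at h5
  have h11 := congrArg (fun x => (N : ℂ) * x) h5
  rw [← mul_assoc, mul_one_div_cancel hN', one_mul] at h11
  have h12 : (N : ℂ) * (((Real.sqrt N : ℝ) : ℂ) * Complex.exp ((Real.pi : ℂ) * Complex.I / 4) * (1 / (N : ℂ))) =
      ((Real.sqrt N : ℝ) : ℂ) * Complex.exp ((Real.pi : ℂ) * Complex.I / 4) := by
    field_simp
  rw [h12] at h11
  simpa using h11

end Pool.Agent.LibGZ87
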