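import Pool.Agent.LibGZ87.G2

set_option autoImplicit false

/-!
[GZ87 G3] SHORT/MEDIUM. `gauss_K`: the summand is periodic modulo `2 |a|`, `K = 2 |a| l`: the sum over `range K` is `l` times the sum over `range (2 |a|)` (`Finset.sum_range`, `Nat` division, or induction on `l` with `Finset.sum_range_add`..); `a < 0`: complex conjugate of the sum for `|a|`.
`gauss_prod`: `exp` of the sum is the product, `Finset.prod_univ_sum` (`∏ ∑ = ∑ over Fintype.piFinset ∏`), `gauss_K` for every `i`, `∏ exp = exp ∑`.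
-/

namespace Pool.Agent.LibGZ87

private theorem G3_range (f : ℕ → ℂ) (N : ℕ) (hf : ∀ r l : ℕ, f (N * l + r) = f r) (l : ℕ) :
    ∑ r ∈ Finset.range (N * l), f r = (l : ℂ) * ∑ r ∈ Finset.range N, f r := by
  induction l with
  | zero => simp
  | succ l ih =>
    rw [Nat.mul_succ, Finset.sum_range_add, ih, Finset.sum_congr rfl fun r _ => hf r l]
    push_cast
    ring

private theorem G3_pos (α : ℕ) (hα : 0 < α) (l : ℕ) :
    ∑ r ∈ Finset.range (2 * α * l), Complex.exp ((Real.pi : ℂ) * Complex.I * ((r : ℂ) ^ 2 / (2 * (α : ℂ)))) =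
      (l : ℂ) * (((Real.sqrt (2 * (α : ℝ)) : ℝ) : ℂ) * Complex.exp ((Real.pi : ℂ) * Complex.I / 4)) := by
  have hα0 : (α : ℂ) ≠ 0 := Nat.cast_ne_zero.2 hα.ne'
  rw [G3_range (fun r => Complex.exp ((Real.pi : ℂ) * Complex.I * ((r : ℂ) ^ 2 / (2 * (α : ℂ)))))]
  · rw [← gauss α hα]
    congr 1
    refine Finset.sum_congr rfl fun r _ => ?_
    congr 1
    ring
  · intro r l
    have h1 : (Real.pi : ℂ) * Complex.I * (((2 * α * l + r : ℕ) : ℂ) ^ 2 / (2 * (α : ℂ))) =
        (Real.pi : ℂ) * Complex.I * ((r : ℂ) ^ 2 / (2 * (α : ℂ))) +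
          ((α * l ^ 2 + l * r : ℤ) : ℂ) * (2 * (Real.pi : ℂ) * Complex.I) := by
      push_cast
      field_simp
      ring
    show Complex.exp ((Real.pi : ℂ) * Complex.I * (((2 * α * l + r : ℕ) : ℂ) ^ 2 / (2 * (α : ℂ)))) = _
    rw [h1, Complex.exp_add, Complex.exp_int_mul_two_pi_mul_I, mul_one]

theorem gauss_K (a : ℤ) (ha : a ≠ 0) (K : ℕ) (hK : 0 < K) (hd : 2 * a ∣ (K : ℤ)) : ∃ c : ℝ, 0 < c ∧
    ∑ r ∈ Finset.range K, Complex.exp ((Real.pi : ℂ) * Complex.I * ((r : ℂ) ^ 2 / (2 * (a : ℂ)))) =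
      (c : ℂ) * Complex.exp ((Real.pi : ℂ) * Complex.I * (Int.sign a : ℂ) / 4) := by
  have hα : 0 < a.natAbs := Int.natAbs_pos.2 ha
  have hd' : 2 * a.natAbs ∣ K := by
    have h1 := Int.natAbs_dvd_natAbs.2 hd
    rwa [Int.natAbs_mul, Int.natAbs_natCast] at h1
  have hnat := Int.natAbs_eq a
  generalize a.natAbs = α at hα hd' hnat
  obtain ⟨l, hl⟩ := hd'
  have hl0 : 0 < l := by
    rcases Nat.eq_zero_or_pos l with h | h
    · rw [h, mul_zero] at hl
      omega
    · exact h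
  have hlr : (0 : ℝ) < l := by exact_mod_cast hl0
  have hαr : (0 : ℝ) < α := by exact_mod_cast hα
  refine ⟨l * Real.sqrt (2 * (α : ℝ)), by positivity, ?_⟩
  have hpos := G3_pos α hα l
  rw [← hl] at hpos
  rcases hnat with h | h
  · have hs : Int.sign a = 1 := by
      apply Int.sign_eq_one_of_pos
      omega
    have hac : (a : ℂ) = (α : ℂ) := by
      rw [h, Int.cast_natCast]
    rw [hs, hac, hpos, Int.cast_one, mul_one]
    push_cast
    ring
  · have hs : Int.sign a = -1 := by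
      apply Int.sign_eq_neg_one_of_neg
      omega
    have hac : (a : ℂ) = -(α : ℂ) := by
      rw [h, Int.cast_neg, Int.cast_natCast]
    have hconj := congrArg (starRingEnd ℂ) hpos
    rw [map_sum, map_mul, map_mul, Complex.conj_ofReal, map_natCast, ← Complex.exp_conj] at hconj
    have h2 : ∀ r ∈ Finset.range K, Complex.exp ((Real.pi : ℂ) * Complex.I * ((r : ℂ) ^ 2 / (2 * (a : ℂ)))) =
        (starRingEnd ℂ) (Complex.exp ((Real.pi : ℂ) * Complex.I * ((r : ℂ) ^ 2 / (2 * (α : ℂ))))) := by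
      intro r _
      rw [← Complex.exp_conj, hac]
      congr 1
      simp only [map_mul, map_div₀, map_pow, Complex.conj_ofReal, Complex.conj_I, map_natCast, map_ofNat]
      rw [mul_neg, div_neg]
      ring
    rw [Finset.sum_congr rfl h2, hconj, hs]
    have h3 : (starRingEnd ℂ) ((Real.pi : ℂ) * Complex.I / 4) =
        (Real.pi : ℂ) * Complex.I * ((-1 : ℤ) : ℂ) / 4 := by
      simp only [map_mul, map_div₀, Complex.conj_ofReal, Complex.conj_I, map_ofNat]
      push_cast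
      ring
    rw [h3]
    push_cast
    ring

theorem gauss_prod {m : ℕ} (a : Fin m → ℤ) (ha : ∀ i, a i ≠ 0) (K : ℕ) (hK : 0 < K)
    (hd : ∀ i, 2 * a i ∣ (K : ℤ)) : ∃ c : ℝ, 0 < c ∧
    ∑ r ∈ Fintype.piFinset (fun _ : Fin m => Finset.range K),
      Complex.exp ((Real.pi : ℂ) * Complex.I * ∑ i, ((r i : ℂ) ^ 2 / (2 * (a i : ℂ)))) =
      (c : ℂ) * Complex.exp ((Real.pi : ℂ) * Complex.I * ((∑ i, Int.sign (a i) : ℤ) : ℂ) / 4) := by
  choose c hc hcs using fun i => gauss_K (a i) (ha i) K hK (hd i)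
  refine ⟨∏ i, c i, Finset.prod_pos fun i _ => hc i, ?_⟩
  have h1 := Finset.prod_univ_sum (fun _ : Fin m => Finset.range K)
    (fun (i : Fin m) (r : ℕ) => Complex.exp ((Real.pi : ℂ) * Complex.I * ((r : ℂ) ^ 2 / (2 * (a i : ℂ)))))
  rw [Finset.prod_congr rfl fun i _ => hcs i, Finset.prod_mul_distrib, ← Complex.exp_sum] at h1
  have h2 : ∀ r ∈ Fintype.piFinset (fun _ : Fin m => Finset.range K),
      Complex.exp ((Real.pi : ℂ) * Complex.I * ∑ i, ((r i : ℂ) ^ 2 / (2 * (a i : ℂ)))) =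
        ∏ i, Complex.exp ((Real.pi : ℂ) * Complex.I * ((r i : ℂ) ^ 2 / (2 * (a i : ℂ)))) := by
    intro r _
    rw [Finset.mul_sum, Complex.exp_sum]
  rw [Finset.sum_congr rfl h2, ← h1]
  congr 1
  · push_cast
    rfl
  · congr 1
    rw [← Finset.sum_div, ← Finset.mul_sum]
    push_cast
    rfl

end Pool.Agent.LibGZ87
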