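import Mathlib

set_option autoImplicit false

/-!
[GZ87 G4] MEDIUM, ONLY MATHLIB. `shift`: `F` is a function on `(ℤ/K)^m`: both sides are sums over `Fin m → ZMod K` (bijection `r ↦ (r i : ZMod K)` from `Fintype.piFinset (fun _ => range K)`; `F' x = F (fun i => (x i).val)`, `F' (cast r) = F r` by periodicity), and `Equiv.addRight` preserves the sum.
(`F (r + K • e) = F r` for all `e : Fin m → ℤ` from the hypothesis.) `char_sum`: `t = |det P|`. The sum over `y` factors: `∏_j ∑_{y ∈ range t} exp(2 π i y x_j / det P)`, `x = (adjugate P)ᵀ r`, `x_j = (r ᵥ* adjugate P) j` (`Finset.prod_univ_sum`, `exp_sum`); a factor is `t` if `det P ∣ x_j` and `0` otherwise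
(geometric sum, `exp(2 π i x_j / det P)` is a `t`-th root of unity). All `x_j` are divisible by `det P` iff `r = Pᵀ z` for an integral `z` (`z = x / det P`, `Pᵀ (adjugate P)ᵀ = det P`; conversely `x = det P • z`).
-/

namespace Pool.Agent.LibGZ87

private theorem G4_red {m K : ℕ} (F : (Fin m → ℤ) → ℂ)
    (hF : ∀ (r e : Fin m → ℤ), F (r + (K : ℤ) • e) = F r) (u : Fin m → ℤ) :
    F u = F (fun i => u i % (K : ℤ)) := by
  have h1 : u = (fun i => u i % (K : ℤ)) + (K : ℤ) • (fun i => u i / (K : ℤ)) := by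
    funext i
    show u i = u i % (K : ℤ) + (K : ℤ) * (u i / (K : ℤ))
    exact (Int.emod_add_mul_ediv (u i) K).symm
  conv_lhs => rw [h1]
  exact hF _ _

private theorem G4_bij {m K : ℕ} [NeZero K] (G : (Fin m → ZMod K) → ℂ) :
    ∑ r ∈ Fintype.piFinset (fun _ : Fin m => Finset.range K), G (fun i => ((r i : ℕ) : ZMod K)) =
      ∑ x : Fin m → ZMod K, G x := by
  refine Finset.sum_bij' (fun r _ => fun i => ((r i : ℕ) : ZMod K)) (fun x _ => fun i => (x i).val)
    ?_ ?_ ?_ ?_ ?_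
  · intro r _
    exact Finset.mem_univ _
  · intro x _
    rw [Fintype.mem_piFinset]
    intro i
    rw [Finset.mem_range]
    exact ZMod.val_lt (x i)
  · intro r hr
    rw [Fintype.mem_piFinset] at hr
    funext i
    exact ZMod.val_cast_of_lt (Finset.mem_range.1 (hr i))
  · intro x _
    funext i
    exact ZMod.natCast_zmod_val (x i)
  · intro r _
    rfl

theorem shift {m K : ℕ} (hK : 0 < K) (F : (Fin m → ℤ) → ℂ)
    (hF : ∀ (r e : Fin m → ℤ), F (r + (K : ℤ) • e) = F r) (v : Fin m → ℤ) :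
    ∑ r ∈ Fintype.piFinset (fun _ : Fin m => Finset.range K), F ((fun i => (r i : ℤ)) + v) =
      ∑ r ∈ Fintype.piFinset (fun _ : Fin m => Finset.range K), F (fun i => (r i : ℤ)) := by
  haveI : NeZero K := ⟨hK.ne'⟩
  have hkey : ∀ u : Fin m → ℤ, F u = F (fun i => ((((u i : ℤ) : ZMod K).val : ℕ) : ℤ)) := by
    intro u
    rw [G4_red F hF u]
    congr 1
    funext i
    rw [ZMod.val_intCast]
  have h1 : ∀ r : Fin m → ℕ, F ((fun i => (r i : ℤ)) + v) =
      (fun x : Fin m → ZMod K => F (fun i => ((((x i + ((v i : ℤ) : ZMod K))).val : ℕ) : ℤ)))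
        (fun i => ((r i : ℕ) : ZMod K)) := by
    intro r
    rw [hkey]
    show F (fun i => (((((r i : ℤ) + v i : ℤ) : ZMod K).val : ℕ) : ℤ)) = _
    push_cast
    rfl
  have h2 : ∀ r : Fin m → ℕ, F (fun i => (r i : ℤ)) =
      (fun x : Fin m → ZMod K => F (fun i => (((x i).val : ℕ) : ℤ)))
        (fun i => ((r i : ℕ) : ZMod K)) := by
    intro r
    rw [hkey]
    push_cast
    rfl
  refine (Finset.sum_congr rfl (fun r _ => h1 r)).trans ?_
  refine (G4_bij (fun x : Fin m → ZMod K =>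
    F (fun i => ((((x i + ((v i : ℤ) : ZMod K))).val : ℕ) : ℤ)))).trans ?_
  refine Eq.trans ?_ (Finset.sum_congr rfl (fun r _ => h2 r)).symm
  refine Eq.trans ?_ (G4_bij (fun x : Fin m → ZMod K => F (fun i => (((x i).val : ℕ) : ℤ)))).symm
  exact Equiv.sum_comp (Equiv.addRight (fun i => ((v i : ℤ) : ZMod K)))
    (fun x : Fin m → ZMod K => F (fun i => (((x i).val : ℕ) : ℤ)))

private theorem G4_factor (d x : ℤ) (hd : d ≠ 0) :
    ∑ y ∈ Finset.range d.natAbs,
      Complex.exp (2 * (Real.pi : ℂ) * Complex.I * ((x * (y : ℤ) : ℤ) : ℂ) / (d : ℂ)) =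
      if d ∣ x then (d.natAbs : ℂ) else 0 := by
  have hd' : (d : ℂ) ≠ 0 := by exact_mod_cast hd
  have h1 : ∀ y ∈ Finset.range d.natAbs,
      Complex.exp (2 * (Real.pi : ℂ) * Complex.I * ((x * (y : ℤ) : ℤ) : ℂ) / (d : ℂ)) =
      Complex.exp (2 * (Real.pi : ℂ) * Complex.I * (x : ℂ) / (d : ℂ)) ^ y := by
    intro y _
    rw [← Complex.exp_nat_mul]
    congr 1
    push_cast
    ring
  rw [Finset.sum_congr rfl h1]
  have hpi : (2 * (Real.pi : ℂ) * Complex.I) ≠ 0 := by
    simp [Real.pi_ne_zero]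
  have hone : Complex.exp (2 * (Real.pi : ℂ) * Complex.I * (x : ℂ) / (d : ℂ)) = 1 ↔ d ∣ x := by
    rw [Complex.exp_eq_one_iff]
    constructor
    · rintro ⟨n, hn⟩
      refine ⟨n, ?_⟩
      have h2 : (x : ℂ) = d * n := by
        rw [div_eq_iff hd'] at hn
        have h3 : (2 * (Real.pi : ℂ) * Complex.I) * (x : ℂ) =
            (2 * (Real.pi : ℂ) * Complex.I) * (d * n) := by
          rw [hn]
          ring
        exact mul_left_cancel₀ hpi h3
      exact_mod_cast h2
    · rintro ⟨n, rfl⟩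
      refine ⟨n, ?_⟩
      push_cast
      field_simp
  by_cases hx : d ∣ x
  · rw [if_pos hx, hone.2 hx]
    simp
  · rw [if_neg hx]
    have hw : Complex.exp (2 * (Real.pi : ℂ) * Complex.I * (x : ℂ) / (d : ℂ)) ≠ 1 :=
      fun h => hx (hone.1 h)
    rw [geom_sum_eq hw]
    have hpow : Complex.exp (2 * (Real.pi : ℂ) * Complex.I * (x : ℂ) / (d : ℂ)) ^ d.natAbs = 1 := by
      rw [← Complex.exp_nat_mul, Complex.exp_eq_one_iff]
      rcases Int.natAbs_eq d with h | h
      · refine ⟨x, ?_⟩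
        have h3 : (d : ℂ) = ((d.natAbs : ℕ) : ℂ) := by
          conv_lhs => rw [h]
          exact Int.cast_natCast _
        rw [← h3]
        field_simp
      · refine ⟨-x, ?_⟩
        have h3 : (d : ℂ) = -((d.natAbs : ℕ) : ℂ) := by
          conv_lhs => rw [h]
          rw [Int.cast_neg, Int.cast_natCast]
        have h4 : ((d.natAbs : ℕ) : ℂ) = -(d : ℂ) := by
          rw [h3, neg_neg]
        rw [h4]
        push_cast
        field_simp
    rw [hpow, sub_self, zero_div]

open scoped Classical in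
theorem char_sum {m : ℕ} (P : Matrix (Fin m) (Fin m) ℤ) (hP : P.det ≠ 0) (r : Fin m → ℤ) :
    ∑ y ∈ Fintype.piFinset (fun _ : Fin m => Finset.range P.det.natAbs),
      Complex.exp (2 * (Real.pi : ℂ) * Complex.I *
        ((r ⬝ᵥ P.adjugate.mulVec (fun i => (y i : ℤ)) : ℤ) : ℂ) / (P.det : ℂ)) =
      if ∃ z : Fin m → ℤ, P.transpose.mulVec z = r then ((P.det.natAbs : ℂ)) ^ m else 0 := by
  have h1 : ∀ y : Fin m → ℕ, Complex.exp (2 * (Real.pi : ℂ) * Complex.I *
        ((r ⬝ᵥ P.adjugate.mulVec (fun i => (y i : ℤ)) : ℤ) : ℂ) / (P.det : ℂ)) =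
      ∏ j, (fun (j : Fin m) (n : ℕ) => Complex.exp (2 * (Real.pi : ℂ) * Complex.I *
        (((Matrix.vecMul r P.adjugate) j * (n : ℤ) : ℤ) : ℂ) / (P.det : ℂ))) j (y j) := by
    intro y
    show _ = ∏ j, Complex.exp (2 * (Real.pi : ℂ) * Complex.I *
        (((Matrix.vecMul r P.adjugate) j * ((y j : ℕ) : ℤ) : ℤ) : ℂ) / (P.det : ℂ))
    rw [← Complex.exp_sum, Matrix.dotProduct_mulVec, dotProduct]
    congr 1
    rw [← Finset.sum_div, ← Finset.mul_sum]
    congr 2
    push_cast
    rfl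
  refine (Finset.sum_congr rfl (fun y _ => h1 y)).trans ?_
  refine (Finset.prod_univ_sum (fun _ : Fin m => Finset.range P.det.natAbs)
    (fun (j : Fin m) (n : ℕ) => Complex.exp (2 * (Real.pi : ℂ) * Complex.I *
        (((Matrix.vecMul r P.adjugate) j * (n : ℤ) : ℤ) : ℂ) / (P.det : ℂ)))).symm.trans ?_
  have h2 : ∀ j ∈ (Finset.univ : Finset (Fin m)), ∑ n ∈ Finset.range P.det.natAbs,
      (fun (j : Fin m) (n : ℕ) => Complex.exp (2 * (Real.pi : ℂ) * Complex.I *
        (((Matrix.vecMul r P.adjugate) j * (n : ℤ) : ℤ) : ℂ) / (P.det : ℂ))) j n =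
      if P.det ∣ (Matrix.vecMul r P.adjugate) j then (P.det.natAbs : ℂ) else 0 := by
    intro j _
    exact G4_factor P.det _ hP
  refine (Finset.prod_congr rfl h2).trans ?_
  rw [Finset.prod_ite_zero]
  have h3 : (∀ i ∈ (Finset.univ : Finset (Fin m)), P.det ∣ (Matrix.vecMul r P.adjugate) i) ↔
      ∃ z : Fin m → ℤ, P.transpose.mulVec z = r := by
    constructor
    · intro h
      choose z hz using fun i => h i (Finset.mem_univ i)
      refine ⟨z, ?_⟩
      rw [Matrix.mulVec_transpose]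
      have h4 : Matrix.vecMul r P.adjugate = P.det • z := by
        funext i
        exact hz i
      have h5 : Matrix.vecMul (Matrix.vecMul r P.adjugate) P = P.det • r := by
        rw [Matrix.vecMul_vecMul, Matrix.adjugate_mul, Matrix.vecMul_smul, Matrix.vecMul_one]
      rw [h4, Matrix.smul_vecMul] at h5
      exact smul_right_injective _ hP h5
    · rintro ⟨z, hz⟩ i _
      rw [Matrix.mulVec_transpose] at hz
      rw [← hz, Matrix.vecMul_vecMul, Matrix.mul_adjugate, Matrix.vecMul_smul, Matrix.vecMul_one]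
      exact ⟨z i, rfl⟩
  by_cases h4 : ∃ z : Fin m → ℤ, P.transpose.mulVec z = r
  · rw [if_pos h4, if_pos (h3.2 h4), Finset.prod_const, Finset.card_univ, Fintype.card_fin]
  · rw [if_neg h4, if_neg (fun h => h4 (h3.1 h))]

end Pool.Agent.LibGZ87
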