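import Pool.Agent.LibGZ87.G3
import Pool.Agent.LibGZ87.G4

set_option autoImplicit false

/-!
[GZ87 G5] MEDIUM/STRONG. Reciprocity. `det P ≠ 0` (`hP`, `ha`). `K = 2 |∏ a_i| |det P|`, `F r = exp(π i ∑ r_i²/(2 a_i))`, periodic modulo `K` (`2 a_i ∣ K`, `K` even). Over `ℂ` (or `ℚ`): `D = diagonal (2 a_i)`, `D⁻¹ Pᵀ E = P⁻¹`, `P D⁻¹ Pᵀ = E⁻¹` (from `hP`).
`C = Pᵀ E`: `F (r + C y) = F r * exp(2 π i r ⬝ P⁻¹ y)`, because `∑ ((r + C y)_i)²/(2 a_i) = ∑ r_i²/(2 a_i) + 2 r ⬝ D⁻¹ C y + y ⬝ Cᵀ D⁻¹ C y = .. + 2 r ⬝ P⁻¹ y + y ⬝ E y` and `y ⬝ E y` is an even integer (`E` symmetric with even diagonal). `P⁻¹ = adjugate P / det P`.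
Sum over `r` (`shift`) and over `y ∈ (range |det P|)^m` (`char_sum`): `|det P|^m ∑_r F r = ∑_r F r ∑_y exp(..) = |det P|^m ∑_{r ∈ R} F r`, `R` = the `r` with `r = Pᵀ z`. Let `S` be the set of these `z` (`Pᵀ` is injective; `r = 0`: `z = 0`). `F (Pᵀ z) = exp(π i z ⬝ P D⁻¹ Pᵀ z) = exp(π i z ⬝ adjugate E z / det E)`.
The left side is `gauss_prod`.
-/

namespace Pool.Agent.LibGZ87

open Finset Matrix

private theorem G5_exp_even {n : ℤ} (hn : Even n) :
    Complex.exp ((Real.pi : ℂ) * Complex.I * (n : ℂ)) = 1 := by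
  obtain ⟨k, hk⟩ := hn
  rw [hk]
  have h := Complex.exp_int_mul_two_pi_mul_I k
  rw [← h]
  congr 1
  push_cast
  ring

private theorem G5_even {m : ℕ} (E : Matrix (Fin m) (Fin m) ℤ) (hE : E.transpose = E) (he : ∀ i, Even (E i i))
    (y : Fin m → ℤ) : Even (y ⬝ᵥ E.mulVec y) := by
  have h1 : ((y ⬝ᵥ E.mulVec y : ℤ) : ZMod 2) =
      ∑ p : Fin m × Fin m, ((y p.1 * (E p.1 p.2 * y p.2) : ℤ) : ZMod 2) := by
    rw [Fintype.sum_prod_type]
    simp only [dotProduct, mulVec, mul_sum]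
    push_cast
    rfl
  have h2 : ∑ p : Fin m × Fin m, ((y p.1 * (E p.1 p.2 * y p.2) : ℤ) : ZMod 2) = 0 := by
    refine Finset.sum_involution (fun p _ => p.swap) ?_ ?_ ?_ ?_
    · intro p _
      have h3 : E p.2 p.1 = E p.1 p.2 := by
        have := congrFun (congrFun hE p.1) p.2
        rwa [Matrix.transpose_apply] at this
      show ((y p.1 * (E p.1 p.2 * y p.2) : ℤ) : ZMod 2) + ((y p.2 * (E p.2 p.1 * y p.1) : ℤ) : ZMod 2) = 0
      rw [h3, ← Int.cast_add]
      rw [ZMod.intCast_zmod_eq_zero_iff_dvd]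
      exact ⟨y p.1 * (E p.1 p.2 * y p.2), by push_cast; ring⟩
    · intro p _ hp hswap
      apply hp
      have h3 : p.2 = p.1 := congrArg Prod.fst hswap
      rw [h3, ZMod.intCast_zmod_eq_zero_iff_dvd]
      obtain ⟨k, hk⟩ := he p.1
      exact ⟨y p.1 * (k * y p.1), by rw [hk]; push_cast; ring⟩
    · intro p _
      exact mem_univ _
    · intro p _
      exact Prod.swap_swap p
  rw [h2, ZMod.intCast_zmod_eq_zero_iff_dvd] at h1
  exact even_iff_two_dvd.2 h1

private noncomputable def G5_q {m : ℕ} (a r : Fin m → ℤ) : ℂ := ∑ i, ((r i : ℂ) ^ 2 / (2 * (a i : ℂ)))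

private noncomputable def G5_F {m : ℕ} (a r : Fin m → ℤ) : ℂ :=
  Complex.exp ((Real.pi : ℂ) * Complex.I * G5_q a r)

private theorem G5_per {m : ℕ} (a : Fin m → ℤ) (ha : ∀ i, a i ≠ 0) (K : ℤ) (hK : ∀ i, 2 * a i ∣ K)
    (r e : Fin m → ℤ) : G5_F a (r + K • e) = G5_F a r := by
  choose k hk using hK
  have h1 : G5_q a (r + K • e) = G5_q a r + ((∑ i, (2 * (r i * k i * e i) + 2 * (a i * k i ^ 2 * e i ^ 2)) : ℤ) : ℂ) := by
    unfold G5_q
    rw [Int.cast_sum, ← sum_add_distrib]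
    refine sum_congr rfl fun i _ => ?_
    have h2 : (a i : ℂ) ≠ 0 := Int.cast_ne_zero.2 (ha i)
    have h3 : (K : ℂ) = 2 * (a i : ℂ) * (k i : ℂ) := by
      rw [hk i]
      push_cast
      ring
    rw [Pi.add_apply, Pi.smul_apply, smul_eq_mul]
    push_cast
    rw [h3]
    field_simp
    ring
  unfold G5_F
  rw [h1, mul_add, Complex.exp_add, G5_exp_even, mul_one]
  refine Finset.even_sum _ fun i _ => ?_
  exact (even_two_mul _).add (even_two_mul _)

private theorem G5_shift {m : ℕ} (E P : Matrix (Fin m) (Fin m) ℤ) (hE : E.transpose = E) (he : ∀ i, Even (E i i))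
    (a : Fin m → ℤ) (ha : ∀ i, a i ≠ 0) (hP : P.transpose * E * P = Matrix.diagonal (fun i => 2 * a i))
    (hdet : P.det ≠ 0) (r y : Fin m → ℤ) :
    G5_F a (r + (P.transpose * E).mulVec y) =
      G5_F a r * Complex.exp (2 * (Real.pi : ℂ) * Complex.I *
        ((r ⬝ᵥ P.adjugate.mulVec y : ℤ) : ℂ) / (P.det : ℂ)) := by
  set v := (P.transpose * E).mulVec y with hv
  set w := P.adjugate.mulVec y with hw
  have h1 : P.det • (P.transpose * E) = Matrix.diagonal (fun i => 2 * a i) * P.adjugate := by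
    rw [← hP, Matrix.mul_assoc (P.transpose * E), Matrix.mul_adjugate, Matrix.mul_smul, Matrix.mul_one]
  have h2 : ∀ i, P.det * v i = 2 * a i * w i := by
    intro i
    have h3 := congrFun (congrArg (fun M => Matrix.mulVec M y) h1) i
    simp only [Matrix.smul_mulVec, ← Matrix.mulVec_mulVec, Matrix.mulVec_diagonal, Pi.smul_apply,
      smul_eq_mul] at h3
    rw [hv, hw, ← Matrix.mulVec_mulVec]
    exact h3
  have h4 : v ⬝ᵥ w = P.det * (y ⬝ᵥ E.mulVec y) := by
    rw [hv, hw, ← Matrix.mulVec_mulVec, Matrix.mulVec_transpose, ← Matrix.dotProduct_mulVec,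
      Matrix.mulVec_mulVec, Matrix.mul_adjugate, Matrix.smul_mulVec, Matrix.one_mulVec, dotProduct_smul,
      smul_eq_mul, dotProduct_comm]
  have hd : (P.det : ℂ) ≠ 0 := Int.cast_ne_zero.2 hdet
  clear h1
  generalize P.det = δ at h2 h4 hd hdet ⊢
  have h5 : G5_q a (r + v) = G5_q a r + 2 * ((r ⬝ᵥ w : ℤ) : ℂ) / (δ : ℂ) + ((y ⬝ᵥ E.mulVec y : ℤ) : ℂ) := by
    have h6 : ((y ⬝ᵥ E.mulVec y : ℤ) : ℂ) = ((v ⬝ᵥ w : ℤ) : ℂ) / (δ : ℂ) := by
      rw [h4]
      push_cast
      field_simp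
    rw [h6]
    unfold G5_q
    simp only [dotProduct]
    push_cast
    rw [mul_sum, sum_div, sum_div, ← sum_add_distrib, ← sum_add_distrib]
    refine sum_congr rfl fun i _ => ?_
    have h7 : (a i : ℂ) ≠ 0 := Int.cast_ne_zero.2 (ha i)
    have h8 : (δ : ℂ) * (v i : ℂ) = 2 * (a i : ℂ) * (w i : ℂ) := by exact_mod_cast h2 i
    rw [Pi.add_apply]
    push_cast
    field_simp
    linear_combination (2 * (r i : ℂ) + (v i : ℂ)) * h8
  unfold G5_F
  rw [h5, mul_add, mul_add, Complex.exp_add, Complex.exp_add, G5_exp_even (G5_even E hE he y), mul_one]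
  congr 2
  ring

private theorem G5_back {m : ℕ} (E P : Matrix (Fin m) (Fin m) ℤ)
    (a : Fin m → ℤ) (ha : ∀ i, a i ≠ 0) (hP : P.transpose * E * P = Matrix.diagonal (fun i => 2 * a i))
    (hdet : E.det ≠ 0) (z : Fin m → ℤ) :
    G5_q a (P.transpose.mulVec z) = ((z ⬝ᵥ E.adjugate.mulVec z : ℤ) : ℂ) / (E.det : ℂ) := by
  set f : ℤ →+* ℂ := Int.castRingHom ℂ with hf
  set EC : Matrix (Fin m) (Fin m) ℂ := f.mapMatrix E with hEC
  set PC : Matrix (Fin m) (Fin m) ℂ := f.mapMatrix P with hPC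
  set Di : Matrix (Fin m) (Fin m) ℂ := Matrix.diagonal (fun i => (2 * (a i : ℂ))⁻¹) with hDi
  have h1 : PC.transpose * EC * PC = Matrix.diagonal (fun i => 2 * (a i : ℂ)) := by
    have h2 := congrArg f.mapMatrix hP
    rw [map_mul, map_mul] at h2
    have h3 : f.mapMatrix P.transpose = PC.transpose := by
      ext i j
      rfl
    have h4 : f.mapMatrix (Matrix.diagonal (fun i => 2 * a i)) = Matrix.diagonal (fun i => 2 * (a i : ℂ)) := by
      ext i j
      by_cases h : i = j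
      · subst h
        simp [hf]
      · simp [hf, h]
    rw [h3, h4] at h2
    exact h2
  have h2 : Di * (PC.transpose * EC * PC) = 1 := by
    rw [h1, hDi, Matrix.diagonal_mul_diagonal]
    rw [← Matrix.diagonal_one]
    congr 1
    funext i
    have h7 : (a i : ℂ) ≠ 0 := Int.cast_ne_zero.2 (ha i)
    field_simp
  have h3 : PC * Di * PC.transpose * EC = 1 := by
    have h4 : (Di * PC.transpose * EC) * PC = 1 := by
      rw [← h2]
      simp only [Matrix.mul_assoc]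
    have h5 := mul_eq_one_comm.1 h4
    rw [← h5]
    simp only [Matrix.mul_assoc]
  have h4 : EC.det • (PC * Di * PC.transpose) = EC.adjugate := by
    have h5 := congrArg (fun M => M * EC.adjugate) h3
    simp only [Matrix.mul_assoc _ EC, Matrix.mul_adjugate, Matrix.one_mul, Matrix.mul_smul, Matrix.mul_one] at h5
    exact h5
  have hdetC : EC.det = (E.det : ℂ) := by
    rw [hEC, ← RingHom.map_det]
    rfl
  have hadj : EC.adjugate = f.mapMatrix E.adjugate := by
    rw [hEC, RingHom.map_adjugate]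
  have hd : (E.det : ℂ) ≠ 0 := Int.cast_ne_zero.2 hdet
  set zC : Fin m → ℂ := fun i => (z i : ℂ) with hzC
  have h5 : ((z ⬝ᵥ E.adjugate.mulVec z : ℤ) : ℂ) = zC ⬝ᵥ EC.adjugate.mulVec zC := by
    rw [hadj]
    simp only [dotProduct, mulVec]
    push_cast
    rfl
  have h6 : (fun i => ((P.transpose.mulVec z i : ℤ) : ℂ)) = PC.transpose.mulVec zC := by
    funext i
    simp only [dotProduct, mulVec]
    push_cast
    rfl
  have h7 : G5_q a (P.transpose.mulVec z) = zC ⬝ᵥ (PC * Di * PC.transpose).mulVec zC := by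
    have h8 : G5_q a (P.transpose.mulVec z) =
        (PC.transpose.mulVec zC) ⬝ᵥ Di.mulVec (PC.transpose.mulVec zC) := by
      rw [← h6]
      unfold G5_q
      simp only [dotProduct]
      refine sum_congr rfl fun i _ => ?_
      rw [hDi, Matrix.mulVec_diagonal]
      rw [div_eq_mul_inv]
      ring
    rw [h8]
    nth_rewrite 1 [Matrix.mulVec_transpose]
    rw [← Matrix.dotProduct_mulVec, Matrix.mulVec_mulVec, Matrix.mulVec_mulVec, Matrix.mul_assoc]
  rw [h5, ← h4, h7, hdetC, Matrix.smul_mulVec, dotProduct_smul, smul_eq_mul]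
  field_simp

theorem recip {m : ℕ} (E P : Matrix (Fin m) (Fin m) ℤ) (hE : E.transpose = E) (he : ∀ i, Even (E i i))
    (a : Fin m → ℤ) (ha : ∀ i, a i ≠ 0) (hP : P.transpose * E * P = Matrix.diagonal (fun i => 2 * a i)) :
    ∃ (c : ℝ) (S : Finset (Fin m → ℤ)), 0 < c ∧ 0 ∈ S ∧
      (c : ℂ) * Complex.exp ((Real.pi : ℂ) * Complex.I * ((∑ i, Int.sign (a i) : ℤ) : ℂ) / 4) =
        ∑ z ∈ S, Complex.exp ((Real.pi : ℂ) * Complex.I * ((z ⬝ᵥ E.adjugate.mulVec z : ℤ) : ℂ) / (E.det : ℂ)) := by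
  classical
  have hdd : P.det * E.det * P.det = ∏ i, (2 * a i) := by
    have h1 := congrArg Matrix.det hP
    rwa [Matrix.det_mul, Matrix.det_mul, Matrix.det_transpose, Matrix.det_diagonal] at h1
  have hprod : ∏ i, (2 * a i) ≠ 0 := prod_ne_zero_iff.2 fun i _ => mul_ne_zero two_ne_zero (ha i)
  have hPd : P.det ≠ 0 := by
    intro h
    rw [h, mul_zero] at hdd
    exact hprod hdd.symm
  have hEd : E.det ≠ 0 := by
    intro h
    rw [h, mul_zero, zero_mul] at hdd
    exact hprod hdd.symm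
  set K : ℕ := (∏ i, (2 * a i)).natAbs with hKdef
  have hK : 0 < K := Int.natAbs_pos.2 hprod
  have hKd : ∀ i, 2 * a i ∣ (K : ℤ) := by
    intro i
    rw [hKdef, Int.dvd_natAbs]
    exact Finset.dvd_prod_of_mem _ (mem_univ i)
  set R := Fintype.piFinset (fun _ : Fin m => Finset.range K) with hR
  set Y := Fintype.piFinset (fun _ : Fin m => Finset.range P.det.natAbs) with hY
  have ht : (0 : ℕ) < P.det.natAbs := Int.natAbs_pos.2 hPd
  set t : ℕ := P.det.natAbs with htdef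
  have hper : ∀ (r e : Fin m → ℤ), G5_F a (r + (K : ℤ) • e) = G5_F a r := G5_per a ha K hKd
  set S0 : ℂ := ∑ r ∈ R, G5_F a (fun i => (r i : ℤ)) with hS0
  have hYcard : Y.card = t ^ m := by
    rw [hY, Fintype.card_piFinset]
    simp
  have h1 : (t : ℂ) ^ m * S0 = ∑ y ∈ Y, ∑ r ∈ R,
      G5_F a ((fun i => (r i : ℤ)) + (P.transpose * E).mulVec (fun i => (y i : ℤ))) := by
    rw [sum_congr rfl fun y _ => shift hK (G5_F a) hper _]
    rw [sum_const, hYcard, nsmul_eq_mul]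
    push_cast
    rfl
  have h2 : (t : ℂ) ^ m * S0 = ∑ r ∈ R, G5_F a (fun i => (r i : ℤ)) *
      (if ∃ z : Fin m → ℤ, P.transpose.mulVec z = (fun i => (r i : ℤ)) then (t : ℂ) ^ m else 0) := by
    rw [h1, sum_comm]
    refine sum_congr rfl fun r _ => ?_
    rw [← char_sum P hPd (fun i => (r i : ℤ)), mul_sum]
    refine sum_congr rfl fun y _ => ?_
    exact G5_shift E P hE he a ha hP hPd _ _
  have htm : (t : ℂ) ^ m ≠ 0 := pow_ne_zero _ (Nat.cast_ne_zero.2 ht.ne')
  set R' := R.filter (fun r => ∃ z : Fin m → ℤ, P.transpose.mulVec z = (fun i => (r i : ℤ))) with hR'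
  have h3 : S0 = ∑ r ∈ R', G5_F a (fun i => (r i : ℤ)) := by
    apply mul_left_cancel₀ htm
    rw [h2, hR', sum_filter, mul_sum]
    refine sum_congr rfl fun r _ => ?_
    split_ifs <;> ring
  set zz : (Fin m → ℕ) → (Fin m → ℤ) := fun r =>
    if h : ∃ z : Fin m → ℤ, P.transpose.mulVec z = (fun i => (r i : ℤ)) then h.choose else 0 with hzz
  have hzz' : ∀ r ∈ R', P.transpose.mulVec (zz r) = (fun i => (r i : ℤ)) := by
    intro r hr
    rw [hR', mem_filter] at hr
    rw [hzz]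
    simp only [dif_pos hr.2]
    exact hr.2.choose_spec
  have hinj : Set.InjOn zz R' := by
    intro r hr r' hr' h
    have h4 := hzz' r hr
    rw [h, hzz' r' hr'] at h4
    funext i
    have h5 := congrFun h4 i
    exact_mod_cast h5.symm
  obtain ⟨c, hc, hgp⟩ := gauss_prod a ha K hK hKd
  refine ⟨c, R'.image zz, hc, ?_, ?_⟩
  · have h0 : (0 : Fin m → ℕ) ∈ R' := by
      rw [hR', mem_filter]
      refine ⟨Fintype.mem_piFinset.2 fun i => mem_range.2 hK, 0, ?_⟩
      rw [Matrix.mulVec_zero]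
      funext i
      simp
    have h4 := hzz' 0 h0
    have h5 : zz 0 = 0 := by
      refine Matrix.eq_zero_of_mulVec_eq_zero (M := P.transpose) ?_ ?_
      · rw [Matrix.det_transpose]
        exact hPd
      · rw [h4]
        funext i
        simp
    exact mem_image.2 ⟨0, h0, h5⟩
  · rw [sum_image hinj, ← hgp]
    have h4 : ∑ r ∈ R, Complex.exp ((Real.pi : ℂ) * Complex.I * ∑ i, ((r i : ℂ) ^ 2 / (2 * (a i : ℂ)))) = S0 := by
      rw [hS0]
      refine sum_congr rfl fun r _ => ?_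
      unfold G5_F G5_q
      push_cast
      rfl
    rw [h4, h3]
    refine sum_congr rfl fun r hr => ?_
    unfold G5_F
    rw [← hzz' r hr, G5_back E P a ha hP hEd, mul_div_assoc]

end Pool.Agent.LibGZ87
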