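import Pool.Agent.LibGZ87.Defs

set_option autoImplicit false

/-!
[GZ87 G6] MEDIUM, only Mathlib + Defs. `even_form`: `x ⬝ E x = ∑ E_ii x_i² + 2 ∑_{i<j}`. `val_mem`: `z = E y`: `z ⬝ adjugate E z = det E * (y ⬝ E y)` (`adjugate E * E = det E`, `E` symmetric). `index2`: `det E = ± 2`: the quotient of `ℤ^m` by the image of `E` has 2 elements. (Smith normal form, or: over `ZMod 2` the matrix `adjugate E` has rank
at most 1: if the kernel of `E` modulo 2 had dimension `≥ 2` then `4 ∣ det E`; or induction with elementary operations; or Mathlib: `Submodule.natAbs_det_equiv`/`natAbs_det_basis_change`: `|det| = card of the quotient`, a group of order 2 has only one element besides 0.)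
-/

namespace Pool.Agent.LibGZ87

theorem even_form {m : ℕ} {E : Matrix (Fin m) (Fin m) ℤ} (hE : E.transpose = E) (he : ∀ i, Even (E i i))
    (x : Fin m → ℤ) : Even (mf E x x) := by
  have hs : ∀ i j, E i j = E j i := fun i j => by
    conv_lhs => rw [← hE]
    rfl
  have h2 : (mf E x x : ℤ) = ∑ p ∈ (Finset.univ ×ˢ Finset.univ : Finset (Fin m × Fin m)), x p.1 * E p.1 p.2 * x p.2 := by
    rw [Finset.sum_product]
    simp only [mf, dotProduct, Matrix.mulVec, Finset.mul_sum, mul_assoc]
  have h0 : ((mf E x x : ℤ) : ZMod 2) = 0 := by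
    rw [h2, Int.cast_sum]
    refine Finset.sum_involution (fun p _ => (p.2, p.1)) ?_ ?_ ?_ ?_
    · intro p _
      have : x p.2 * E p.2 p.1 * x p.1 = x p.1 * E p.1 p.2 * x p.2 := by
        rw [hs p.2 p.1]; ring
      simp only [this]
      exact CharTwo.add_self_eq_zero _
    · intro p _ hp heq
      apply hp
      have h1 : p.2 = p.1 := congrArg Prod.fst heq
      rw [h1]
      obtain ⟨k, hk⟩ := he p.1
      rw [hk]
      push_cast
      have : ((k : ZMod 2) + (k : ZMod 2)) = 0 := CharTwo.add_self_eq_zero _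
      rw [this]; simp
    · intro p _
      simp
    · intro p _
      rfl
  exact (ZMod.intCast_zmod_eq_zero_iff_dvd _ 2).1 h0 |>.elim fun k hk => ⟨k, by
    have : ((2 : ℕ) : ℤ) = 2 := rfl
    omega⟩

theorem val_mem {m : ℕ} {E : Matrix (Fin m) (Fin m) ℤ} (hE : E.transpose = E) (y : Fin m → ℤ) :
    (E.mulVec y) ⬝ᵥ E.adjugate.mulVec (E.mulVec y) = E.det * mf E y y := by
  rw [Matrix.mulVec_mulVec, Matrix.adjugate_mul, Matrix.smul_mulVec, Matrix.one_mulVec, dotProduct_smul,
    smul_eq_mul, dotProduct_comm, mf]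

theorem index2 {m : ℕ} {E : Matrix (Fin m) (Fin m) ℤ} (hd : E.det = 2 ∨ E.det = -2) (z z' : Fin m → ℤ)
    (hz : ¬ ∃ y, E.mulVec y = z) (hz' : ¬ ∃ y, E.mulVec y = z') : ∃ y, E.mulVec y = z - z' := by
  have hd0 : E.det ≠ 0 := by rcases hd with h | h <;> rw [h] <;> norm_num
  have hinj : Function.Injective E.mulVecLin := by
    intro x y h
    have h1 : E.mulVec x = E.mulVec y := h
    have h2 : E.adjugate.mulVec (E.mulVec x) = E.adjugate.mulVec (E.mulVec y) := by rw [h1]
    rw [Matrix.mulVec_mulVec, Matrix.mulVec_mulVec, Matrix.adjugate_mul, Matrix.smul_mulVec, Matrix.smul_mulVec,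
      Matrix.one_mulVec, Matrix.one_mulVec] at h2
    exact smul_right_injective _ hd0 h2
  set N := LinearMap.range E.mulVecLin with hN
  have hcard := Submodule.natAbs_det_equiv N (LinearEquiv.ofInjective E.mulVecLin hinj)
  have hidx : N.toAddSubgroup.index = 2 := by
    have h1 : N.toAddSubgroup.index = Nat.card ((Fin m → ℤ) ⧸ N) := rfl
    rw [h1, ← hcard]
    have h2 : (N.subtype ∘ₗ AddMonoidHom.toIntLinearMap
        ((LinearEquiv.ofInjective E.mulVecLin hinj : (Fin m → ℤ) →+ N))) = Matrix.toLin' E := by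
      ext1 i
      rfl
    rw [h2, LinearMap.det_toLin']
    rcases hd with h | h <;> rw [h] <;> rfl
  have hm : ∀ w : Fin m → ℤ, w ∈ N.toAddSubgroup ↔ ∃ y, E.mulVec y = w := fun w => Iff.rfl
  rw [← hm, sub_eq_add_neg, AddSubgroup.add_mem_iff_of_index_two hidx, neg_mem_iff, hm, hm]
  exact ⟨fun h => absurd h hz, fun h => absurd h hz'⟩

end Pool.Agent.LibGZ87
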