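import Pool.Agent.LibGZ87.G5
import Pool.Agent.LibGZ87.G6

set_option autoImplicit false

/-!
[GZ87 G7] MEDIUM. `n = ∑ sign (a i)`. `mod8_one`: `det E = ± 1`: every `z` is `E y` (`y = ± adjugate E z`), so every term of `recip` is `exp(π i (y ⬝ E y)) = 1` (`val_mem`, `even_form`), `c exp(π i n/4) = |S| > 0`, so `exp(π i n/4) = 1` (norm 1 and positive real) and `8 ∣ n` (`Complex.exp_eq_one_iff`).
`mod8_two`: `det E = ± 2`, `n` odd. For `z = E y` the term is 1. Otherwise `z = z₁ + E y` for a fixed `z₁` not in the image (`index2`), the term is `exp(π i (z ⬝ adjugate E z)/det E) = exp(π i (z₁ ⬝ adjugate E z₁)/det E) =: ω` (the cross term is `2 z₁ ⬝ y`), and `ω ^ 4 = 1` (`z ⬝ adjugate E z / det E ∈ (1/2) ℤ`).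
So `c exp(π i n/4) = n₀ + n₁ ω`, `n₀ ≥ 1` (`0 ∈ S`), `n₁ ≥ 0`, `ω ∈ {1, -1, i, -i}`. `ω = ± 1`: the right side is real, but `exp(π i n/4)` with `n` odd is not. `ω = ± i`: the real part of the right side is `n₀ > 0`, so `cos(π n/4) > 0`, `n` odd: `n ≡ ± 1` modulo 8.
-/

namespace Pool.Agent.LibGZ87

/-- the term of a vector in the image of `E` -/
private theorem G7_img {m : ℕ} (E : Matrix (Fin m) (Fin m) ℤ) (hE : E.transpose = E) (he : ∀ i, Even (E i i))
    (hd : E.det ≠ 0) (y : Fin m → ℤ) :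
    Complex.exp ((Real.pi : ℂ) * Complex.I * (((E.mulVec y) ⬝ᵥ E.adjugate.mulVec (E.mulVec y) : ℤ) : ℂ) /
      (E.det : ℂ)) = 1 := by
  rw [val_mem hE]
  obtain ⟨k, hk⟩ := even_form hE he y
  rw [hk, Complex.exp_eq_one_iff]
  refine ⟨k, ?_⟩
  have hd' : (E.det : ℂ) ≠ 0 := by exact_mod_cast hd
  clear hk he hE
  generalize E.det = D at hd' ⊢
  push_cast
  field_simp
  ring

/-- the real and imaginary parts of `exp (π i n / 4)` -/
private theorem G7_exp (n : ℤ) : Complex.exp ((Real.pi : ℂ) * Complex.I * (n : ℂ) / 4) =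
    ((Real.cos (Real.pi * n / 4) : ℝ) : ℂ) + ((Real.sin (Real.pi * n / 4) : ℝ) : ℂ) * Complex.I := by
  rw [show (Real.pi : ℂ) * Complex.I * (n : ℂ) / 4 = (((Real.pi * n / 4 : ℝ)) : ℂ) * Complex.I by
    push_cast; ring]
  rw [Complex.exp_mul_I, ← Complex.ofReal_cos, ← Complex.ofReal_sin]

theorem mod8_one {m : ℕ} (E P : Matrix (Fin m) (Fin m) ℤ) (hE : E.transpose = E) (he : ∀ i, Even (E i i))
    (a : Fin m → ℤ) (ha : ∀ i, a i ≠ 0) (hP : P.transpose * E * P = Matrix.diagonal (fun i => 2 * a i))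
    (hd : E.det = 1 ∨ E.det = -1) : (8 : ℤ) ∣ ∑ i, Int.sign (a i) := by
  obtain ⟨c, S, hc, h0, h⟩ := recip E P hE he a ha hP
  have hd0 : E.det ≠ 0 := by rcases hd with h | h <;> rw [h] <;> norm_num
  have hdd : E.det * E.det = 1 := by rcases hd with h | h <;> rw [h] <;> norm_num
  have hsum : ∑ z ∈ S, Complex.exp ((Real.pi : ℂ) * Complex.I *
      ((z ⬝ᵥ E.adjugate.mulVec z : ℤ) : ℂ) / (E.det : ℂ)) = ((S.card : ℝ) : ℂ) := by
    rw [Finset.sum_congr rfl (g := fun _ => (1 : ℂ))]
    · simp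
    · intro z _
      have hz : z = E.mulVec (E.det • E.adjugate.mulVec z) := by
        rw [Matrix.mulVec_smul, Matrix.mulVec_mulVec, Matrix.mul_adjugate, Matrix.smul_mulVec, Matrix.one_mulVec,
          smul_smul, hdd, one_smul]
      rw [hz]
      exact G7_img E hE he hd0 _
  rw [hsum, G7_exp] at h
  set n := ∑ i, Int.sign (a i) with hn
  have him := congrArg Complex.im h
  have hre := congrArg Complex.re h
  simp only [Complex.mul_re, Complex.mul_im, Complex.add_re, Complex.add_im, Complex.ofReal_re, Complex.ofReal_im,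
    Complex.I_re, Complex.I_im] at him hre
  have hsin : Real.sin (Real.pi * n / 4) = 0 := by
    have : c * Real.sin (Real.pi * n / 4) = 0 := by linarith
    rcases mul_eq_zero.1 this with h | h
    · exact absurd h hc.ne'
    · exact h
  have hS : 0 < (S.card : ℝ) := by exact_mod_cast Finset.card_pos.2 ⟨0, h0⟩
  have hcos : 0 < Real.cos (Real.pi * n / 4) := by
    have : 0 < c * Real.cos (Real.pi * n / 4) := by linarith
    exact (pos_iff_pos_of_mul_pos this).1 hc
  have hcos1 : Real.cos (Real.pi * n / 4) = 1 := by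
    have h1 := Real.sin_sq_add_cos_sq (Real.pi * n / 4)
    rw [hsin] at h1
    nlinarith
  obtain ⟨k, hk⟩ := (Real.cos_eq_one_iff _).1 hcos1
  have hk' : (n : ℝ) = 8 * k := by
    have hpi := Real.pi_ne_zero
    field_simp at hk
    linarith
  have hk2 : n = 8 * k := by exact_mod_cast hk'
  exact ⟨k, hk2⟩

theorem mod8_two {m : ℕ} (E P : Matrix (Fin m) (Fin m) ℤ) (hE : E.transpose = E) (he : ∀ i, Even (E i i))
    (a : Fin m → ℤ) (ha : ∀ i, a i ≠ 0) (hP : P.transpose * E * P = Matrix.diagonal (fun i => 2 * a i))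
    (hd : E.det = 2 ∨ E.det = -2) (hn : Odd (∑ i, Int.sign (a i))) :
    (8 : ℤ) ∣ (∑ i, Int.sign (a i)) - 1 ∨ (8 : ℤ) ∣ (∑ i, Int.sign (a i)) + 1 := by
  classical
  obtain ⟨c, S, hc, h0, h⟩ := recip E P hE he a ha hP
  have hd0 : E.det ≠ 0 := by rcases hd with h | h <;> rw [h] <;> norm_num
  have hd' : (E.det : ℂ) ≠ 0 := by exact_mod_cast hd0
  set n := ∑ i, Int.sign (a i) with hndef
  -- the symmetric adjugate
  have hAs : E.adjugate.transpose = E.adjugate := by rw [Matrix.adjugate_transpose, hE]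
  -- the value for a vector off the image
  have key : ∃ w : ℂ, w ^ 4 = 1 ∧ ∀ z : Fin m → ℤ, (¬ ∃ y, E.mulVec y = z) →
      Complex.exp ((Real.pi : ℂ) * Complex.I * ((z ⬝ᵥ E.adjugate.mulVec z : ℤ) : ℂ) / (E.det : ℂ)) = w := by
    by_cases hex : ∃ z₁ : Fin m → ℤ, ¬ ∃ y, E.mulVec y = z₁
    · obtain ⟨z₁, hz₁⟩ := hex
      refine ⟨Complex.exp ((Real.pi : ℂ) * Complex.I * ((z₁ ⬝ᵥ E.adjugate.mulVec z₁ : ℤ) : ℂ) / (E.det : ℂ)), ?_, ?_⟩
      · rw [← Complex.exp_nat_mul, Complex.exp_eq_one_iff]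
        rcases hd with h2 | h2
        · refine ⟨z₁ ⬝ᵥ E.adjugate.mulVec z₁, ?_⟩
          rw [h2]; push_cast; ring
        · refine ⟨-(z₁ ⬝ᵥ E.adjugate.mulVec z₁), ?_⟩
          rw [h2]; push_cast; ring
      · intro z hz
        obtain ⟨y, hy⟩ := index2 hd z z₁ hz hz₁
        have hzz : z = z₁ + E.mulVec y := by rw [hy]; abel
        have hval : (z ⬝ᵥ E.adjugate.mulVec z : ℤ) = (z₁ ⬝ᵥ E.adjugate.mulVec z₁) + 2 * E.det * (z₁ ⬝ᵥ y) +
            E.det * mf E y y := by
          have h1 : E.adjugate.mulVec (E.mulVec y) = E.det • y := by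
            rw [Matrix.mulVec_mulVec, Matrix.adjugate_mul, Matrix.smul_mulVec, Matrix.one_mulVec]
          have h2 : (E.mulVec y) ⬝ᵥ E.adjugate.mulVec z₁ = z₁ ⬝ᵥ E.adjugate.mulVec (E.mulVec y) := by
            conv_lhs => rw [dotProduct_comm, ← hAs, Matrix.mulVec_transpose, ← Matrix.dotProduct_mulVec]
          rw [hzz, Matrix.mulVec_add, dotProduct_add, add_dotProduct, add_dotProduct, val_mem hE, h2, h1,
            dotProduct_smul, smul_eq_mul]
          ring
        obtain ⟨k, hk⟩ := even_form hE he y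
        rw [hval, hk, Complex.exp_eq_exp_iff_exists_int]
        refine ⟨z₁ ⬝ᵥ y + k, ?_⟩
        clear hval h hd hd0 hP hk
        generalize E.det = D at hd' ⊢
        push_cast
        field_simp
        ring
    · push Not at hex
      refine ⟨1, by norm_num, fun z hz => ?_⟩
      exact absurd (hex z) (by push Not at hz ⊢; exact hz)
  obtain ⟨w, hw4, hw⟩ := key
  set S0 := S.filter fun z => ∃ y, E.mulVec y = z with hS0
  set S1 := S.filter fun z => ¬ ∃ y, E.mulVec y = z with hS1
  have hsum : ∑ z ∈ S, Complex.exp ((Real.pi : ℂ) * Complex.I *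
      ((z ⬝ᵥ E.adjugate.mulVec z : ℤ) : ℂ) / (E.det : ℂ)) = ((S0.card : ℝ) : ℂ) + ((S1.card : ℝ) : ℂ) * w := by
    rw [← Finset.sum_filter_add_sum_filter_not S (fun z => ∃ y, E.mulVec y = z)]
    congr 1
    · rw [Finset.sum_congr rfl (g := fun _ => (1 : ℂ))]
      · simp [hS0]
      · intro z hz
        obtain ⟨y, rfl⟩ := (Finset.mem_filter.1 hz).2
        exact G7_img E hE he hd0 y
    · rw [Finset.sum_congr rfl (g := fun _ => w)]
      · simp [hS1]
      · intro z hz
        exact hw z (Finset.mem_filter.1 hz).2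
  rw [hsum, G7_exp] at h
  have hS0pos : 0 < (S0.card : ℝ) := by
    have : (0 : Fin m → ℤ) ∈ S0 := Finset.mem_filter.2 ⟨h0, 0, Matrix.mulVec_zero _⟩
    exact_mod_cast Finset.card_pos.2 ⟨0, this⟩
  have him := congrArg Complex.im h
  have hre := congrArg Complex.re h
  simp only [Complex.mul_re, Complex.mul_im, Complex.add_re, Complex.add_im, Complex.ofReal_re, Complex.ofReal_im,
    Complex.I_re, Complex.I_im] at him hre
  -- the fourth roots of unity
  have hw2 : w = 1 ∨ w = -1 ∨ w = Complex.I ∨ w = -Complex.I := by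
    have h1 : (w - 1) * ((w + 1) * ((w - Complex.I) * (w + Complex.I))) = 0 := by
      have hI : Complex.I ^ 2 = -1 := Complex.I_sq
      linear_combination hw4 - (w ^ 2 - 1) * hI
    rcases mul_eq_zero.1 h1 with h | h
    · exact Or.inl (sub_eq_zero.1 h)
    rcases mul_eq_zero.1 h with h | h
    · exact Or.inr (Or.inl (eq_neg_of_add_eq_zero_left h))
    rcases mul_eq_zero.1 h with h | h
    · exact Or.inr (Or.inr (Or.inl (sub_eq_zero.1 h)))
    · exact Or.inr (Or.inr (Or.inr (eq_neg_of_add_eq_zero_left h)))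
  have hsin_ne : Real.sin (Real.pi * n / 4) ≠ 0 := by
    intro h0
    obtain ⟨k, hk⟩ := Real.sin_eq_zero_iff.1 h0
    have hk' : (n : ℝ) = 4 * k := by
      have hpi := Real.pi_ne_zero
      have : (k : ℝ) * Real.pi * 4 = Real.pi * n := by linarith
      have : Real.pi * (k * 4 - n) = 0 := by linarith
      rcases mul_eq_zero.1 this with h | h
      · exact absurd h hpi
      · linarith
    have hk2 : n = 4 * k := by exact_mod_cast hk'
    obtain ⟨l, hl⟩ := hn
    omega
  have hwi : w = Complex.I ∨ w = -Complex.I := by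
    rcases hw2 with h | h | h
    · exfalso
      rw [h] at him
      simp only [Complex.one_im, Complex.one_re] at him
      apply hsin_ne
      have : c * Real.sin (Real.pi * n / 4) = 0 := by linarith
      rcases mul_eq_zero.1 this with h | h
      · exact absurd h hc.ne'
      · exact h
    · exfalso
      rw [h] at him
      simp only [Complex.neg_im, Complex.neg_re, Complex.one_im, Complex.one_re] at him
      apply hsin_ne
      have : c * Real.sin (Real.pi * n / 4) = 0 := by linarith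
      rcases mul_eq_zero.1 this with h | h
      · exact absurd h hc.ne'
      · exact h
    · exact h
  have hwre : w.re = 0 := by
    rcases hwi with h | h <;> rw [h] <;> simp
  have hcos : 0 < Real.cos (Real.pi * n / 4) := by
    have : 0 < c * Real.cos (Real.pi * n / 4) := by
      rw [hwre] at hre
      linarith
    exact (pos_iff_pos_of_mul_pos this).1 hc
  -- `n` modulo 8
  have hper : ∀ k r : ℤ, n = 8 * k + r → Real.cos (Real.pi * n / 4) = Real.cos (Real.pi * r / 4) := by
    intro k r hr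
    rw [hr]
    push_cast
    rw [show Real.pi * (8 * (k : ℝ) + r) / 4 = Real.pi * r / 4 + k * (2 * Real.pi) by ring]
    exact Real.cos_add_int_mul_two_pi _ _
  obtain ⟨l, hl⟩ := hn
  have hmod : n % 8 = 1 ∨ n % 8 = 3 ∨ n % 8 = 5 ∨ n % 8 = 7 := by omega
  rcases hmod with h1 | h1 | h1 | h1
  · left; omega
  · exfalso
    have := hper (n / 8) 3 (by omega)
    rw [this] at hcos
    have h2 : Real.cos (Real.pi * ((3 : ℤ) : ℝ) / 4) = - Real.cos (Real.pi / 4) := by
      rw [← Real.cos_pi_sub]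
      congr 1
      push_cast; ring
    rw [h2, Real.cos_pi_div_four] at hcos
    have : 0 < Real.sqrt 2 := Real.sqrt_pos.2 (by norm_num)
    linarith
  · exfalso
    have := hper (n / 8) 5 (by omega)
    rw [this] at hcos
    have h2 : Real.cos (Real.pi * ((5 : ℤ) : ℝ) / 4) = - Real.cos (Real.pi / 4) := by
      rw [← Real.cos_add_pi]
      congr 1
      push_cast; ring
    rw [h2, Real.cos_pi_div_four] at hcos
    have : 0 < Real.sqrt 2 := Real.sqrt_pos.2 (by norm_num)
    linarith
  · right; omega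

end Pool.Agent.LibGZ87
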