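import Pool.Agent.LibGZ87.G7

set_option autoImplicit false

/-!
[GZ87 G8] SHORT/MEDIUM. The columns of `P` are the `u i` and the `v j` (`m = p + q`, `Fin.append u v`, after `subst`), `Pᵀ E P` is the matrix of the products `mf E (col i) (col j)`: diagonal by `Orth`; the diagonal entries are even (`even_form`) and not zero, `2 * a i`; `∑ sign (a i) = p - q` (`Fin.sum_univ_add`).
-/

namespace Pool.Agent.LibGZ87

theorem sig_mod8 {m p q : ℕ} (hm : p + q = m) (E : Matrix (Fin m) (Fin m) ℤ) (hE : E.transpose = E)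
    (he : ∀ i, Even (E i i)) (u : Fin p → Fin m → ℤ) (v : Fin q → Fin m → ℤ) (h : Orth (mf E) u v) :
    ((E.det = 1 ∨ E.det = -1) → (8 : ℤ) ∣ (p : ℤ) - q) ∧
      ((E.det = 2 ∨ E.det = -2) → Odd ((p : ℤ) - q) → (8 : ℤ) ∣ (p : ℤ) - q - 1 ∨ (8 : ℤ) ∣ (p : ℤ) - q + 1) := by
  subst hm
  let w : Fin (p + q) → Fin (p + q) → ℤ := Fin.append u v
  have hwl : ∀ i : Fin p, w (Fin.castAdd q i) = u i := fun i => Fin.append_left u v i
  have hwr : ∀ j : Fin q, w (Fin.natAdd p j) = v j := fun j => Fin.append_right u v j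
  have hdiag : ∀ i j, i ≠ j → mf E (w i) (w j) = 0 := by
    intro i j
    refine Fin.addCases (fun i => ?_) (fun i => ?_) i
    · refine Fin.addCases (fun j hij => ?_) (fun j _ => ?_) j
      · rw [hwl, hwl]
        exact h.uu i j fun hh => hij (by rw [hh])
      · rw [hwl, hwr]
        exact h.uv i j
    · refine Fin.addCases (fun j _ => ?_) (fun j hij => ?_) j
      · rw [hwr, hwl]
        exact h.vu i j
      · rw [hwr, hwr]
        exact h.vv i j fun hh => hij (by rw [hh])
  have hev : ∀ i, ∃ r, mf E (w i) (w i) = 2 * r := fun i => even_iff_two_dvd.1 (even_form hE he (w i))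
  choose a ha using hev
  have hpos : ∀ i : Fin p, 0 < a (Fin.castAdd q i) := by
    intro i
    have h1 := h.pos i
    have h2 := ha (Fin.castAdd q i)
    rw [hwl] at h2
    omega
  have hneg : ∀ j : Fin q, a (Fin.natAdd p j) < 0 := by
    intro j
    have h1 := h.neg j
    have h2 := ha (Fin.natAdd p j)
    rw [hwr] at h2
    omega
  have hne : ∀ i, a i ≠ 0 := by
    intro i
    refine Fin.addCases (fun i => ?_) (fun i => ?_) i
    · exact (hpos i).ne'
    · exact (hneg i).ne
  have hP : (Matrix.of fun i j => w j i).transpose * E * (Matrix.of fun i j => w j i) = Matrix.diagonal fun i => 2 * a i := by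
    ext i j
    have h1 : ((Matrix.of fun i j => w j i).transpose * E * (Matrix.of fun i j => w j i)) i j = mf E (w i) (w j) := by
      rw [Matrix.mul_assoc]
      simp only [Matrix.mul_apply, mf, dotProduct, Matrix.mulVec, Matrix.transpose_apply, Matrix.of_apply]
    rw [h1]
    by_cases hij : i = j
    · subst hij
      rw [Matrix.diagonal_apply_eq]
      exact ha i
    · rw [Matrix.diagonal_apply_ne _ hij]
      exact hdiag i j hij
  have hsum : ∑ i, Int.sign (a i) = (p : ℤ) - q := by
    rw [Fin.sum_univ_add]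
    have h1 : ∀ i : Fin p, Int.sign (a (Fin.castAdd q i)) = 1 := fun i => Int.sign_eq_one_of_pos (hpos i)
    have h2 : ∀ j : Fin q, Int.sign (a (Fin.natAdd p j)) = -1 := fun j => Int.sign_eq_neg_one_of_neg (hneg j)
    simp only [h1, h2]
    simp
    ring
  rw [← hsum]
  exact ⟨fun hd => mod8_one E _ hE he a hne hP hd, fun hd hn => mod8_two E _ hE he a hne hP hd hn⟩

end Pool.Agent.LibGZ87
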