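import Pool.Agent.LibGZ87.Defs

set_option autoImplicit false

/-!
[GZ87 L1] MEDIUM, only Mathlib + Defs. `exists_basis`: `K = ⨅ ker θ_i` is a submodule of a free module of finite rank over a PID, so free of finite rank (`Module.Free`, `Submodule.nonempty_basis_of_pid`, ..); `L = span w ⊕ K` (`x = ∑ θ_i(x) w_i + rest`, `w` is linearly independent by `θ`), put the bases together
(`Basis.prod`-type construction or `LinearEquiv` `(Fin 6 → ℤ) × K ≃ L` and `Basis.map`, `Basis.prod`). `gram_unit`: the map `L → Dual L`, `b ↦ B · b` is surjective, so its matrix (in the basis `b` and the dual basis) is the Gram matrix `G` and has a right inverse: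
for every `i` there is `c` with `B (b j) c = δ_ij`: the coordinates of the `c`'s give `N` with `G * N = 1`.
-/

namespace Pool.Agent.LibGZ87

theorem exists_basis {L : Type} [AddCommGroup L] [Module.Free ℤ L] [Module.Finite ℤ L] (w : Fin 6 → L)
    (θ : Fin 6 → L →ₗ[ℤ] ℤ) (hθ : ∀ i j, θ i (w j) = if i = j then 1 else 0) :
    ∃ (m : ℕ) (b : Module.Basis (Fin 6 ⊕ Fin m) ℤ L), (∀ i, b (Sum.inl i) = w i) ∧ 6 + m = Module.finrank ℤ L := by
  set T : L →ₗ[ℤ] (Fin 6 → ℤ) := LinearMap.pi θ with hT
  set S : (Fin 6 → ℤ) →ₗ[ℤ] L := Fintype.linearCombination ℤ w with hS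
  have hSa : ∀ c : Fin 6 → ℤ, S c = ∑ j, c j • w j := fun c => by
    rw [hS, Fintype.linearCombination_apply]
  have hTS : ∀ c, T (S c) = c := by
    intro c
    funext i
    show θ i (S c) = c i
    rw [hSa, map_sum, Finset.sum_eq_single i]
    · rw [map_smul, hθ, if_pos rfl, smul_eq_mul, mul_one]
    · intro j _ hj
      rw [map_smul, hθ, if_neg (Ne.symm hj), smul_zero]
    · intro hi
      exact absurd (Finset.mem_univ i) hi
  let e : ((Fin 6 → ℤ) × LinearMap.ker T) ≃ₗ[ℤ] L :=
    { toFun := fun p => S p.1 + p.2.1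
      map_add' := by
        intro p q
        rw [Prod.fst_add, Prod.snd_add, map_add, Submodule.coe_add]
        abel
      map_smul' := by
        intro r p
        rw [Prod.smul_fst, Prod.smul_snd, map_smul, Submodule.coe_smul, RingHom.id_apply, smul_add]
      invFun := fun x => (T x, ⟨x - S (T x), by rw [LinearMap.mem_ker, map_sub, hTS, sub_self]⟩)
      left_inv := by
        rintro ⟨c, k, hk⟩
        have hk' : T k = 0 := hk
        have h1 : T (S c + k) = c := by rw [map_add, hTS, hk', add_zero]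
        refine Prod.ext h1 (Subtype.ext ?_)
        show S c + k - S (T (S c + k)) = k
        rw [h1]
        abel
      right_inv := by
        intro x
        show S (T x) + (x - S (T x)) = x
        abel }
  obtain ⟨m, ⟨bK⟩⟩ := Submodule.nonempty_basis_of_pid (Module.Free.chooseBasis ℤ L) (LinearMap.ker T)
  refine ⟨m, ((Pi.basisFun ℤ (Fin 6)).prod bK).map e, ?_, ?_⟩
  · intro i
    rw [Module.Basis.map_apply]
    show S (((Pi.basisFun ℤ (Fin 6)).prod bK) (Sum.inl i)).1 +
      ((((Pi.basisFun ℤ (Fin 6)).prod bK) (Sum.inl i)).2 : L) = w i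
    rw [Module.Basis.prod_apply_inl_fst, Module.Basis.prod_apply_inl_snd, Pi.basisFun_apply, hSa,
      Submodule.coe_zero, add_zero, Finset.sum_eq_single i]
    · rw [Pi.single_eq_same, one_smul]
    · intro j _ hj
      rw [Pi.single_eq_of_ne hj, zero_smul]
    · intro hi
      exact absurd (Finset.mem_univ i) hi
  · rw [Module.finrank_eq_card_basis (((Pi.basisFun ℤ (Fin 6)).prod bK).map e), Fintype.card_sum,
      Fintype.card_fin, Fintype.card_fin]

theorem gram_unit {L ι : Type} [AddCommGroup L] [Fintype ι] [DecidableEq ι] (b : Module.Basis ι ℤ L)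
    (B : L →ₗ[ℤ] L →ₗ[ℤ] ℤ) (hu : ∀ φ : L →ₗ[ℤ] ℤ, ∃ c, ∀ a, φ a = B a c) :
    IsUnit (Matrix.of fun i j => B (b i) (b j) : Matrix ι ι ℤ).det := by
  choose c hc using fun i => hu (b.coord i)
  apply Matrix.isUnit_det_of_right_inverse (B := Matrix.of fun k i => b.repr (c i) k)
  ext j i
  rw [Matrix.mul_apply]
  have h1 : ∑ k, (Matrix.of fun i j => B (b i) (b j) : Matrix ι ι ℤ) j k *
      (Matrix.of fun k i => b.repr (c i) k : Matrix ι ι ℤ) k i = B (b j) (c i) := by
    conv_rhs => rw [← b.sum_repr (c i), map_sum]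
    refine Finset.sum_congr rfl fun k _ => ?_
    rw [map_smul, smul_eq_mul, Matrix.of_apply, Matrix.of_apply]
    ring
  rw [h1, ← hc i (b j), Module.Basis.coord_apply, Module.Basis.repr_self, Matrix.one_apply,
    Finsupp.single_apply]

end Pool.Agent.LibGZ87
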