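import Pool.Agent.LibGZ87.Defs

set_option autoImplicit false

/-!
[GZ87 L2] MEDIUM, only Mathlib + Defs. `Jm * Jm = 1` (`decide`), `Jm.transpose = Jm`, `Jm.det = -1` (`decide` or: product of three transpositions, `Matrix.det_permutation`; `Jm = Equiv.Perm.permMatrix ..`). `sch_even`: the diagonal of `X^T Jm X` is `2 (x_0 x_3 + x_1 x_4 + x_2 x_5)`.
`sch_det`: over `ℤ` without inverses: multiply `fromBlocks (k • Jm) X X^T Y` from the right by `fromBlocks 1 (-(Jm * X)) 0 (k • 1)` (determinant `k ^ m`: `Matrix.det_fromBlocks_zero₂₁`): the product is `fromBlocks (k • Jm) 0 X^T (sch k X Y)` (upper right: `-k Jm Jm X + k X = 0`, lower right: `- X^T Jm X + k Y`),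
determinant `det (k • Jm) * det (sch k X Y) = k ^ 6 * (-1) * det (sch ..)` (`Matrix.det_fromBlocks_zero₁₂`, `Matrix.det_smul`).
-/

namespace Pool.Agent.LibGZ87

private theorem l2_perm : Jm = (((Equiv.swap (0 : Fin 6) 3) * (Equiv.swap 1 4) *
    (Equiv.swap 2 5) : Equiv.Perm (Fin 6)).toPEquiv.toMatrix : Matrix (Fin 6) (Fin 6) ℤ) := by
  ext i j
  fin_cases i <;> fin_cases j <;> decide

private theorem l2_det : Jm.det = -1 := by
  rw [l2_perm, Matrix.det_permutation]
  decide

theorem Jm_sq : Jm * Jm = 1 := by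
  ext i j
  fin_cases i <;> fin_cases j <;> decide

theorem Jm_symm : Jm.transpose = Jm := by
  ext i j
  fin_cases i <;> fin_cases j <;> decide

theorem sch_symm {m : ℕ} (k : ℤ) (X : Matrix (Fin 6) (Fin m) ℤ) {Y : Matrix (Fin m) (Fin m) ℤ}
    (hY : Y.transpose = Y) : (sch k X Y).transpose = sch k X Y := by
  unfold sch
  rw [Matrix.transpose_sub, Matrix.transpose_smul, hY, Matrix.transpose_mul, Matrix.transpose_mul,
    Matrix.transpose_transpose, Jm_symm, Matrix.mul_assoc]

theorem sch_even {m : ℕ} {k : ℤ} (hk : Even k) (X : Matrix (Fin 6) (Fin m) ℤ) (Y : Matrix (Fin m) (Fin m) ℤ)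
    (i : Fin m) : Even (sch k X Y i i) := by
  unfold sch
  have h1 : (X.transpose * Jm * X) i i = 2 * (X 0 i * X 3 i + X 1 i * X 4 i + X 2 i * X 5 i) := by
    simp only [Matrix.mul_apply, Matrix.transpose_apply, Fin.sum_univ_six, Jm, Matrix.of_apply]
    norm_num [Fin.ext_iff]
    ring
  rw [Matrix.sub_apply, h1, Matrix.smul_apply, smul_eq_mul]
  exact (hk.mul_right _).sub (even_two_mul _)

theorem sch_det {m : ℕ} (k : ℤ) (X : Matrix (Fin 6) (Fin m) ℤ) (Y : Matrix (Fin m) (Fin m) ℤ) :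
    (Matrix.fromBlocks (k • Jm) X X.transpose Y).det * k ^ m = - k ^ 6 * (sch k X Y).det := by
  have h1 : Matrix.fromBlocks (k • Jm) X X.transpose Y *
      Matrix.fromBlocks (1 : Matrix (Fin 6) (Fin 6) ℤ) (-(Jm * X)) 0 (k • (1 : Matrix (Fin m) (Fin m) ℤ)) =
      Matrix.fromBlocks (k • Jm) 0 X.transpose (sch k X Y) := by
    rw [Matrix.fromBlocks_multiply]
    congr 1
    · rw [Matrix.mul_one, Matrix.mul_zero, add_zero]
    · rw [Matrix.mul_neg, Matrix.smul_mul, ← Matrix.mul_assoc, Jm_sq, Matrix.one_mul,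
        Matrix.mul_smul, Matrix.mul_one]
      exact neg_add_cancel _
    · rw [Matrix.mul_one, Matrix.mul_zero, add_zero]
    · rw [Matrix.mul_neg, Matrix.mul_smul, Matrix.mul_one, ← Matrix.mul_assoc]
      unfold sch
      rw [sub_eq_add_neg, add_comm]
  have h2 := congrArg Matrix.det h1
  rw [Matrix.det_mul, Matrix.det_fromBlocks_zero₂₁, Matrix.det_fromBlocks_zero₁₂, Matrix.det_one,
    one_mul, Matrix.det_smul, Matrix.det_smul, Matrix.det_one, l2_det, Fintype.card_fin,
    Fintype.card_fin] at h2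
  linarith

end Pool.Agent.LibGZ87
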