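import Pool.Agent.LibGZ87.Defs

set_option autoImplicit false

/-!
[GZ87 L3] MEDIUM, only Mathlib + Defs. Orthogonal vectors for a nondegenerate symmetric integral matrix: the form of `E` over `ℚ` is symmetric, `LinearMap.BilinForm.exists_orthogonal_basis` (`Mathlib.LinearAlgebra.QuadraticForm.Basic`) gives a basis of pairwise orthogonal vectors of `ℚ^m`, no vector has square 0
(otherwise it is orthogonal to everything, `det E ≠ 0`); multiply each vector by a common denominator of its coordinates; sort into positive and negative squares (`Finset.filter`, `Finset.orderEmbOfFin` / `Fintype.equivFin` of the two subtypes, `p + q = m` by `Fintype.card_congr`).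
-/

namespace Pool.Agent.LibGZ87

private theorem L3_den {m : ℕ} (x : Fin m → ℚ) :
    ∃ (d : ℤ) (w : Fin m → ℤ), d ≠ 0 ∧ ∀ j, ((w j : ℤ) : ℚ) = (d : ℚ) * x j := by
  have h : ∀ j, ∃ z : ℤ, (z : ℚ) = ((∏ j, ((x j).den : ℤ) : ℤ) : ℚ) * x j := by
    intro j
    obtain ⟨k, hk⟩ : ((x j).den : ℤ) ∣ ∏ j, ((x j).den : ℤ) :=
      Finset.dvd_prod_of_mem (fun j => ((x j).den : ℤ)) (Finset.mem_univ j)
    refine ⟨k * (x j).num, ?_⟩
    rw [hk]
    push_cast
    have := Rat.mul_den_eq_num (x j)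
    rw [← this]
    ring
  choose w hw using h
  refine ⟨∏ j, ((x j).den : ℤ), w, ?_, hw⟩
  exact Finset.prod_ne_zero_iff.2 fun j _ => by exact_mod_cast (x j).den_ne_zero

private theorem L3_cast {m : ℕ} (E : Matrix (Fin m) (Fin m) ℤ) (a b : Fin m → ℤ) (c d : ℚ)
    (x y : Fin m → ℚ) (ha : ∀ j, ((a j : ℤ) : ℚ) = c * x j) (hb : ∀ j, ((b j : ℤ) : ℚ) = d * y j) :
    ((mf E a b : ℤ) : ℚ) = c * d * Matrix.toBilin' (E.map (Int.cast : ℤ → ℚ)) x y := by
  rw [Matrix.toBilin'_apply']
  simp only [mf, dotProduct, Matrix.mulVec, Matrix.map_apply]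
  push_cast
  simp only [ha, hb, Finset.mul_sum]
  refine Finset.sum_congr rfl fun i _ => Finset.sum_congr rfl fun j _ => ?_
  ring

theorem exists_orth {m : ℕ} (E : Matrix (Fin m) (Fin m) ℤ) (hE : E.transpose = E) (hd : E.det ≠ 0) :
    ∃ (p q : ℕ) (u : Fin p → Fin m → ℤ) (v : Fin q → Fin m → ℤ), p + q = m ∧ Orth (mf E) u v := by
  classical
  obtain ⟨EQ, hEQ⟩ : ∃ EQ : Matrix (Fin m) (Fin m) ℚ, EQ = E.map (Int.cast : ℤ → ℚ) := ⟨_, rfl⟩
  have hsym : (Matrix.toBilin' EQ).IsSymm := by
    rw [Matrix.isSymm_toBilin'_iff_isSymm, hEQ]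
    change (E.map (Int.cast : ℤ → ℚ)).transpose = _
    rw [← Matrix.transpose_map, hE]
  have hdet : EQ.det ≠ 0 := by
    have h1 : EQ.det = ((E.det : ℤ) : ℚ) := by
      rw [hEQ]
      exact (Int.cast_det (R := ℚ) E).symm
    rw [h1]
    exact_mod_cast hd
  have hnd : (Matrix.toBilin' EQ).Nondegenerate :=
    LinearMap.BilinForm.nondegenerate_toBilin'_of_det_ne_zero' EQ hdet
  have : Invertible (2 : ℚ) := invertibleOfNonzero two_ne_zero
  obtain ⟨v, hv⟩ := LinearMap.BilinForm.exists_orthogonal_basis (B := Matrix.toBilin' EQ)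
    (LinearMap.BilinForm.isSymm_iff.1 hsym)
  have hfr : Module.finrank ℚ (Fin m → ℚ) = m := by simp
  have hself := hv.not_isOrtho_basis_self_of_separatingLeft hnd.1
  choose d w hd0 hw using fun i : Fin m => L3_den (v (Fin.cast hfr.symm i))
  have hcast : ∀ i j, ((mf E (w i) (w j) : ℤ) : ℚ) = (d i : ℚ) * d j *
      Matrix.toBilin' EQ (v (Fin.cast hfr.symm i)) (v (Fin.cast hfr.symm j)) := by
    intro i j
    rw [hEQ]
    exact L3_cast E (w i) (w j) (d i) (d j) _ _ (hw i) (hw j)
  have hort : ∀ i j, i ≠ j → mf E (w i) (w j) = 0 := by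
    intro i j hij
    have h1 : Matrix.toBilin' EQ (v (Fin.cast hfr.symm i)) (v (Fin.cast hfr.symm j)) = 0 :=
      hv (fun h => hij (Fin.cast_injective _ h))
    have h2 := hcast i j
    rw [h1, mul_zero] at h2
    exact_mod_cast h2
  have hne : ∀ i, mf E (w i) (w i) ≠ 0 := by
    intro i h
    have h2 := hcast i i
    rw [h, Int.cast_zero] at h2
    have h3 : (d i : ℚ) ≠ 0 := by exact_mod_cast hd0 i
    exact (mul_ne_zero (mul_ne_zero h3 h3) (hself _)) h2.symm
  let P : Fin m → Prop := fun i => 0 < mf E (w i) (w i)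
  refine ⟨Fintype.card {i // P i}, Fintype.card {i // ¬ P i},
    fun i => w ((Fintype.equivFin {i // P i}).symm i).1,
    fun j => w ((Fintype.equivFin {i // ¬ P i}).symm j).1, ?_, ?_⟩
  · rw [← Fintype.card_sum, Fintype.card_congr (Equiv.sumCompl P), Fintype.card_fin]
  · refine ⟨fun i j hij => hort _ _ fun h => hij ?_, fun i j hij => hort _ _ fun h => hij ?_,
      fun i j => hort _ _ fun h => ?_, fun i j => hort _ _ fun h => ?_, fun i => ?_, fun j => ?_⟩
    · exact (Fintype.equivFin {i // P i}).symm.injective (Subtype.ext h)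
    · exact (Fintype.equivFin {i // ¬ P i}).symm.injective (Subtype.ext h)
    · have h1 := ((Fintype.equivFin {i // P i}).symm i).2
      have h2 := ((Fintype.equivFin {i // ¬ P i}).symm j).2
      rw [← h] at h2
      exact h2 h1
    · have h1 := ((Fintype.equivFin {i // P i}).symm j).2
      have h2 := ((Fintype.equivFin {i // ¬ P i}).symm i).2
      rw [h] at h2
      exact h2 h1
    · exact ((Fintype.equivFin {i // P i}).symm i).2
    · have h2 := ((Fintype.equivFin {i // ¬ P i}).symm j).2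
      exact lt_of_le_of_ne (not_lt.1 h2) (hne _)

end Pool.Agent.LibGZ87
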