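import Pool.Agent.LibGZ87.L2

set_option autoImplicit false

/-!
[GZ87 L4] MEDIUM. Transfer of orthogonal systems. `b` a basis of `L` indexed by `Fin 6 ⊕ Fin m` with `B (b (inl i)) (b (inl j)) = k * Jm i j`, `X i j = B (b (inl i)) (b (inr j))`, `Y i j = B (b (inr i)) (b (inr j))`, `E = sch k X Y`. For `x : Fin m → ℤ` let
`ι x = k ∑_j x_j b (inr j) - ∑_i (Jm.mulVec (X.mulVec x)) i • b (inl i)`. Then `B (ι x) (b (inl l)) = 0` and `B (ι x) (ι y) = k * mf E x y` (`Jm * Jm = 1`). For `l = 0, 1, 2`: `B (w_l + w_(l+3))` has square `2 k`, `w_l - w_(l+3)` square `-2 k`, all six are pairwise orthogonal and orthogonal to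
the `ι x`. `k > 0`: positive: `w_l + w_(l+3)`, `ι (u i)`; negative: `w_l - w_(l+3)`, `ι (v j)` (`Fin.append`). `k < 0`: the roles are exchanged.
-/

namespace Pool.Agent.LibGZ87

open Matrix

private theorem orth_append {L : Type} {C : L → L → ℤ} {a b p q : ℕ} {P : Fin a → L} {N : Fin b → L}
    {α : Fin p → L} {β : Fin q → L} (h1 : Orth C P N) (h2 : Orth C α β)
    (h3 : ∀ i j, C (P i) (α j) = 0) (h3' : ∀ i j, C (α j) (P i) = 0)
    (h4 : ∀ i j, C (P i) (β j) = 0) (h4' : ∀ i j, C (β j) (P i) = 0)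
    (h5 : ∀ i j, C (N i) (α j) = 0) (h5' : ∀ i j, C (α j) (N i) = 0)
    (h6 : ∀ i j, C (N i) (β j) = 0) (h6' : ∀ i j, C (β j) (N i) = 0) :
    Orth C (Fin.append P α) (Fin.append N β) := by
  constructor
  · intro i j
    refine Fin.addCases (fun i => ?_) (fun i => ?_) i <;> refine Fin.addCases (fun j => ?_) (fun j => ?_) j <;>
      intro hij
    · rw [Fin.append_left, Fin.append_left]
      exact h1.uu i j (fun h => hij (by rw [h]))
    · rw [Fin.append_left, Fin.append_right]
      exact h3 i j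
    · rw [Fin.append_left, Fin.append_right]
      exact h3' j i
    · rw [Fin.append_right, Fin.append_right]
      exact h2.uu i j (fun h => hij (by rw [h]))
  · intro i j
    refine Fin.addCases (fun i => ?_) (fun i => ?_) i <;> refine Fin.addCases (fun j => ?_) (fun j => ?_) j <;>
      intro hij
    · rw [Fin.append_left, Fin.append_left]
      exact h1.vv i j (fun h => hij (by rw [h]))
    · rw [Fin.append_left, Fin.append_right]
      exact h6 i j
    · rw [Fin.append_left, Fin.append_right]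
      exact h6' j i
    · rw [Fin.append_right, Fin.append_right]
      exact h2.vv i j (fun h => hij (by rw [h]))
  · intro i j
    refine Fin.addCases (fun i => ?_) (fun i => ?_) i <;> refine Fin.addCases (fun j => ?_) (fun j => ?_) j
    · rw [Fin.append_left, Fin.append_left]
      exact h1.uv i j
    · rw [Fin.append_left, Fin.append_right]
      exact h4 i j
    · rw [Fin.append_left, Fin.append_right]
      exact h5' j i
    · rw [Fin.append_right, Fin.append_right]
      exact h2.uv i j
  · intro i j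
    refine Fin.addCases (fun i => ?_) (fun i => ?_) i <;> refine Fin.addCases (fun j => ?_) (fun j => ?_) j
    · rw [Fin.append_left, Fin.append_left]
      exact h1.vu i j
    · rw [Fin.append_left, Fin.append_right]
      exact h5 i j
    · rw [Fin.append_left, Fin.append_right]
      exact h4' j i
    · rw [Fin.append_right, Fin.append_right]
      exact h2.vu i j
  · intro i
    refine Fin.addCases (fun i => ?_) (fun i => ?_) i
    · rw [Fin.append_left]
      exact h1.pos i
    · rw [Fin.append_right]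
      exact h2.pos i
  · intro i
    refine Fin.addCases (fun i => ?_) (fun i => ?_) i
    · rw [Fin.append_left]
      exact h1.neg i
    · rw [Fin.append_right]
      exact h2.neg i

private theorem bil {L ι κ : Type} [AddCommGroup L] [Fintype ι] [Fintype κ] (B : L →ₗ[ℤ] L →ₗ[ℤ] ℤ)
    (f : ι → L) (g : κ → L) (c : ι → ℤ) (d : κ → ℤ) :
    B (∑ i, c i • f i) (∑ j, d j • g j) = c ⬝ᵥ (Matrix.of fun i j => B (f i) (g j)).mulVec d := by
  simp only [map_sum, LinearMap.sum_apply, map_smul, LinearMap.smul_apply, smul_eq_mul, dotProduct, mulVec,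
    Matrix.of_apply, Finset.mul_sum]
  rw [Finset.sum_comm]
  refine Finset.sum_congr rfl fun i _ => Finset.sum_congr rfl fun j _ => ?_
  ring

private def cP (l : Fin 3) : Fin 6 → ℤ := fun i => if (i : ℕ) = l ∨ (i : ℕ) = l + 3 then 1 else 0

private def cN (l : Fin 3) : Fin 6 → ℤ := fun i => if (i : ℕ) = l then 1 else if (i : ℕ) = l + 3 then -1 else 0

private theorem cPP : ∀ l l' : Fin 3, cP l ⬝ᵥ Jm.mulVec (cP l') = if l = l' then 2 else 0 := by
  intro l l'
  fin_cases l <;> fin_cases l' <;> simp [cP, Jm, dotProduct, mulVec, Fin.sum_univ_succ]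

private theorem cNN : ∀ l l' : Fin 3, cN l ⬝ᵥ Jm.mulVec (cN l') = if l = l' then -2 else 0 := by
  intro l l'
  fin_cases l <;> fin_cases l' <;> simp [cN, Jm, dotProduct, mulVec, Fin.sum_univ_succ]

private theorem cPN : ∀ l l' : Fin 3, cP l ⬝ᵥ Jm.mulVec (cN l') = 0 := by
  intro l l'
  fin_cases l <;> fin_cases l' <;> simp [cP, cN, Jm, dotProduct, mulVec, Fin.sum_univ_succ]

private theorem J_adj (c d : Fin 6 → ℤ) : Jm.mulVec c ⬝ᵥ d = c ⬝ᵥ Jm.mulVec d := by
  rw [dotProduct_comm, dotProduct_mulVec, dotProduct_comm, ← mulVec_transpose, Jm_symm]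

private theorem JJ (c : Fin 6 → ℤ) : Jm.mulVec (Jm.mulVec c) = c := by
  rw [mulVec_mulVec, Jm_sq, one_mulVec]

theorem transfer {L : Type} [AddCommGroup L] {m : ℕ} (b : Module.Basis (Fin 6 ⊕ Fin m) ℤ L)
    (B : L →ₗ[ℤ] L →ₗ[ℤ] ℤ) (hs : ∀ x y, B x y = B y x) {k : ℤ} (hk : k ≠ 0)
    (hw : ∀ i j, B (b (Sum.inl i)) (b (Sum.inl j)) = k * Jm i j) {p q : ℕ} (u : Fin p → Fin m → ℤ)
    (v : Fin q → Fin m → ℤ)
    (h : Orth (mf (sch k (Matrix.of fun i j => B (b (Sum.inl i)) (b (Sum.inr j)))
      (Matrix.of fun i j => B (b (Sum.inr i)) (b (Sum.inr j))))) u v) :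
    (0 < k → ∃ (u' : Fin (3 + p) → L) (v' : Fin (3 + q) → L), Orth (fun x y => B x y) u' v') ∧
      (k < 0 → ∃ (u' : Fin (3 + q) → L) (v' : Fin (3 + p) → L), Orth (fun x y => B x y) u' v') := by
  set X : Matrix (Fin 6) (Fin m) ℤ := Matrix.of fun i j => B (b (Sum.inl i)) (b (Sum.inr j)) with hX
  set Y : Matrix (Fin m) (Fin m) ℤ := Matrix.of fun i j => B (b (Sum.inr i)) (b (Sum.inr j)) with hY
  let Sw : (Fin 6 → ℤ) → L := fun c => ∑ i, c i • b (Sum.inl i)
  let Sz : (Fin m → ℤ) → L := fun c => ∑ i, c i • b (Sum.inr i)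
  have hww : ∀ c d, B (Sw c) (Sw d) = k * (c ⬝ᵥ Jm.mulVec d) := by
    intro c d
    have e : (Matrix.of fun i j => B (b (Sum.inl i)) (b (Sum.inl j)) : Matrix (Fin 6) (Fin 6) ℤ) = k • Jm := by
      ext i j
      simp [hw]
    rw [show B (Sw c) (Sw d) = _ from bil B _ _ c d, e, smul_mulVec, dotProduct_smul, smul_eq_mul]
  have hwz : ∀ c d, B (Sw c) (Sz d) = c ⬝ᵥ X.mulVec d := fun c d => bil B _ _ c d
  have hzw : ∀ c d, B (Sz c) (Sw d) = d ⬝ᵥ X.mulVec c := fun c d => by rw [hs, hwz]
  have hzz : ∀ c d, B (Sz c) (Sz d) = c ⬝ᵥ Y.mulVec d := fun c d => bil B _ _ c d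
  let io : (Fin m → ℤ) → L := fun x => k • Sz x - Sw (Jm.mulVec (X.mulVec x))
  have h1 : ∀ x d, B (io x) (Sw d) = 0 := by
    intro x d
    show B (k • Sz x - Sw (Jm.mulVec (X.mulVec x))) (Sw d) = 0
    rw [map_sub, map_smul, LinearMap.sub_apply, LinearMap.smul_apply, hzw, hww, smul_eq_mul, J_adj, JJ,
      dotProduct_comm d, sub_self]
  have h1' : ∀ x d, B (Sw d) (io x) = 0 := fun x d => by rw [hs, h1]
  have h2 : ∀ x y, B (io x) (io y) = k * mf (sch k X Y) x y := by
    intro x y
    have e1 : B (io x) (io y) = k * B (io x) (Sz y) := by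
      show B (io x) (k • Sz y - Sw (Jm.mulVec (X.mulVec y))) = _
      rw [map_sub, map_smul, h1, sub_zero, smul_eq_mul]
    have e2 : B (io x) (Sz y) = k * (x ⬝ᵥ Y.mulVec y) - (X.mulVec x) ⬝ᵥ (Jm.mulVec (X.mulVec y)) := by
      show B (k • Sz x - Sw (Jm.mulVec (X.mulVec x))) (Sz y) = _
      rw [map_sub, map_smul, LinearMap.sub_apply, LinearMap.smul_apply, hzz, hwz, smul_eq_mul, J_adj]
    rw [e1, e2, mf, sch, sub_mulVec, dotProduct_sub, smul_mulVec, dotProduct_smul, smul_eq_mul,
      ← mulVec_mulVec, ← mulVec_mulVec, dotProduct_mulVec x X.transpose, vecMul_transpose]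
  have hPN : 0 < k → Orth (fun x y => B x y) (fun l => Sw (cP l)) (fun l => Sw (cN l)) := by
    intro hk0
    constructor
    · intro i j hij
      show B _ _ = 0
      rw [hww, cPP, if_neg hij, mul_zero]
    · intro i j hij
      show B _ _ = 0
      rw [hww, cNN, if_neg hij, mul_zero]
    · intro i j
      show B _ _ = 0
      rw [hww, cPN, mul_zero]
    · intro i j
      show B _ _ = 0
      rw [hs, hww, cPN, mul_zero]
    · intro i
      show 0 < B _ _
      rw [hww, cPP, if_pos rfl]
      omega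
    · intro i
      show B _ _ < 0
      rw [hww, cNN, if_pos rfl]
      omega
  have hNP : k < 0 → Orth (fun x y => B x y) (fun l => Sw (cN l)) (fun l => Sw (cP l)) := by
    intro hk0
    constructor
    · intro i j hij
      show B _ _ = 0
      rw [hww, cNN, if_neg hij, mul_zero]
    · intro i j hij
      show B _ _ = 0
      rw [hww, cPP, if_neg hij, mul_zero]
    · intro i j
      show B _ _ = 0
      rw [hs, hww, cPN, mul_zero]
    · intro i j
      show B _ _ = 0
      rw [hww, cPN, mul_zero]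
    · intro i
      show 0 < B _ _
      rw [hww, cNN, if_pos rfl]
      omega
    · intro i
      show B _ _ < 0
      rw [hww, cPP, if_pos rfl]
      omega
  have hA : 0 < k → Orth (fun x y => B x y) (fun i => io (u i)) (fun j => io (v j)) := by
    intro hk0
    constructor
    · intro i j hij
      show B _ _ = 0
      rw [h2, h.uu i j hij, mul_zero]
    · intro i j hij
      show B _ _ = 0
      rw [h2, h.vv i j hij, mul_zero]
    · intro i j
      show B _ _ = 0
      rw [h2, h.uv i j, mul_zero]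
    · intro i j
      show B _ _ = 0
      rw [h2, h.vu i j, mul_zero]
    · intro i
      show 0 < B _ _
      rw [h2]
      exact mul_pos hk0 (h.pos i)
    · intro i
      show B _ _ < 0
      rw [h2]
      exact mul_neg_of_pos_of_neg hk0 (h.neg i)
  have hA' : k < 0 → Orth (fun x y => B x y) (fun j => io (v j)) (fun i => io (u i)) := by
    intro hk0
    constructor
    · intro i j hij
      show B _ _ = 0
      rw [h2, h.vv i j hij, mul_zero]
    · intro i j hij
      show B _ _ = 0
      rw [h2, h.uu i j hij, mul_zero]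
    · intro i j
      show B _ _ = 0
      rw [h2, h.vu i j, mul_zero]
    · intro i j
      show B _ _ = 0
      rw [h2, h.uv i j, mul_zero]
    · intro i
      show 0 < B _ _
      rw [h2]
      exact mul_pos_of_neg_of_neg hk0 (h.neg i)
    · intro i
      show B _ _ < 0
      rw [h2]
      exact mul_neg_of_neg_of_pos hk0 (h.pos i)
  constructor
  · intro hk0
    exact ⟨_, _, orth_append (hPN hk0) (hA hk0) (fun i j => h1' _ _) (fun i j => h1 _ _) (fun i j => h1' _ _)
      (fun i j => h1 _ _) (fun i j => h1' _ _) (fun i j => h1 _ _) (fun i j => h1' _ _) (fun i j => h1 _ _)⟩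
  · intro hk0
    exact ⟨_, _, orth_append (hNP hk0) (hA' hk0) (fun i j => h1' _ _) (fun i j => h1 _ _) (fun i j => h1' _ _)
      (fun i j => h1 _ _) (fun i j => h1' _ _) (fun i j => h1 _ _) (fun i j => h1' _ _) (fun i j => h1 _ _)⟩

end Pool.Agent.LibGZ87
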