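import Pool.Agent.LibGZ87.Defs

set_option autoImplicit false

/-!
[GZ87 L5] MEDIUM, only Mathlib + Defs. Sylvester's law of inertia. If `p + q' > finrank L` then the `p + q'` vectors `u i`, `v' j` are linearly dependent over `ℤ` (`L` free of rank `< p + q'`; `LinearIndependent.fintype_card_le_finrank`): `∑ c_i u_i = ∑ d_j v'_j =: z` with some coefficient not zero.
`B z z = ∑ c_i² B u_i u_i ≥ 0` and `= ∑ d_j² B v'_j v'_j ≤ 0`, so both are 0 and all `c_i`, `d_j` are 0: contradiction. So `p + q' ≤ rank = p' + q'`, `p ≤ p'`; by symmetry `p = p'`, `q = q'`.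
-/

namespace Pool.Agent.LibGZ87

private theorem L5_sq {L : Type} [AddCommGroup L] (B : L →ₗ[ℤ] L →ₗ[ℤ] ℤ) {n : ℕ} {w : Fin n → L}
    (h : ∀ i j, i ≠ j → B (w i) (w j) = 0) (c : Fin n → ℤ) :
    B (∑ i, c i • w i) (∑ i, c i • w i) = ∑ i, c i ^ 2 * B (w i) (w i) := by
  rw [map_sum]
  refine Finset.sum_congr rfl fun i _ => ?_
  rw [map_sum, LinearMap.sum_apply, Finset.sum_eq_single i]
  · simp only [map_smul, LinearMap.smul_apply, smul_eq_mul]
    ring
  · intro j _ hj
    simp only [map_smul, LinearMap.smul_apply, smul_eq_mul]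
    rw [h j i hj]
    simp
  · intro hi
    exact absurd (Finset.mem_univ i) hi

private theorem L5_key {L : Type} [AddCommGroup L] [Module.Free ℤ L] [Module.Finite ℤ L]
    (B : L →ₗ[ℤ] L →ₗ[ℤ] ℤ) {p q : ℕ} {u : Fin p → L} {v : Fin q → L}
    (huu : ∀ i j, i ≠ j → B (u i) (u j) = 0) (hvv : ∀ i j, i ≠ j → B (v i) (v j) = 0)
    (hpos : ∀ i, 0 < B (u i) (u i)) (hneg : ∀ j, B (v j) (v j) < 0) :
    p + q ≤ Module.finrank ℤ L := by
  have li : LinearIndependent ℤ (Sum.elim u v) := by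
    rw [Fintype.linearIndependent_iff]
    intro g hg
    rw [Fintype.sum_sum_type] at hg
    simp only [Sum.elim_inl, Sum.elim_inr] at hg
    have hz : (∑ i, g (Sum.inl i) • u i) = -∑ j, g (Sum.inr j) • v j := eq_neg_of_add_eq_zero_left hg
    have h1 := L5_sq B huu (fun i => g (Sum.inl i))
    have h2 := L5_sq B hvv (fun j => g (Sum.inr j))
    have h3 : B (∑ i, g (Sum.inl i) • u i) (∑ i, g (Sum.inl i) • u i) =
        B (∑ j, g (Sum.inr j) • v j) (∑ j, g (Sum.inr j) • v j) := by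
      rw [hz, map_neg, map_neg, LinearMap.neg_apply, neg_neg]
    have h4 : 0 ≤ ∑ i, g (Sum.inl i) ^ 2 * B (u i) (u i) :=
      Finset.sum_nonneg fun i _ => mul_nonneg (sq_nonneg _) (hpos i).le
    have h5 : ∑ j, g (Sum.inr j) ^ 2 * B (v j) (v j) ≤ 0 :=
      Finset.sum_nonpos fun j _ => mul_nonpos_of_nonneg_of_nonpos (sq_nonneg _) (hneg j).le
    have h6 : ∑ i, g (Sum.inl i) ^ 2 * B (u i) (u i) = 0 := by
      have := h1.symm.trans (h3.trans h2)
      linarith
    have h7 : ∑ j, g (Sum.inr j) ^ 2 * B (v j) (v j) = 0 := by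
      have := h1.symm.trans (h3.trans h2)
      linarith
    rw [Finset.sum_eq_zero_iff_of_nonneg fun i _ => mul_nonneg (sq_nonneg _) (hpos i).le] at h6
    rw [Finset.sum_eq_zero_iff_of_nonpos fun j _ =>
      mul_nonpos_of_nonneg_of_nonpos (sq_nonneg _) (hneg j).le] at h7
    rintro (i | j)
    · rcases mul_eq_zero.1 (h6 i (Finset.mem_univ i)) with h | h
      · exact pow_eq_zero_iff (two_ne_zero) |>.1 h
      · exact absurd h (hpos i).ne'
    · rcases mul_eq_zero.1 (h7 j (Finset.mem_univ j)) with h | h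
      · exact pow_eq_zero_iff (two_ne_zero) |>.1 h
      · exact absurd h (hneg j).ne
  have := li.fintype_card_le_finrank
  rwa [Fintype.card_sum, Fintype.card_fin, Fintype.card_fin] at this

theorem sylvester {L : Type} [AddCommGroup L] [Module.Free ℤ L] [Module.Finite ℤ L] (B : L →ₗ[ℤ] L →ₗ[ℤ] ℤ)
    {p q p' q' : ℕ} {u : Fin p → L} {v : Fin q → L} {u' : Fin p' → L} {v' : Fin q' → L}
    (h : Orth (fun x y => B x y) u v) (h' : Orth (fun x y => B x y) u' v') (hr : p + q = Module.finrank ℤ L)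
    (hr' : p' + q' = Module.finrank ℤ L) : p = p' ∧ q = q' := by
  have h1 := L5_key B (u := u) (v := v') h.uu h'.vv h.pos h'.neg
  have h2 := L5_key B (u := u') (v := v) h'.uu h.vv h'.pos h.neg
  omega

end Pool.Agent.LibGZ87
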