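import Pool.Agent.LibGZ87.L1
import Pool.Agent.LibGZ87.L2
import Pool.Agent.LibGZ87.L3
import Pool.Agent.LibGZ87.L4
import Pool.Agent.LibGZ87.L5
import Pool.Agent.LibGZ87.G8

set_option autoImplicit false

/-!
The lattice theorem (assembly).
-/

namespace Pool.Agent.LibGZ87

theorem lattice {L : Type} [AddCommGroup L] [Module.Free ℤ L] [Module.Finite ℤ L] (B : L →ₗ[ℤ] L →ₗ[ℤ] ℤ)
    (hs : ∀ x y, B x y = B y x) (hu : ∀ φ : L →ₗ[ℤ] ℤ, ∃ c, ∀ a, φ a = B a c) {k : ℤ} (hk : k ≠ 0)
    (he : Even k) (w : Fin 6 → L) (θ : Fin 6 → L →ₗ[ℤ] ℤ) (hθ : ∀ i j, θ i (w j) = if i = j then 1 else 0)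
    (hw : ∀ i j, B (w i) (w j) = k * Jm i j) {p q : ℕ} (u : Fin p → L) (v : Fin q → L)
    (hpq : p + q = Module.finrank ℤ L) (h : Orth (fun x y => B x y) u v) :
    (Module.finrank ℤ L = 12 → (p : ℤ) - q = 0) ∧
      ((k = 2 ∨ k = -2) → Module.finrank ℤ L = 13 →
        (p : ℤ) - q = 1 ∨ (p : ℤ) - q = -1 ∨ (p : ℤ) - q = 7 ∨ (p : ℤ) - q = -7) := by
  obtain ⟨m, b, hb, hm⟩ := exists_basis w θ hθ
  set X : Matrix (Fin 6) (Fin m) ℤ := Matrix.of fun i j => B (b (Sum.inl i)) (b (Sum.inr j)) with hX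
  set Y : Matrix (Fin m) (Fin m) ℤ := Matrix.of fun i j => B (b (Sum.inr i)) (b (Sum.inr j)) with hY
  have hYs : Y.transpose = Y := by
    ext i j
    exact hs _ _
  have hwb : ∀ i j, B (b (Sum.inl i)) (b (Sum.inl j)) = k * Jm i j := by
    intro i j
    rw [hb, hb]
    exact hw i j
  have hG : (Matrix.of fun i j => B (b i) (b j) : Matrix (Fin 6 ⊕ Fin m) (Fin 6 ⊕ Fin m) ℤ) =
      Matrix.fromBlocks (k • Jm) X X.transpose Y := by
    ext i j
    rcases i with i | i <;> rcases j with j | j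
    · exact hwb i j
    · rfl
    · exact hs _ _
    · rfl
  have hunit := gram_unit b B hu
  rw [hG] at hunit
  have hdet := sch_det k X Y
  set E := sch k X Y with hE
  have hEs : E.transpose = E := sch_symm k X hYs
  have hEe : ∀ i, Even (E i i) := fun i => sch_even he X Y i
  have hG1 : (Matrix.fromBlocks (k • Jm) X X.transpose Y).det = 1 ∨
      (Matrix.fromBlocks (k • Jm) X X.transpose Y).det = -1 := Int.isUnit_iff.mp hunit
  have hEd : E.det ≠ 0 := by
    intro h0
    rw [h0, mul_zero] at hdet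
    rcases mul_eq_zero.mp hdet with h1 | h1
    · rw [h1] at hunit
      exact not_isUnit_zero hunit
    · exact pow_ne_zero m hk h1
  obtain ⟨p', q', u', v', hpq', hO⟩ := exists_orth E hEs hEd
  have hcases : (p = 3 + p' ∧ q = 3 + q') ∨ (p = 3 + q' ∧ q = 3 + p') := by
    obtain ⟨h1, h2⟩ := transfer b B hs hk hwb u' v' hO
    rcases lt_or_gt_of_ne hk with hneg | hpos
    · right
      obtain ⟨u'', v'', h3⟩ := h2 hneg
      exact sylvester B h h3 hpq (by omega)
    · left
      obtain ⟨u'', v'', h3⟩ := h1 hpos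
      exact sylvester B h h3 hpq (by omega)
  obtain ⟨hm1, hm2⟩ := sig_mod8 hpq' E hEs hEe u' v' hO
  constructor
  · intro h12
    have hm6 : m = 6 := by omega
    have hdE : E.det = 1 ∨ E.det = -1 := by
      have hkm : k ^ m = k ^ 6 := by rw [hm6]
      rw [hkm] at hdet
      have h6 : k ^ 6 ≠ 0 := pow_ne_zero 6 hk
      have h7 : E.det = - (Matrix.fromBlocks (k • Jm) X X.transpose Y).det := by
        apply mul_left_cancel₀ h6
        linear_combination hdet
      rcases hG1 with h8 | h8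
      · right
        rw [h7, h8]
      · left
        rw [h7, h8, neg_neg]
    have h8 := hm1 hdE
    omega
  · intro hk2 h13
    have hm7 : m = 7 := by omega
    have hdE : E.det = 2 ∨ E.det = -2 := by
      have hkm : k ^ m = k ^ 7 := by rw [hm7]
      rw [hkm] at hdet
      have h6 : k ^ 6 ≠ 0 := pow_ne_zero 6 hk
      have h7 : E.det = - ((Matrix.fromBlocks (k • Jm) X X.transpose Y).det * k) := by
        apply mul_left_cancel₀ h6
        linear_combination hdet
      rcases hG1 with h8 | h8 <;> rcases hk2 with h9 | h9 <;> rw [h7, h8, h9] <;> norm_num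
    have hodd : Odd ((p' : ℤ) - q') := by
      rw [Int.odd_iff]
      omega
    have h8 := hm2 hdE hodd
    omega

end Pool.Agent.LibGZ87
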