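import Pool.Agent.LibGZ87.A6
import Pool.Agent.LibGZ87.C1
import Pool.Agent.LibGZ87.M1

set_option autoImplicit false

/-!
Assembly of MP_405732_gt.
-/

namespace Pool.Agent.LibGZ87

theorem main {M : Type} [TopologicalSpace M] [PathConnectedSpace M] (μ : Sx M 4 →₀ ℤ) (hM : PD4 μ) (x : M)
    (f : FundamentalGroup M x ≃* Multiplicative (Fin 4 → ℤ)) (k : ℤ) (hk : Deg μ x f k) (h0 : k ≠ 0)
    (s : ℤ) (hs : IsSig μ s) :
    (Even k → chi M = 6 → s = 0) ∧
      ((k = 2 ∨ k = -2) → chi M = 7 → s = 1 ∨ s = -1 ∨ s = 7 ∨ s = -7) := by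
  obtain ⟨a, ha, hdeg⟩ := hk
  obtain ⟨w, θ, hθ, hw⟩ := hyper hM.cyc ha hdeg
  obtain ⟨B, hB, hBs, hBu⟩ := form hM
  obtain ⟨p, q, u, v, hpq, rfl, hO⟩ := hs
  have hfin := hM.fin 2
  have htf : IsAddTorsionFree (FH M 2) := by
    refine ⟨fun n hn a b hab => ?_⟩
    have h1 : (n : ℤ) • (a - b) = 0 := by
      rw [smul_sub, natCast_zsmul, natCast_zsmul, sub_eq_zero]
      exact hab
    exact sub_eq_zero.mp (FH_tf 2 (n : ℤ) (by exact_mod_cast hn) _ h1)
  have hfree : Module.Free ℤ (FH M 2) := inferInstance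
  have hO' : Orth (fun x y => B x y) (fun i => (Submodule.Quotient.mk (u i) : FH M 2))
      (fun j => Submodule.Quotient.mk (v j)) := by
    constructor
    · intro i j hij
      exact (hB _ _).trans (hO.uu i j hij)
    · intro i j hij
      exact (hB _ _).trans (hO.vv i j hij)
    · intro i j
      exact (hB _ _).trans (hO.uv i j)
    · intro i j
      exact (hB _ _).trans (hO.vu i j)
    · intro i
      exact lt_of_lt_of_eq (hO.pos i) (hB _ _).symm
    · intro i
      exact lt_of_eq_of_lt (hB _ _) (hO.neg i)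
  have hchi : chi M = (Module.finrank ℤ (FH M 2) : ℤ) - 6 := by
    have h1 := rank1 ha
    have h2 := rank0 (M := M)
    have h3 := rank_eq hM 1 3 rfl
    have h4 := rank_eq hM 0 4 rfl
    unfold chi
    rw [Finset.sum_range_succ, Finset.sum_range_succ, Finset.sum_range_succ, Finset.sum_range_succ,
      Finset.sum_range_one, ← h3, ← h4, h1, h2]
    norm_num
    ring
  have hlat := fun he : Even k => lattice B hBs hBu h0 he (fun i => Submodule.Quotient.mk (w i)) θ hθ
    (fun i j => (hB _ _).trans (hw i j)) _ _ hpq hO'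
  constructor
  · intro he h6
    exact (hlat he).1 (by omega)
  · intro hk2 h7
    have he : Even k := by
      rcases hk2 with h | h <;> rw [h] <;> decide
    exact (hlat he).2 hk2 (by omega)

end Pool.Agent.LibGZ87
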