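import Pool.Agent.LibGZ87.DefsE
import Pool.Agent.LibGZ87.M2

set_option autoImplicit false

/-!
The main theorem in terms of the elementary definitions of `DefsE`.
-/

namespace Pool.Agent.LibGZ87

noncomputable section

open Finset

variable {M : Type} [TopologicalSpace M]

theorem el_dl (n : ℕ) (a : Co M n) : El.dl n a = dl n a := rfl

theorem el_ev {n : ℕ} (μ : Sx M n →₀ ℤ) (a : Co M n) : El.ev μ a = ev μ a := rfl

theorem el_cup {p q n : ℕ} (h : p + q = n) (a : Co M p) (b : Co M q) : El.cup h a b = cup h a b := rfl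

theorem el_cob (n : ℕ) (a : Co M n) : El.Cob n a ↔ a ∈ Bc M n := by
  cases n with
  | zero => exact (Submodule.mem_bot ℤ).symm
  | succ n =>
    constructor
    · rintro ⟨b, hb⟩
      exact ⟨b, hb⟩
    · rintro ⟨b, hb⟩
      exact ⟨b, hb⟩

theorem el_mem {n : ℕ} {a : Co M n} (h : El.Cocyc n a) : a ∈ Zc M n := h

theorem el_tors (n : ℕ) (a : Zc M n) : El.Tors n (a : Co M n) ↔ a ∈ Tr M n := by
  constructor
  · rintro ⟨m, hm, h⟩
    exact ⟨m, hm, (el_cob n _).mp h⟩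
  · rintro ⟨m, hm, h⟩
    exact ⟨m, hm, (el_cob n _).mpr h⟩

theorem el_betti {n r : ℕ} (h : El.IsBetti M n r) :
    Module.Finite ℤ (FH M n) ∧ Module.finrank ℤ (FH M n) = r := by
  obtain ⟨w, hw, hi, hs⟩ := h
  let F : (Fin r → ℤ) →ₗ[ℤ] FH M n :=
    Fintype.linearCombination ℤ (fun i => (Submodule.Quotient.mk (⟨w i, hw i⟩ : Zc M n) : FH M n))
  have hF : ∀ c, F c = Submodule.Quotient.mk (∑ i, c i • (⟨w i, hw i⟩ : Zc M n)) := by
    intro c
    rw [Fintype.linearCombination_apply]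
    rw [← Submodule.mkQ_apply, map_sum]
    refine sum_congr rfl fun i _ => ?_
    rw [map_smul, Submodule.mkQ_apply]
  have hco : ∀ c : Fin r → ℤ, ((∑ i, c i • (⟨w i, hw i⟩ : Zc M n) : Zc M n) : Co M n) = ∑ i, c i • w i := by
    intro c
    rw [Submodule.coe_sum]
    rfl
  have hinj : Function.Injective F := by
    rw [← LinearMap.ker_eq_bot, LinearMap.ker_eq_bot']
    intro c hc
    apply hi
    rw [hF, Submodule.Quotient.mk_eq_zero] at hc
    rw [← hco]
    exact (el_tors n _).mpr hc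
  have hsurj : Function.Surjective F := by
    intro y
    obtain ⟨a, rfl⟩ := Submodule.Quotient.mk_surjective _ y
    obtain ⟨c, hc⟩ := hs a a.2
    refine ⟨c, ?_⟩
    rw [hF]
    symm
    rw [Submodule.Quotient.eq, ← el_tors, Submodule.coe_sub, hco]
    exact hc
  have e := LinearEquiv.ofBijective F ⟨hinj, hsurj⟩
  refine ⟨Module.Finite.equiv e, ?_⟩
  rw [← e.finrank_eq, Module.finrank_fin_fun]

theorem el_PD4 {μ : Sx M 4 →₀ ℤ} (h : El.PD4 μ) : PD4 μ := by
  classical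
  constructor
  · exact h.cyc
  · intro n
    obtain ⟨r, hr⟩ := h.fin n
    exact (el_betti hr).1
  · intro n hn
    rw [eq_top_iff]
    intro a _
    exact (el_tors n a).mp (h.top n hn a a.2)
  · intro p q hpq φ
    obtain ⟨b, hb, hb'⟩ := h.dual p q hpq
      (fun a => if ha : a ∈ Zc M p then φ (Submodule.Quotient.mk ⟨a, ha⟩) else 0) (by
        constructor
        · intro a b ha hb
          have ha' : a ∈ Zc M p := ha
          have hb' : b ∈ Zc M p := hb
          have hab : a + b ∈ Zc M p := Submodule.add_mem _ ha' hb'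
          show (if ha : a + b ∈ Zc M p then φ (Submodule.Quotient.mk ⟨a + b, ha⟩) else 0) =
            (if ha : a ∈ Zc M p then φ (Submodule.Quotient.mk ⟨a, ha⟩) else 0) +
              (if ha : b ∈ Zc M p then φ (Submodule.Quotient.mk ⟨b, ha⟩) else 0)
          rw [dif_pos ha', dif_pos hb', dif_pos hab, ← map_add, ← Submodule.Quotient.mk_add]
          rfl
        · intro a ha' ha
          replace ha' : a ∈ Zc M p := ha'
          show (if ha : a ∈ Zc M p then φ (Submodule.Quotient.mk ⟨a, ha⟩) else 0) = 0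
          rw [dif_pos ha', (Submodule.Quotient.mk_eq_zero _).mpr ((el_tors p ⟨a, ha'⟩).mp ha), map_zero])
    refine ⟨⟨b, hb⟩, fun a => ?_⟩
    have h1 := hb' a a.2
    rw [dif_pos a.2] at h1
    exact h1
  · intro p q hpq b hb
    rw [← el_tors]
    exact h.nondeg p q hpq b b.2 fun a ha => hb ⟨a, ha⟩

theorem el_Orth {L : Type} {B : L → L → ℤ} {p q : ℕ} {u : Fin p → L} {v : Fin q → L} (h : El.Orth B u v) :
    Orth B u v := ⟨h.uu, h.vv, h.uv, h.vu, h.pos, h.neg⟩

theorem el_IsSig {μ : Sx M 4 →₀ ℤ} {s : ℤ} (h : El.IsSig μ s) : IsSig μ s := by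
  obtain ⟨p, q, u, v, hu, hv, hpq, hs, hO⟩ := h
  refine ⟨p, q, fun i => ⟨u i, hu i⟩, fun j => ⟨v j, hv j⟩, (el_betti hpq).2.symm, hs, ?_⟩
  exact ⟨hO.uu, hO.vv, hO.uv, hO.vu, hO.pos, hO.neg⟩

theorem el_chi {c : ℤ} (h : El.IsChi M c) : chi M = c := by
  obtain ⟨r, hr, hc⟩ := h
  rw [hc]
  unfold chi
  rw [← Fin.sum_univ_eq_sum_range (fun n => (-1 : ℤ) ^ n * (Module.finrank ℤ (FH M n) : ℤ)) 5]
  refine sum_congr rfl fun n _ => ?_
  rw [(el_betti (hr n)).2]

theorem el_Mark {x : M} {f : FundamentalGroup M x ≃* Multiplicative (Fin 4 → ℤ)} {a : Fin 4 → Co M 1}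
    (h : El.Mark x f a) : Mark x f a := ⟨h.coc, h.per⟩

theorem el_main {M : Type} [TopologicalSpace M] [PathConnectedSpace M] (μ : El.Sx M 4 →₀ ℤ) (hM : El.PD4 μ) (x : M)
    (f : FundamentalGroup M x ≃* Multiplicative (Fin 4 → ℤ)) (k : ℤ) (hk : El.Deg μ x f k) (h0 : k ≠ 0)
    (s : ℤ) (hs : El.IsSig μ s) (c : ℤ) (hc : El.IsChi M c) :
    (Even k → c = 6 → s = 0) ∧ ((k = 2 ∨ k = -2) → c = 7 → s = 1 ∨ s = -1 ∨ s = 7 ∨ s = -7) := by
  obtain ⟨a, ha, hd⟩ := hk
  rw [← el_chi hc]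
  exact main μ (el_PD4 hM) x f k ⟨a, el_Mark ha, hd⟩ h0 s (el_IsSig hs)

end

end Pool.Agent.LibGZ87
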